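import Pool.Agent.Work.MP_b44cb1_al.Full.Base

/-!
# MP_b44cb1_al, block EXT, module ExEA (M) : products of elementary abelian layers

PROOF. By induction on `i ≤ n`, `card (Gs A i)` divides `∏ l < i, card (A l)` (`Gs A i` normalises `A i`, so
`Gs A (i+1)` is the set product and `card (X ⊔ Y) * card (X ⊓ Y) = card X * card Y`). `A i` is a `q i`-group
(`hexp`), so `card (A i)` is a power of `q i`, and as the `q i` are different primes the `q i`-part of
`card H = card (Gs A n)` divides `card (A i)`: the index of `A i` is prime to `q i`, so `A i` is a Sylow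
`q i`-subgroup (`IsPGroup.toSylow`). Let `ℓ` be a prime and `S` an `ℓ`-subgroup. If `ℓ` does not divide
`card H`, then `S = ⊥`. Otherwise `ℓ` divides some `card (A i)`, so `ℓ = q i`; `S` is contained in a
Sylow subgroup (`IsPGroup.exists_le_sylow`), conjugate to `A i` (`MulAction.exists_smul_eq`), so `S` is
elementary abelian like `A i` (`hcom`, `hexp`).
-/

set_option autoImplicit false

namespace Pool.Agent.Work.MP_b44cb1_al

open Subgroup

private theorem xe_mul {G : Type*} [Group G] {X Y : Subgroup G} (h : Nz X Y) {z : G}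
    (hz : z ∈ X ⊔ Y) : ∃ x ∈ X, ∃ y ∈ Y, x * y = z := by
  let S : Subgroup G :=
    { carrier := {z | ∃ x ∈ X, ∃ y ∈ Y, x * y = z}
      mul_mem' := by
        rintro _ _ ⟨x, hx, y, hy, rfl⟩ ⟨x', hx', y', hy', rfl⟩
        refine ⟨x * x', mul_mem hx hx', (x'⁻¹ * y * x') * y', mul_mem ?_ hy', by group⟩
        have h1 := h x'⁻¹ (inv_mem hx') y hy
        rwa [inv_inv] at h1
      one_mem' := ⟨1, one_mem _, 1, one_mem _, by group⟩
      inv_mem' := by
        rintro _ ⟨x, hx, y, hy, rfl⟩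
        exact ⟨x⁻¹, inv_mem hx, x * y⁻¹ * x⁻¹, h x hx _ (inv_mem hy), by group⟩ }
  have h1 : X ⊔ Y ≤ S := by
    refine sup_le ?_ ?_
    · intro x hx
      exact ⟨x, hx, 1, one_mem _, by group⟩
    · intro y hy
      exact ⟨1, one_mem _, y, hy, by group⟩
  exact h1 hz

private theorem xe_one {G : Type*} [Group G] {p : ℕ} (hp : p.Prime) {P B : Subgroup G}
    (hP : IsPGroup p P) (hB : ¬ p ∣ Nat.card B) {y : G} (h1 : y ∈ P) (h2 : y ∈ B) : y = 1 := by
  obtain ⟨k, hk⟩ := hP ⟨y, h1⟩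
  have h3 : y ^ p ^ k = 1 := congrArg Subtype.val hk
  have h4 : orderOf y ∣ p ^ k := orderOf_dvd_of_pow_eq_one h3
  obtain ⟨j, -, hj⟩ := (Nat.dvd_prime_pow hp).1 h4
  rcases Nat.eq_zero_or_pos j with h0 | h0
  · rw [h0, pow_zero] at hj
    exact orderOf_eq_one_iff.1 hj
  · exfalso
    apply hB
    have h5 : orderOf y ∣ Nat.card B := Subgroup.orderOf_dvd_natCard B h2
    rw [hj] at h5
    exact (dvd_pow_self p h0.ne').trans h5

private theorem xe_dvd {G : Type*} [Group G] [Finite G] {X Y : Subgroup G} (h : Nz X Y) :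
    Nat.card ↥(X ⊔ Y) ∣ Nat.card X * Nat.card Y := by
  have hn : Nz (X ⊔ Y) Y := by
    rw [nz_iff]
    exact sup_le (nz_iff.1 h) (nz_iff.1 (nz_self Y))
  have hN : (Y.subgroupOf (X ⊔ Y)).Normal := hn.subgroupOf_normal
  have hsurj : Function.Surjective ((QuotientGroup.mk' (Y.subgroupOf (X ⊔ Y))).comp
      (Subgroup.inclusion (le_sup_left : X ≤ X ⊔ Y))) := by
    intro c
    obtain ⟨⟨z, hz⟩, rfl⟩ := QuotientGroup.mk'_surjective (Y.subgroupOf (X ⊔ Y)) c
    obtain ⟨x, hx, y, hy, rfl⟩ := xe_mul h hz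
    refine ⟨⟨x, hx⟩, ?_⟩
    rw [MonoidHom.comp_apply, QuotientGroup.mk'_apply, QuotientGroup.mk'_apply, QuotientGroup.eq,
      Subgroup.mem_subgroupOf]
    change x⁻¹ * (x * y) ∈ Y
    rw [inv_mul_cancel_left]
    exact hy
  have h1 : (Y.subgroupOf (X ⊔ Y)).index ∣ Nat.card X := Subgroup.card_dvd_of_surjective _ hsurj
  have h2 : Nat.card (Y.subgroupOf (X ⊔ Y)) = Nat.card Y :=
    Nat.card_congr (Subgroup.subgroupOfEquivOfLe le_sup_right).toEquiv
  have h3 := (Y.subgroupOf (X ⊔ Y)).index_mul_card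
  rw [h2] at h3
  rw [← h3]
  exact Nat.mul_dvd_mul_right h1 _

theorem ea_of_layers {H : Type} [Group H] [Finite H] (A : ℕ → Subgroup H) (q : ℕ → ℕ) (n : ℕ)
    (hq : ∀ i < n, (q i).Prime) (hinj : ∀ i < n, ∀ j < n, q i = q j → i = j)
    (hnz : ∀ i < n, Nz (Gs A i) (A i)) (hcom : ∀ i < n, Cz (A i) (A i))
    (hexp : ∀ i < n, ∀ a ∈ A i, a ^ q i = 1) (htop : Gs A n = ⊤) : EA H := by
  classical
  have hcard : ∀ i ≤ n, Nat.card ↥(Gs A i) ∣ ∏ l ∈ Finset.range i, Nat.card ↥(A l) := by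
    intro i
    induction i with
    | zero =>
      intro _
      rw [gs_zero, Subgroup.card_bot]
      exact one_dvd _
    | succ i ih =>
      intro hi
      rw [gs_succ, Finset.prod_range_succ]
      exact (xe_dvd (hnz i hi)).trans (Nat.mul_dvd_mul_right (ih (Nat.le_of_succ_le hi)) _)
  have hH : Nat.card H ∣ ∏ l ∈ Finset.range n, Nat.card ↥(A l) := by
    have h1 := hcard n le_rfl
    rw [htop, Subgroup.card_top] at h1
    exact h1
  have hpg : ∀ i < n, IsPGroup (q i) ↥(A i) := by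
    intro i hi a
    refine ⟨1, Subtype.ext ?_⟩
    rw [pow_one]
    exact hexp i hi a.1 a.2
  have hpow : ∀ i < n, ∃ k, Nat.card ↥(A i) = q i ^ k := by
    intro i hi
    have : Fact (q i).Prime := ⟨hq i hi⟩
    exact IsPGroup.iff_card.1 (hpg i hi)
  have hdvd : ∀ p : ℕ, p.Prime → ∀ s ⊆ Finset.range n, p ∣ ∏ l ∈ s, Nat.card ↥(A l) →
      ∃ i ∈ s, p = q i := by
    intro p hp s hs h
    obtain ⟨i, hi, hpi⟩ := (Prime.dvd_finsetProd_iff hp.prime _).1 h
    have hin : i < n := Finset.mem_range.1 (hs hi)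
    obtain ⟨k, hk⟩ := hpow i hin
    rw [hk] at hpi
    exact ⟨i, hi, (Nat.prime_dvd_prime_iff_eq hp (hq i hin)).1 (hp.dvd_of_dvd_pow hpi)⟩
  have hidx : ∀ i < n, ¬ q i ∣ (A i).index := by
    intro i hi h
    have h1 : Nat.card ↥(A i) * (A i).index ∣
        Nat.card ↥(A i) * ∏ l ∈ (Finset.range n).erase i, Nat.card ↥(A l) := by
      rw [Subgroup.card_mul_index]
      have h3 := Finset.mul_prod_erase (Finset.range n) (fun l => Nat.card ↥(A l))
        (Finset.mem_range.2 hi)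
      rw [h3]
      exact hH
    have h2 : (A i).index ∣ ∏ l ∈ (Finset.range n).erase i, Nat.card ↥(A l) :=
      Nat.dvd_of_mul_dvd_mul_left Nat.card_pos h1
    obtain ⟨j, hj, hij⟩ := hdvd (q i) (hq i hi) _ (Finset.erase_subset _ _) (h.trans h2)
    rw [Finset.mem_erase, Finset.mem_range] at hj
    exact hj.1 (hinj i hi j hj.2 hij).symm
  intro p hp P hP
  by_cases hpH : p ∣ Nat.card H
  · obtain ⟨i, hi, rfl⟩ := hdvd p hp _ (Finset.Subset.refl _) (hpH.trans hH)
    rw [Finset.mem_range] at hi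
    have : Fact (q i).Prime := ⟨hp⟩
    obtain ⟨S, hS⟩ := hP.exists_le_sylow
    obtain ⟨g, hg⟩ := MulAction.exists_smul_eq H ((hpg i hi).toSylow (hidx i hi)) S
    have key : ∀ x ∈ P, g⁻¹ * x * g ∈ A i := by
      intro x hx
      have h1 : x ∈ (S : Subgroup H) := hS hx
      rw [← hg, Sylow.coe_subgroup_smul, IsPGroup.toSylow_coe] at h1
      obtain ⟨y, hy, hxy⟩ := Subgroup.mem_smul_pointwise_iff_exists _ _ _ |>.1 h1
      rw [MulAut.smul_def, MulAut.conj_apply] at hxy
      rw [← hxy]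
      have : g⁻¹ * (g * y * g⁻¹) * g = y := by group
      rw [this]
      exact hy
    refine ⟨fun a ha b hb => ?_, fun a ha => ?_⟩
    · have h1 := hcom i hi _ (key a ha) _ (key b hb)
      have h2 : g⁻¹ * (a * b) * g = g⁻¹ * (b * a) * g := by
        calc g⁻¹ * (a * b) * g = (g⁻¹ * a * g) * (g⁻¹ * b * g) := by group
          _ = (g⁻¹ * b * g) * (g⁻¹ * a * g) := h1
          _ = g⁻¹ * (b * a) * g := by group
      exact mul_left_cancel (mul_right_cancel h2)
    · have h1 := hexp i hi _ (key a ha)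
      have h2 : (g⁻¹ * a * g) ^ q i = g⁻¹ * a ^ q i * g := by
        have h3 := conj_pow (i := q i) (a := g⁻¹) (b := a)
        rw [inv_inv] at h3
        exact h3
      rw [h2] at h1
      calc a ^ q i = g * (g⁻¹ * a ^ q i * g) * g⁻¹ := by group
        _ = 1 := by rw [h1]; group
  · have h1 : ∀ a ∈ P, a = 1 := by
      intro a ha
      refine xe_one hp hP (B := ⊤) ?_ ha (Subgroup.mem_top a)
      rw [Subgroup.card_top]
      exact hpH
    refine ⟨fun a ha b hb => ?_, fun a ha => ?_⟩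
    · rw [h1 a ha, h1 b hb]
    · rw [h1 a ha, one_pow]

end Pool.Agent.Work.MP_b44cb1_al
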