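import Pool.Agent.Work.MP_b44cb1_al.Full.Ext.ExTow

/-!
# MP_b44cb1_al, block EXT, module ExNF (M) : the subgroup `N_n = Gs (FQ Q q) n`

PROOF.
`etow_nz`: induction on `n`. `Gs Q (n+1) = Gs Q n ⊔ Q n`, `Gs (FQ Q q) (n+1) = Gs (FQ Q q) n ⊔ Fr (Q n)`. `Gs Q n`
normalises `Gs (FQ Q q) n` (induction) and `Fr (Q n)` (`nz_fr`); `Q n` centralises `Gs (FQ Q q) n` (`cz`) and
normalises `Fr (Q n)` (`nz_fr`, `nz_self`). Use `nz_iff` and `Nz.sup`.
`etow_nil`: induction; `Gs (FQ Q q) n` and `Fr (Q n)` commute elementwise and are nilpotent (a finite `p`-group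
is nilpotent), so their join is the image of the product under a homomorphism
(`Subgroup.noncommCoprod`-like / `MonoidHom.noncommCoprod`), `Group.isNilpotent_prod`,
`Group.nilpotent_of_surjective`.
`etow_cond`: induction. Let `x ∈ (Gs (FQ Q q) n ⊔ Fr (Q n)) ⊓ S1`; `x = y * f` with `y ∈ Gs (FQ Q q) n`,
`f ∈ Fr (Q n)`, commuting (`cz`). The order of `f` is a power of `q n`, the order of `y` is prime to `q n` (it
divides `card (Gs Q n)`). So `y` and `f` are powers of `x` (choose `k` with `k ≡ 1` modulo the order of `y` and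
`k ≡ 0` modulo the order of `f`: `x ^ k = y`), hence in `S1`; `y ∈ S2` by induction, `f ∈ S2` by hypothesis.
`etow_inf`: `x ∈ Q n`, `x = y * f`, `y ∈ Gs (FQ Q q) n ≤ Gs Q n`, `f ∈ Fr (Q n) ≤ Q n`: `y = x * f⁻¹ ∈ Q n ⊓ Gs Q n`
has order a power of `q n` and prime to `q n`, so `y = 1`.
-/

set_option autoImplicit false

namespace Pool.Agent.Work.MP_b44cb1_al

open Subgroup

variable {G : Type*} [Group G]

private theorem nf_mul {X Y : Subgroup G} (h : Nz X Y) {z : G} (hz : z ∈ X ⊔ Y) :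
    ∃ x ∈ X, ∃ y ∈ Y, x * y = z := by
  let S : Subgroup G :=
    { carrier := {z | ∃ x ∈ X, ∃ y ∈ Y, x * y = z}
      mul_mem' := by
        rintro _ _ ⟨x, hx, y, hy, rfl⟩ ⟨x', hx', y', hy', rfl⟩
        refine ⟨x * x', mul_mem hx hx', (x'⁻¹ * y * x') * y', mul_mem ?_ hy', by group⟩
        have h1 := h x'⁻¹ (inv_mem hx') y hy
        rwa [inv_inv] at h1
      one_mem' := ⟨1, one_mem _, 1, one_mem _, by group⟩
      inv_mem' := by
        rintro _ ⟨x, hx, y, hy, rfl⟩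
        exact ⟨x⁻¹, inv_mem hx, x * y⁻¹ * x⁻¹, h x hx _ (inv_mem hy), by group⟩ }
  have h1 : X ⊔ Y ≤ S := by
    refine sup_le ?_ ?_
    · intro x hx
      exact ⟨x, hx, 1, one_mem _, by group⟩
    · intro y hy
      exact ⟨1, one_mem _, y, hy, by group⟩
  exact h1 hz

private theorem nf_nz_of_cz {A B : Subgroup G} (h : Cz A B) : Nz B A := by
  intro g hg d hd
  have h1 := h d hd g hg
  rw [← h1]
  simpa using hd

private theorem nf_one {p : ℕ} (hp : p.Prime) {P B : Subgroup G} (hP : IsPGroup p P)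
    (hB : ¬ p ∣ Nat.card B) {y : G} (h1 : y ∈ P) (h2 : y ∈ B) : y = 1 := by
  obtain ⟨k, hk⟩ := hP ⟨y, h1⟩
  have h3 : y ^ p ^ k = 1 := congrArg Subtype.val hk
  have h4 : orderOf y ∣ p ^ k := orderOf_dvd_of_pow_eq_one h3
  obtain ⟨j, -, hj⟩ := (Nat.dvd_prime_pow hp).1 h4
  rcases Nat.eq_zero_or_pos j with h0 | h0
  · rw [h0, pow_zero] at hj
    exact orderOf_eq_one_iff.1 hj
  · exfalso
    apply hB
    have h5 : orderOf y ∣ Nat.card B := Subgroup.orderOf_dvd_natCard B h2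
    rw [hj] at h5
    exact (dvd_pow_self p h0.ne').trans h5

private theorem nf_split {a b : G} (hab : a * b = b * a)
    (hco : Nat.Coprime (orderOf a) (orderOf b)) {S : Subgroup G} (h : a * b ∈ S) : a ∈ S := by
  obtain ⟨k, hk1, hk2⟩ := Nat.chineseRemainder hco 1 0
  have h1 : (a * b) ^ k = a := by
    rw [(show Commute a b from hab).mul_pow]
    have e1 : a ^ k = a ^ 1 := pow_eq_pow_iff_modEq.2 hk1
    have e2 : b ^ k = b ^ 0 := pow_eq_pow_iff_modEq.2 hk2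
    rw [e1, e2, pow_one, pow_zero, mul_one]
  rw [← h1]
  exact pow_mem h k

private theorem nf_cop {p : ℕ} (hp : p.Prime) {P B : Subgroup G} (hP : IsPGroup p P)
    (hB : ¬ p ∣ Nat.card B) {y f : G} (h1 : f ∈ P) (h2 : y ∈ B) :
    Nat.Coprime (orderOf y) (orderOf f) := by
  obtain ⟨k, hk⟩ := hP ⟨f, h1⟩
  have h3 : f ^ p ^ k = 1 := congrArg Subtype.val hk
  have h4 : orderOf f ∣ p ^ k := orderOf_dvd_of_pow_eq_one h3
  have h5 : orderOf y ∣ Nat.card B := Subgroup.orderOf_dvd_natCard B h2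
  have h6 : Nat.Coprime (Nat.card B) p := ((Nat.Prime.coprime_iff_not_dvd hp).2 hB).symm
  exact Nat.Coprime.coprime_dvd_left h5 (Nat.Coprime.coprime_dvd_right h4 (h6.pow_right k))

theorem etow_nz {Q : ℕ → Subgroup G} {q : ℕ → ℕ} {n : ℕ} (T : ETow Q q n) :
    Nz (Gs Q n) (Gs (FQ Q q) n) := by
  induction n with
  | zero => exact nz_self _
  | succ n ih =>
    have ih' := ih (T.trunc (Nat.le_succ n))
    rw [gs_succ, gs_succ, nz_iff]
    refine sup_le (nz_iff.1 ?_) (nz_iff.1 ?_)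
    · exact ih'.sup (nz_fr _ (T.nz n (Nat.lt_succ_self n)))
    · exact (nf_nz_of_cz (T.cz n (Nat.lt_succ_self n))).sup (nz_fr _ (nz_self _))

theorem etow_nil [Finite G] {Q : ℕ → Subgroup G} {q : ℕ → ℕ} {n : ℕ} (T : ETow Q q n) :
    Group.IsNilpotent ↥(Gs (FQ Q q) n) := by
  induction n with
  | zero =>
    rw [gs_zero]
    infer_instance
  | succ n ih =>
    have hA : Group.IsNilpotent ↥(Gs (FQ Q q) n) := ih (T.trunc (Nat.le_succ n))
    have hp : (q n).Prime := T.prime n (Nat.lt_succ_self n)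
    have : Fact (q n).Prime := ⟨hp⟩
    have hF : IsPGroup (q n) ↥(FQ Q q n) := (T.pgrp n (Nat.lt_succ_self n)).to_le (fq_le Q q n)
    have hF' : Group.IsNilpotent ↥(FQ Q q n) := hF.isNilpotent
    have hcomm : ∀ (a : ↥(Gs (FQ Q q) n)) (f : ↥(FQ Q q n)),
        Commute ((Gs (FQ Q q) n).subtype a) ((FQ Q q n).subtype f) := fun a f =>
      T.cz n (Nat.lt_succ_self n) a.1 a.2 f.1 (fq_le Q q n f.2)
    have h1 : Group.IsNilpotent ↥(MonoidHom.noncommCoprod (Gs (FQ Q q) n).subtype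
        (FQ Q q n).subtype hcomm).range :=
      Group.nilpotent_of_surjective (MonoidHom.noncommCoprod (Gs (FQ Q q) n).subtype
        (FQ Q q n).subtype hcomm).rangeRestrict (MonoidHom.rangeRestrict_surjective _)
    rw [MonoidHom.noncommCoprod_range, Subgroup.range_subtype, Subgroup.range_subtype] at h1
    rw [gs_succ]
    exact h1

theorem etow_cond [Finite G] {Q : ℕ → Subgroup G} {q : ℕ → ℕ} {n : ℕ} (T : ETow Q q n)
    (S1 S2 : Subgroup G) (h : ∀ i < n, Fr (q i) (Q i) ⊓ S1 ≤ S2) :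
    Gs (FQ Q q) n ⊓ S1 ≤ S2 := by
  induction n with
  | zero =>
    rw [gs_zero, bot_inf_eq]
    exact bot_le
  | succ n ih =>
    have ih' := ih (T.trunc (Nat.le_succ n)) fun i hi => h i (Nat.lt_succ_of_lt hi)
    intro x hx
    obtain ⟨hx1, hx2⟩ := Subgroup.mem_inf.1 hx
    rw [gs_succ] at hx1
    have hnz : Nz (Gs (FQ Q q) n) (FQ Q q n) :=
      (nz_fr _ (T.nz n (Nat.lt_succ_self n))).mono (gs_fq_le Q q n)
    obtain ⟨y, hy, f, hf, rfl⟩ := nf_mul hnz hx1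
    have hcomm : y * f = f * y := T.cz n (Nat.lt_succ_self n) y hy f (fq_le Q q n hf)
    have hco := nf_cop (T.prime n (Nat.lt_succ_self n)) (T.pgrp n (Nat.lt_succ_self n))
      (T.cop n (Nat.lt_succ_self n)) (fq_le Q q n hf) (gs_fq_le Q q n hy)
    have hyS : y ∈ S1 := nf_split hcomm hco hx2
    have hfS : f ∈ S1 := by
      have h1 : f = y⁻¹ * (y * f) := by group
      rw [h1]
      exact mul_mem (inv_mem hyS) hx2
    exact mul_mem (ih' ⟨hy, hyS⟩) (h n (Nat.lt_succ_self n) ⟨hf, hfS⟩)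

theorem etow_inf [Finite G] {Q : ℕ → Subgroup G} {q : ℕ → ℕ} {n : ℕ} (T : ETow Q q (n + 1)) :
    Q n ⊓ Gs (FQ Q q) (n + 1) ≤ Fr (q n) (Q n) := by
  intro x hx
  obtain ⟨hx1, hx2⟩ := Subgroup.mem_inf.1 hx
  rw [gs_succ] at hx2
  have hnz : Nz (Gs (FQ Q q) n) (FQ Q q n) :=
    (nz_fr _ (T.nz n (Nat.lt_succ_self n))).mono (gs_fq_le Q q n)
  obtain ⟨y, hy, f, hf, rfl⟩ := nf_mul hnz hx2
  have hyQ : y ∈ Q n := by
    have h1 : y = y * f * f⁻¹ := by group
    rw [h1]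
    exact mul_mem hx1 (inv_mem (fq_le Q q n hf))
  have hy1 : y = 1 := nf_one (T.prime n (Nat.lt_succ_self n)) (T.pgrp n (Nat.lt_succ_self n))
    (T.cop n (Nat.lt_succ_self n)) hyQ (gs_fq_le Q q n hy)
  rw [hy1, one_mul]
  exact hf

end Pool.Agent.Work.MP_b44cb1_al
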