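import Pool.Agent.Work.MP_b44cb1_al.Law
import Pool.Agent.Work.MP_b44cb1_al.ResA
import Pool.Agent.Work.MP_b44cb1_al.Full.Ext.ExNF
import Pool.Agent.Work.MP_b44cb1_al.Full.Ext.ExEA

/-!
# MP_b44cb1_al, block EXT, module ExFin (M) : the extracted section has height `> m`

PROOF. `B := Gs Q (m+1)`, `N := Gs (FQ Q q) (m+1)`, normal in `B` (`etow_nz`, `Nz.subgroupOf_normal`),
`H := ↥B ⧸ N.subgroupOf B`, `f : ↥B →* H`. `A i := ((Q i).subgroupOf B).map f`. The primes `q i`, `i ≤ m`, are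
different: for `i < j`, `Q i ≤ Gs Q j`, `Q i ≠ ⊥` (`hnt`), so `q i` divides `card (Gs Q j)` and `q j` does not.
`A i` is abelian of exponent `q i` as `Fr (q i) (Q i) ≤ N`. `Nz (Gs A i) (A i)` and `Gs A (m+1) = ⊤`: images of
`T.nz` and of `Gs Q i` (`Gs A i` is the image of `(Gs Q i).subgroupOf B`, induction on `i`). By
`ea_of_layers` `EA H`. `H` is finite, solvable, satisfies `Law r s` (`law_sub`, `law_quot`). So
`res^[m] ⊤ = ⊥` by `hst`. `A (i+1) ≤ ⁅A (i+1), A i⁆` for `i < m`: `hfull` modulo `N`. By `resI_chain`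
(file ResA) `A m ≤ res^[m] ⊤ = ⊥`, i.e. `Q m ≤ N`, so `Q m ≤ Fr (q m) (Q m)` by `etow_inf`, against `hnt m`.
-/

set_option autoImplicit false

namespace Pool.Agent.Work.MP_b44cb1_al

open Subgroup
open scoped commutatorElement

private theorem xf_comm {G : Type} [Group G] {B K1 K2 : Subgroup G} (h1 : K1 ≤ B) (h2 : K2 ≤ B) :
    (⁅K1, K2⁆).subgroupOf B ≤ ⁅K1.subgroupOf B, K2.subgroupOf B⁆ := by
  have h3 : (⁅K1.subgroupOf B, K2.subgroupOf B⁆).map B.subtype = ⁅K1, K2⁆ := by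
    rw [map_commutator, subgroupOf_map_subtype, subgroupOf_map_subtype, inf_eq_left.2 h1,
      inf_eq_left.2 h2]
  intro x hx
  rw [mem_subgroupOf, ← h3] at hx
  obtain ⟨y, hy, hyx⟩ := hx
  have : y = x := Subtype.ext hyx
  rwa [← this]

theorem etow_final (r s m : ℕ) {G : Type} [Group G] [Finite G] (hs : Group.IsSolvable G)
    (hrs : r < s) (hlaw : Law r s G) (hst : St r m) {Q : ℕ → Subgroup G} {q : ℕ → ℕ}
    (T : ETow Q q (m + 1))
    (hfull : ∀ i < m, Q (i + 1) ≤ ⁅Q (i + 1), Q i⁆ ⊔ Fr (q (i + 1)) (Q (i + 1)))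
    (hnt : ∀ i ≤ m, ¬ Q i ≤ Fr (q i) (Q i)) : False := by
  obtain ⟨B, hB⟩ : ∃ B, B = Gs Q (m + 1) := ⟨_, rfl⟩
  obtain ⟨N, hN⟩ : ∃ N, N = Gs (FQ Q q) (m + 1) := ⟨_, rfl⟩
  have hnz : Nz B N := by
    rw [hB, hN]
    exact etow_nz T
  have hnorm : (N.subgroupOf B).Normal := hnz.subgroupOf_normal
  have hQB : ∀ i, i ≤ m → Q i ≤ B := by
    intro i hi
    rw [hB]
    exact le_gs' Q (by omega)
  have hFN : ∀ i, i ≤ m → Fr (q i) (Q i) ≤ N := by
    intro i hi
    rw [hN]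
    exact le_gs' (FQ Q q) (show i < m + 1 by omega)
  have hGB : ∀ i, i ≤ m + 1 → Gs Q i ≤ B := by
    intro i hi
    rw [hB, gs_le_iff]
    intro j hj
    exact le_gs' Q (by omega)
  obtain ⟨f, hf⟩ : ∃ f : ↥B →* ↥B ⧸ N.subgroupOf B, f = QuotientGroup.mk' (N.subgroupOf B) :=
    ⟨_, rfl⟩
  have hfs : Function.Surjective f := by
    rw [hf]
    exact QuotientGroup.mk'_surjective _
  have hf1 : ∀ x : ↥B, f x = 1 ↔ (x : G) ∈ N := by
    intro x
    rw [hf, QuotientGroup.mk'_apply, QuotientGroup.eq_one_iff, mem_subgroupOf]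
  obtain ⟨A, hA⟩ : ∃ A : ℕ → Subgroup (↥B ⧸ N.subgroupOf B), ∀ i,
    A i = ((Q i).subgroupOf B).map f := ⟨_, fun _ => rfl⟩
  have hGs : ∀ i, i ≤ m + 1 → Gs A i = ((Gs Q i).subgroupOf B).map f := by
    intro i
    induction i with
    | zero =>
      intro _
      show (⊥ : Subgroup (↥B ⧸ N.subgroupOf B)) = ((⊥ : Subgroup G).subgroupOf B).map f
      rw [bot_subgroupOf, Subgroup.map_bot]
    | succ i ih =>
      intro hi
      show Gs A i ⊔ A i = ((Gs Q i ⊔ Q i).subgroupOf B).map f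
      rw [ih (by omega), hA, subgroupOf_sup (hGB i (by omega)) (hQB i (by omega)),
        Subgroup.map_sup]
  have hmem : ∀ (K : Subgroup G) (a : ↥B ⧸ N.subgroupOf B), a ∈ (K.subgroupOf B).map f →
      ∃ x : ↥B, (x : G) ∈ K ∧ f x = a := by
    rintro K a ⟨x, hx, hxa⟩
    exact ⟨x, mem_subgroupOf.1 hx, hxa⟩
  have hmem' : ∀ (K : Subgroup G) (x : ↥B), (x : G) ∈ K → f x ∈ (K.subgroupOf B).map f := by
    intro K x hx
    exact ⟨x, mem_subgroupOf.2 hx, rfl⟩
  have hinj' : ∀ i j, i < j → j ≤ m → q i ≠ q j := by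
    intro i j hij hj heq
    apply T.cop j (by omega)
    rw [← heq]
    have hle : Q i ≤ Gs Q j := le_gs' Q hij
    refine dvd_trans ?_ (card_dvd_of_le hle)
    have hpr : Fact (q i).Prime := ⟨T.prime i (by omega)⟩
    obtain ⟨k, hk⟩ := (IsPGroup.iff_card (p := q i)).1 (T.pgrp i (by omega))
    rw [hk]
    apply dvd_pow_self
    rintro rfl
    rw [pow_zero] at hk
    have h1 : Q i = ⊥ := eq_bot_of_card_eq _ hk
    apply hnt i (by omega)
    rw [h1]
    exact bot_le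
  have hEA : EA (↥B ⧸ N.subgroupOf B) := by
    refine ea_of_layers A q (m + 1) (fun i hi => T.prime i hi) ?_ ?_ ?_ ?_ ?_
    · intro i hi j hj hij
      rcases lt_trichotomy i j with h | h | h
      · exact absurd hij (hinj' i j h (by omega))
      · exact h
      · exact absurd hij.symm (hinj' j i h (by omega))
    · intro i hi g hg d hd
      rw [hGs i (by omega)] at hg
      rw [hA] at hd ⊢
      obtain ⟨x, hx, rfl⟩ := hmem _ _ hg
      obtain ⟨y, hy, rfl⟩ := hmem _ _ hd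
      rw [← map_mul, ← map_inv, ← map_mul]
      exact hmem' _ _ (T.nz i hi _ hx _ hy)
    · intro i hi a ha b hb
      rw [hA] at ha hb
      obtain ⟨x, hx, rfl⟩ := hmem _ _ ha
      obtain ⟨y, hy, rfl⟩ := hmem _ _ hb
      have h1 : f ⁅x, y⁆ = 1 := by
        rw [hf1]
        apply hFN i (by omega)
        have h2 : ((⁅x, y⁆ : ↥B) : G) = ⁅(x : G), (y : G)⁆ := rfl
        rw [h2]
        exact (le_sup_left : ⁅Q i, Q i⁆ ≤ Fr (q i) (Q i)) (commutator_mem_commutator hx hy)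
      rw [map_commutatorElement] at h1
      exact commutatorElement_eq_one_iff_mul_comm.1 h1
    · intro i hi a ha
      rw [hA] at ha
      obtain ⟨x, hx, rfl⟩ := hmem _ _ ha
      rw [← map_pow, hf1]
      apply hFN i (by omega)
      exact (le_sup_right : closure ((fun x : G => x ^ (q i)) '' (Q i : Set G)) ≤ Fr (q i) (Q i))
        (subset_closure ⟨(x : G), hx, rfl⟩)
    · rw [hGs (m + 1) le_rfl, ← hB, subgroupOf_self, ← MonoidHom.range_eq_map]
      exact MonoidHom.range_eq_top.2 hfs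
  have hsol : Group.IsSolvable (↥B ⧸ N.subgroupOf B) := inferInstance
  have hres := hst (↥B ⧸ N.subgroupOf B) hsol hEA ⟨s, hrs, law_quot (law_sub hlaw B) _⟩
  have hchain := resI_chain m A ⊤ (fun _ _ => le_top) (by
    intro l hl
    rw [hA (l + 1), hA l]
    have h1 : ((Q (l + 1)).subgroupOf B).map f ≤
        ((⁅Q (l + 1), Q l⁆ ⊔ Fr (q (l + 1)) (Q (l + 1))).subgroupOf B).map f :=
      Subgroup.map_mono (fun x hx => hfull l hl hx)
    refine h1.trans ?_
    have hF1 : Fr (q (l + 1)) (Q (l + 1)) ≤ B := (fr_le _ _).trans (hQB _ (by omega))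
    have hC1 : ⁅Q (l + 1), Q l⁆ ≤ B := by
      rw [commutator_le]
      intro a ha b hb
      have ha' := hQB _ (by omega) ha
      have hb' := hQB l (by omega) hb
      exact mul_mem (mul_mem (mul_mem ha' hb') (inv_mem ha')) (inv_mem hb')
    rw [subgroupOf_sup hC1 hF1, Subgroup.map_sup]
    refine sup_le ?_ ?_
    · rw [← map_commutator]
      exact Subgroup.map_mono (xf_comm (hQB _ (by omega)) (hQB _ (by omega)))
    · intro a ha
      obtain ⟨x, hx, rfl⟩ := hmem _ _ ha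
      have h2 : f x = 1 := (hf1 x).2 (hFN _ (by omega) hx)
      rw [h2]
      exact one_mem _)
  rw [hres] at hchain
  apply hnt m le_rfl
  intro x hx
  apply etow_inf T
  refine ⟨hx, ?_⟩
  have h1 : f ⟨x, hQB m le_rfl hx⟩ ∈ A m := by
    rw [hA]
    exact hmem' _ _ hx
  have h2 := mem_bot.1 (hchain h1)
  rw [hf1, hN] at h2
  exact h2

end Pool.Agent.Work.MP_b44cb1_al
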