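import Pool.Agent.Work.MP_b44cb1_al.Full.Defs

/-!
# MP_b44cb1_al, block EXT, module ChCyc (S-M) : a pair with cyclic quotient is given by a character

PROOF. `N := S.2.subgroupOf S.1` is normal (`Nz S.1 S.2`, `Nz.subgroupOf_normal` in Kit), and
`Q := ↥S.1 ⧸ N` is finite cyclic, generated by the class of `g` (`S.1 ≤ S.2 ⊔ zpowers g`, and `S.2` is
normalised by `g`, so every element of `S.1` is `n * g ^ k`, `n ∈ S.2`). A finite cyclic group `Q` of order
`n` embeds into `AddCircle (1 : ℚ)`: e.g. `Q ≃* Multiplicative (ZMod n)` (`zmodCyclicMulEquiv`) and the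
injective homomorphism `ZMod n →+ AddCircle (1 : ℚ)`, `k ↦ k / n` (`ZMod.lift` of the homomorphism
`ℤ →+ AddCircle 1`, `k ↦ (k / n : ℚ)`; injective since `k / n ∈ ℤ ↔ n ∣ k`, `AddCircle.coe_eq_zero_iff`). The
composition `S.1 → Q → Multiplicative (AddCircle 1)` has kernel `N`.
-/

set_option autoImplicit false

namespace Pool.Agent.Work.MP_b44cb1_al

open Subgroup

private theorem zmod_emb (n : ℕ) (hn : n ≠ 0) :
    ∃ f : ZMod n →+ AddCircle (1 : ℚ), Function.Injective f := by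
  have hn' : (n : ℚ) ≠ 0 := Nat.cast_ne_zero.2 hn
  have hf : ∀ k : ℤ, (zmultiplesHom (AddCircle (1 : ℚ)) (((1 / n : ℚ) : ℚ) : AddCircle (1 : ℚ))) k =
      (((k : ℚ) / n : ℚ) : AddCircle (1 : ℚ)) := by
    intro k
    rw [zmultiplesHom_apply, ← AddCircle.coe_zsmul]
    congr 1
    rw [zsmul_eq_mul]
    ring
  have h0 : (zmultiplesHom (AddCircle (1 : ℚ)) (((1 / n : ℚ) : ℚ) : AddCircle (1 : ℚ))) n = 0 := by
    rw [hf, AddCircle.coe_eq_zero_iff]
    refine ⟨1, ?_⟩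
    rw [Int.cast_natCast, div_self hn', one_smul]
  refine ⟨ZMod.lift n ⟨_, h0⟩, (ZMod.lift_injective n).2 fun m hm => ?_⟩
  rw [hf, AddCircle.coe_eq_zero_iff] at hm
  obtain ⟨k, hk⟩ := hm
  rw [ZMod.intCast_zmod_eq_zero_iff_dvd]
  refine ⟨k, ?_⟩
  rw [zsmul_eq_mul, mul_one, eq_div_iff hn'] at hk
  have h1 : ((k * n : ℤ) : ℚ) = (m : ℚ) := by
    push_cast
    exact hk
  have h2 : k * (n : ℤ) = m := by exact_mod_cast h1
  rw [← h2, mul_comm]

theorem cyc_char {G : Type} [Group G] [Finite G] (S : Subgroup G × Subgroup G) (h : CycP S) :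
    ∃ lam : ↥S.1 →* Multiplicative (AddCircle (1 : ℚ)),
      ∀ s : ↥S.1, lam s = 1 ↔ (s : G) ∈ S.2 := by
  obtain ⟨hle, hnz, g, hg, hgen⟩ := h
  have hn : (S.2.subgroupOf S.1).Normal := hnz.subgroupOf_normal
  set π : ↥S.1 →* ↥S.1 ⧸ S.2.subgroupOf S.1 := QuotientGroup.mk' _ with hπ
  have hker : ∀ s : ↥S.1, π s = 1 ↔ (s : G) ∈ S.2 := by
    intro s
    rw [hπ, QuotientGroup.mk'_apply, QuotientGroup.eq_one_iff, mem_subgroupOf]
  have hcyc : IsCyclic (↥S.1 ⧸ S.2.subgroupOf S.1) := by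
    refine ⟨π ⟨g, hg⟩, fun q => ?_⟩
    obtain ⟨s, rfl⟩ := QuotientGroup.mk_surjective q
    have h1 : S.2 ⊔ zpowers g ≤ ((zpowers (π ⟨g, hg⟩)).comap π).map S.1.subtype := by
      rw [sup_le_iff, zpowers_le]
      constructor
      · intro x hx
        refine ⟨⟨x, hle hx⟩, ?_, rfl⟩
        show π ⟨x, hle hx⟩ ∈ zpowers (π ⟨g, hg⟩)
        rw [(hker ⟨x, hle hx⟩).2 hx]
        exact one_mem _
      · exact ⟨⟨g, hg⟩, mem_zpowers _, rfl⟩
    obtain ⟨t, ht, hts⟩ := h1 (hgen s.2)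
    have h2 : t = s := Subtype.ext hts
    rw [h2] at ht
    exact ht
  obtain ⟨f, hf⟩ := zmod_emb (Nat.card (↥S.1 ⧸ S.2.subgroupOf S.1)) Nat.card_pos.ne'
  refine ⟨(AddMonoidHom.toMultiplicative f).comp
    ((zmodCyclicMulEquiv hcyc).symm.toMonoidHom.comp π), fun s => ?_⟩
  rw [← hker]
  constructor
  · intro h1
    have h2 : f (Multiplicative.toAdd ((zmodCyclicMulEquiv hcyc).symm (π s))) = 0 := h1
    have h3 := hf (h2.trans (map_zero f).symm)
    have h4 : (zmodCyclicMulEquiv hcyc).symm (π s) = 1 := h3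
    exact (MulEquiv.map_eq_one_iff _).1 h4
  · intro h1
    rw [MonoidHom.comp_apply, MonoidHom.comp_apply, h1, map_one, map_one]

end Pool.Agent.Work.MP_b44cb1_al
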