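import Pool.Agent.Work.MP_b44cb1_al.Full.Defs

/-!
# MP_b44cb1_al, block EXT, module ExDual (M) : dual families modulo the Frattini subgroup

PROOF. Let `F := (Fr q R).subgroupOf R`; it is normal in `↥R` (`Fr q R` is generated by `⁅R, R⁆`, normal in
`R`, and by the set of `q`-th powers, which is invariant under conjugation), `V := Additive (↥R ⧸ F)` is
commutative of exponent `q`: a `ZMod q`-vector space (`AddCommGroup.zmodModule`). The image `U` of `D` in
`V` has `(Fr q R).relIndex D` elements (the kernel of `D → V` is `D ⊓ Fr q R`), so its dimension is at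
least `ν` (`card U = q ^ finrank U`, `Module.card_eq_pow_finrank`). Choose a linearly independent family
of `ν` vectors of `U` (`exists_linearIndependent...`, or a basis of `U` restricted), extend it to a basis
of `V` (`Basis.extend` / `LinearIndependent.extend`), and take the coordinate functionals; equivalently a
linear map `V → (Fin ν → ZMod q)` sending the vectors to the standard basis (every subspace has a
complement). `w i` = a lift in `D`, `χ i` = the composition `R → V → ZMod q`.
-/

set_option autoImplicit false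

namespace Pool.Agent.Work.MP_b44cb1_al

open Subgroup
open scoped commutatorElement

section aux

variable {G : Type*} [Group G]

private theorem comm_mem_fr (q : ℕ) {R : Subgroup G} {a b : G} (ha : a ∈ R) (hb : b ∈ R) :
    ⁅a, b⁆ ∈ Fr q R := (le_sup_left : ⁅R, R⁆ ≤ Fr q R) (commutator_mem_commutator ha hb)

private theorem pow_mem_fr (q : ℕ) {R : Subgroup G} {a : G} (ha : a ∈ R) : a ^ q ∈ Fr q R :=
  (le_sup_right : closure ((fun x : G => x ^ q) '' (R : Set G)) ≤ Fr q R)
    (subset_closure ⟨a, ha, rfl⟩)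

private theorem fr_normal (q : ℕ) (R : Subgroup G) : ((Fr q R).subgroupOf R).Normal := by
  constructor
  intro n hn g
  rw [mem_subgroupOf] at *
  have h1 : (g : G) * n * (g : G)⁻¹ = ⁅(g : G), (n : G)⁆ * n := by
    rw [commutatorElement_def]
    group
  change (g : G) * n * (g : G)⁻¹ ∈ Fr q R
  rw [h1]
  exact mul_mem (comm_mem_fr q g.2 n.2) hn

end aux

private theorem dual_lin {F V : Type*} [Field F] [AddCommGroup V] [Module F V]
    (U : Submodule F V) [FiniteDimensional F U] {ν : ℕ} (h : ν ≤ Module.finrank F U) :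
    ∃ (b : Fin ν → V) (g : Fin ν → V →ₗ[F] F), (∀ i, b i ∈ U) ∧
      ∀ i j, g i (b j) = if i = j then 1 else 0 := by
  classical
  let B := Module.finBasis F U
  have hg : ∀ i : Fin ν, ∃ g : V →ₗ[F] F, g.comp U.subtype = B.coord (Fin.castLE h i) :=
    fun i => LinearMap.exists_extend _
  choose g hg using hg
  refine ⟨fun i => (B (Fin.castLE h i) : V), g, fun i => (B (Fin.castLE h i)).2, fun i j => ?_⟩
  have h1 := LinearMap.congr_fun (hg i) (B (Fin.castLE h j))
  have h2 : g i (B (Fin.castLE h j) : V) = B.coord (Fin.castLE h i) (B (Fin.castLE h j)) := h1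
  rw [h2, Module.Basis.coord_apply, Module.Basis.repr_self, Finsupp.single_apply]
  by_cases hij : i = j
  · rw [if_pos hij, if_pos (by rw [hij])]
  · rw [if_neg hij, if_neg (fun he => hij (Fin.castLE_injective h he.symm))]

private theorem dual_mod {V : Type*} [AddCommGroup V] [Finite V] (q : ℕ) [Fact q.Prime]
    [Module (ZMod q) V] (U : AddSubgroup V) {ν : ℕ} (h : q ^ ν ≤ Nat.card U) :
    ∃ (b : Fin ν → V) (g : Fin ν → V →+ ZMod q), (∀ i, b i ∈ U) ∧
      ∀ i j, g i (b j) = if i = j then 1 else 0 := by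
  classical
  let U' : Submodule (ZMod q) V := AddSubgroup.toZModSubmodule q U
  have hU' : Nat.card U' = Nat.card U := rfl
  have hfin : Finite U' := inferInstance
  have h1 : Nat.card U' = q ^ Module.finrank (ZMod q) U' := by
    have := Fintype.ofFinite U'
    rw [Nat.card_eq_fintype_card, Module.card_eq_pow_finrank (K := ZMod q), ZMod.card]
  have h2 : ν ≤ Module.finrank (ZMod q) U' := by
    rw [← hU', h1] at h
    exact (Nat.pow_le_pow_iff_right (Nat.Prime.one_lt Fact.out)).1 h
  obtain ⟨b, g, hb, hg⟩ := dual_lin U' h2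
  exact ⟨b, fun i => (g i).toAddMonoidHom, hb, hg⟩

private theorem dual_add {V : Type*} [AddCommGroup V] [Finite V] (q : ℕ) [Fact q.Prime]
    (hV : ∀ v : V, q • v = 0) (U : AddSubgroup V) {ν : ℕ} (h : q ^ ν ≤ Nat.card U) :
    ∃ (b : Fin ν → V) (g : Fin ν → V →+ ZMod q), (∀ i, b i ∈ U) ∧
      ∀ i j, g i (b j) = if i = j then 1 else 0 :=
  @dual_mod V _ _ q _ (AddCommGroup.zmodModule hV) U ν h

private theorem dual_mul {A : Type*} [CommGroup A] [Finite A] (q : ℕ) [Fact q.Prime]
    (hA : ∀ a : A, a ^ q = 1) (U : Subgroup A) {ν : ℕ} (h : q ^ ν ≤ Nat.card U) :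
    ∃ (b : Fin ν → A) (g : Fin ν → A →* Multiplicative (ZMod q)), (∀ i, b i ∈ U) ∧
      ∀ i j, g i (b j) = Multiplicative.ofAdd (if i = j then 1 else 0) := by
  obtain ⟨b, g, hb, hg⟩ := dual_add (V := Additive A) q
    (fun a => congrArg Additive.ofMul (hA a.toMul)) (Subgroup.toAddSubgroup U) (ν := ν) h
  refine ⟨fun i => (b i).toMul, fun i => AddMonoidHom.toMultiplicativeRight (g i), hb,
    fun i j => ?_⟩
  have h1 := hg i j
  exact congrArg Multiplicative.ofAdd h1

theorem dual_family {G : Type} [Group G] [Finite G] (q : ℕ) [Fact q.Prime] (R D : Subgroup G)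
    (hD : D ≤ R) (ν : ℕ) (h : q ^ ν ≤ (Fr q R).relIndex D) :
    ∃ (w : Fin ν → ↥R) (χ : Fin ν → ↥R →* Multiplicative (ZMod q)),
      (∀ i, (w i : G) ∈ D) ∧
      ∀ i j, χ i (w j) = Multiplicative.ofAdd (if i = j then 1 else 0) := by
  classical
  have hn := fr_normal q R
  let C : CommGroup (↥R ⧸ (Fr q R).subgroupOf R) :=
    { (inferInstance : Group (↥R ⧸ (Fr q R).subgroupOf R)) with
      mul_comm := by
        intro a b
        induction a using QuotientGroup.induction_on with | _ a
        induction b using QuotientGroup.induction_on with | _ b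
        change ((a * b : ↥R) : ↥R ⧸ (Fr q R).subgroupOf R) = ((b * a : ↥R) : _)
        rw [QuotientGroup.eq, mem_subgroupOf]
        have h1 : (((a * b)⁻¹ * (b * a) : ↥R) : G) = ⁅(b : G)⁻¹, (a : G)⁻¹⁆ := by
          rw [commutatorElement_def]
          push_cast
          group
        rw [h1]
        exact comm_mem_fr q (inv_mem b.2) (inv_mem a.2) }
  have hexp : ∀ a : ↥R ⧸ (Fr q R).subgroupOf R, a ^ q = 1 := by
    intro a
    induction a using QuotientGroup.induction_on with | _ a
    change (((a ^ q : ↥R) : ↥R ⧸ (Fr q R).subgroupOf R)) = 1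
    rw [QuotientGroup.eq_one_iff, mem_subgroupOf]
    exact pow_mem_fr q a.2
  let f : ↥D →* ↥R ⧸ (Fr q R).subgroupOf R :=
    (QuotientGroup.mk' ((Fr q R).subgroupOf R)).comp (inclusion hD)
  have hker : f.ker = (Fr q R).subgroupOf D := by
    ext x
    rw [MonoidHom.mem_ker, mem_subgroupOf]
    change ((inclusion hD x : ↥R) : ↥R ⧸ (Fr q R).subgroupOf R) = 1 ↔ _
    rw [QuotientGroup.eq_one_iff, mem_subgroupOf]
    rfl
  have h1 : (Fr q R).relIndex D = Nat.card f.range := by
    rw [← index_ker, hker]
    rfl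
  rw [h1] at h
  obtain ⟨b, g, hb, hg⟩ := @dual_mul _ C _ q _ hexp f.range ν h
  choose w hw using hb
  refine ⟨fun i => inclusion hD (w i), fun i => MonoidHom.comp (g i)
    (QuotientGroup.mk' ((Fr q R).subgroupOf R)), fun i => (w i).2, fun i j => ?_⟩
  have h2 : QuotientGroup.mk' ((Fr q R).subgroupOf R) (inclusion hD (w j)) = b j := hw j
  rw [MonoidHom.comp_apply, h2]
  exact hg i j

end Pool.Agent.Work.MP_b44cb1_al
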