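import Pool.Agent.Work.MP_b44cb1_al.Full.Defs

/-!
# MP_b44cb1_al, block EXT, module ExIdx (M) : indices of Frattini subgroups

PROOF. Work with the homomorphism `f : ↥R → ↥R ⧸ F`, `F = (Fr q R).subgroupOf R` (normal, see ExDual);
for `Q ≤ R`, `(Fr q R).relIndex Q` = the number of elements of the image of `Q` (the kernel of `Q → R/F`
is `Q ⊓ Fr q R`).
`idx_lower`: the homomorphism `Φ = (χ i)_i : R → (Fin k → Multiplicative (ZMod q))` kills `Fr q R` (the target
is commutative of exponent `q`) and maps `Q` onto the whole target (`∏ w i ^ n i ↦ n`), which has `q ^ k`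
elements. So `q ^ k ≤ (Fr q R).relIndex Q` (it factors through the image of `Q` in `R/F`).
`idx_upper`: `R/F` is commutative of exponent `q`; the image of `Q` consists of the
`∏ i, (f (X i)) ^ n i`, `n i : Fin q`, at most `q ^ N` elements.
`idx_same`: `Fr q Q ≤ Q ⊓ Fr q R` (monotonicity of `Fr`), so `Fr q Q = Q ⊓ Fr q R` and
`(Fr q Q).relIndex Q = (Fr q R).relIndex Q`; and `Q`, `Q0` have the same image in `R/F`.
-/

set_option autoImplicit false

namespace Pool.Agent.Work.MP_b44cb1_al

open Subgroup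
open scoped commutatorElement

section aux

variable {G : Type*} [Group G]

private theorem fr_le (q : ℕ) (R : Subgroup G) : Fr q R ≤ R := by
  refine sup_le ?_ ?_
  · rw [commutator_le]
    intro a ha b hb
    exact mul_mem (mul_mem (mul_mem ha hb) (inv_mem ha)) (inv_mem hb)
  · rw [closure_le]
    rintro _ ⟨x, hx, rfl⟩
    exact pow_mem hx q

private theorem fr_mono (q : ℕ) {Q R : Subgroup G} (h : Q ≤ R) : Fr q Q ≤ Fr q R :=
  sup_le_sup (commutator_mono h h) (closure_mono (Set.image_mono h))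

private theorem comm_mem_fr (q : ℕ) {R : Subgroup G} {a b : G} (ha : a ∈ R) (hb : b ∈ R) :
    ⁅a, b⁆ ∈ Fr q R := (le_sup_left : ⁅R, R⁆ ≤ Fr q R) (commutator_mem_commutator ha hb)

private theorem pow_mem_fr (q : ℕ) {R : Subgroup G} {a : G} (ha : a ∈ R) : a ^ q ∈ Fr q R :=
  (le_sup_right : closure ((fun x : G => x ^ q) '' (R : Set G)) ≤ Fr q R)
    (subset_closure ⟨a, ha, rfl⟩)

private theorem fr_normal (q : ℕ) (R : Subgroup G) : ((Fr q R).subgroupOf R).Normal := by
  constructor
  intro n hn g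
  rw [mem_subgroupOf] at *
  have h1 : (g : G) * n * (g : G)⁻¹ = ⁅(g : G), (n : G)⁆ * n := by
    rw [commutatorElement_def]
    group
  change (g : G) * n * (g : G)⁻¹ ∈ Fr q R
  rw [h1]
  exact mul_mem (comm_mem_fr q g.2 n.2) hn

/-- A homomorphism to a commutative group of exponent `q` kills the Frattini subgroup. -/
private theorem fr_kill {q : ℕ} {R : Subgroup G} {A : Type*} [CommGroup A]
    (hA : ∀ a : A, a ^ q = 1) (φ : ↥R →* A) {x : G} (hx : x ∈ Fr q R) (h : x ∈ R) :
    φ ⟨x, h⟩ = 1 := by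
  have key : Fr q R ≤ φ.ker.map R.subtype := by
    refine sup_le ?_ ?_
    · rw [commutator_le]
      intro a ha b hb
      refine ⟨⁅(⟨a, ha⟩ : R), ⟨b, hb⟩⁆, ?_, rfl⟩
      rw [SetLike.mem_coe, MonoidHom.mem_ker, map_commutatorElement,
        commutatorElement_eq_one_iff_mul_comm]
      exact mul_comm _ _
    · rw [closure_le]
      rintro _ ⟨x, hx, rfl⟩
      refine ⟨(⟨x, hx⟩ : R) ^ q, ?_, rfl⟩
      rw [SetLike.mem_coe, MonoidHom.mem_ker, map_pow, hA]
  obtain ⟨y, hy, hyx⟩ := key hx
  have : y = ⟨x, h⟩ := Subtype.ext hyx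
  rw [← this]
  exact hy

end aux

private theorem mz_pow (q : ℕ) (a : Multiplicative (ZMod q)) : a ^ q = 1 := by
  have h : q • a.toAdd = 0 := by
    rw [nsmul_eq_mul, CharP.cast_eq_zero, zero_mul]
  exact Multiplicative.toAdd.injective h

theorem idx_lower {G : Type} [Group G] [Finite G] (q : ℕ) [Fact q.Prime] (R Q : Subgroup G)
    (hQ : Q ≤ R) {k : ℕ} (w : Fin k → ↥R) (χ : Fin k → ↥R →* Multiplicative (ZMod q))
    (hw : ∀ i, (w i : G) ∈ Q)
    (hdual : ∀ i j, χ i (w j) = Multiplicative.ofAdd (if i = j then 1 else 0)) :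
    q ^ k ≤ (Fr q R).relIndex Q := by
  classical
  let Ψ : ↥Q →* (Fin k → Multiplicative (ZMod q)) :=
    (MonoidHom.pi χ).comp (inclusion hQ)
  have hΨ : ∀ x i, Ψ x i = χ i ⟨x, hQ x.2⟩ := fun x i => rfl
  have hker : (Fr q R).subgroupOf Q ≤ Ψ.ker := by
    intro x hx
    rw [mem_subgroupOf] at hx
    rw [MonoidHom.mem_ker]
    funext i
    exact fr_kill (mz_pow q) (χ i) hx (hQ x.2)
  have hsurj : Function.Surjective Ψ := by
    intro n
    refine ⟨(List.ofFn fun j : Fin k => (⟨w j, hw j⟩ : Q) ^ ((n j).toAdd.val)).prod, ?_⟩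
    funext i
    rw [map_list_prod]
    have h1 : (List.map (⇑Ψ) (List.ofFn fun j : Fin k => (⟨w j, hw j⟩ : Q) ^ ((n j).toAdd.val))) =
        List.ofFn fun j : Fin k => Ψ (⟨w j, hw j⟩) ^ ((n j).toAdd.val) := by
      rw [List.map_ofFn]
      congr 1
      funext j
      exact map_pow _ _ _
    rw [h1, List.prod_ofFn, Finset.prod_apply, Finset.prod_eq_single i]
    · rw [Pi.pow_apply, hΨ]
      have h2 : χ i ⟨(⟨w i, hw i⟩ : Q), hQ (hw i)⟩ = Multiplicative.ofAdd (1 : ZMod q) := by
        have := hdual i i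
        rw [if_pos rfl] at this
        exact this
      rw [h2, ← ofAdd_nsmul, nsmul_eq_mul, mul_one, ZMod.natCast_zmod_val]
      rfl
    · intro j _ hji
      rw [Pi.pow_apply, hΨ]
      have h2 : χ i ⟨(⟨w j, hw j⟩ : Q), hQ (hw j)⟩ = Multiplicative.ofAdd (0 : ZMod q) := by
        have := hdual i j
        rw [if_neg (Ne.symm hji)] at this
        exact this
      rw [h2, ofAdd_zero, one_pow]
    · intro h
      exact absurd (Finset.mem_univ i) h
  have h1 : Ψ.ker.index = q ^ k := by
    rw [index_ker, MonoidHom.range_eq_top.2 hsurj, Subgroup.card_top, Nat.card_fun,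
      Nat.card_eq_fintype_card, Fintype.card_multiplicative, ZMod.card]
    simp
  rw [← h1]
  exact index_antitone hker

private theorem card_range_mod {H V : Type*} [Group H] [AddCommGroup V] (q : ℕ)
    [Fact q.Prime] [Module (ZMod q) V] (f : H → V) (hf1 : f 1 = 0)
    (hf : ∀ a b, f (a * b) = f a + f b) {N : ℕ} (X : Fin N → H)
    (hX : closure (Set.range X) = ⊤) : Nat.card (Set.range f) ≤ q ^ N := by
  classical
  let L := Fintype.linearCombination (ZMod q) (fun i => f (X i))
  have hinv : ∀ a, f a⁻¹ = -f a := by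
    intro a
    have := hf a⁻¹ a
    rw [inv_mul_cancel, hf1] at this
    exact eq_neg_of_add_eq_zero_left this.symm
  let S : Subgroup H :=
    { carrier := {a : H | ∃ n, L n = f a}
      one_mem' := ⟨0, by rw [map_zero, hf1]⟩
      mul_mem' := by
        rintro a b ⟨n, hn⟩ ⟨m, hm⟩
        exact ⟨n + m, by rw [map_add, hn, hm, hf]⟩
      inv_mem' := by
        rintro a ⟨n, hn⟩
        exact ⟨-n, by rw [map_neg, hn, hinv]⟩ }
  have htop : (⊤ : Subgroup H) ≤ S := by
    rw [← hX, closure_le]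
    rintro _ ⟨i, rfl⟩
    refine ⟨Pi.single i 1, ?_⟩
    simp [L, Fintype.linearCombination_apply_single]
  have hL : ∀ x, ∃ n, L n = f x := fun x => htop (mem_top x)
  have hfin : Finite (Fin N → ZMod q) := inferInstance
  have h3 : Nat.card (Set.range f) ≤ Nat.card (Set.range L) :=
    Nat.card_mono (Set.finite_range L) (by
      rintro _ ⟨x, rfl⟩
      exact hL x)
  have h4 : Nat.card (Set.range L) ≤ Nat.card (Fin N → ZMod q) :=
    Nat.card_le_card_of_surjective _ Set.rangeFactorization_surjective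
  refine (h3.trans h4).trans (le_of_eq ?_)
  rw [Nat.card_fun, Nat.card_eq_fintype_card, ZMod.card]
  simp

private theorem card_range_add {H V : Type*} [Group H] [AddCommGroup V] (q : ℕ)
    [Fact q.Prime] (hA : ∀ a : V, q • a = 0) (f : H → V) (hf1 : f 1 = 0)
    (hf : ∀ a b, f (a * b) = f a + f b) {N : ℕ} (X : Fin N → H)
    (hX : closure (Set.range X) = ⊤) : Nat.card (Set.range f) ≤ q ^ N :=
  @card_range_mod H V _ _ q _ (AddCommGroup.zmodModule hA) f hf1 hf N X hX

private theorem card_range_le {H A : Type*} [Group H] [CommGroup A] (q : ℕ) [Fact q.Prime]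
    (hA : ∀ a : A, a ^ q = 1) (f : H →* A) {N : ℕ} (X : Fin N → H)
    (hX : closure (Set.range X) = ⊤) : Nat.card f.range ≤ q ^ N := by
  have h := card_range_add (V := Additive A) q
    (fun a => congrArg Additive.ofMul (hA a.toMul)) (fun x => Additive.ofMul (f x))
    (by rw [map_one]; rfl) (fun a b => by rw [map_mul]; rfl) X hX
  exact h

theorem idx_upper {G : Type} [Group G] [Finite G] (q : ℕ) [Fact q.Prime] (R Q : Subgroup G)
    (hQ : Q ≤ R) {N : ℕ} (X : Fin N → G) (hX : Q = closure (Set.range X)) :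
    (Fr q R).relIndex Q ≤ q ^ N := by
  classical
  have hn := fr_normal q R
  let C : CommGroup (↥R ⧸ (Fr q R).subgroupOf R) :=
    { (inferInstance : Group (↥R ⧸ (Fr q R).subgroupOf R)) with
      mul_comm := by
        intro a b
        induction a using QuotientGroup.induction_on with | _ a
        induction b using QuotientGroup.induction_on with | _ b
        change ((a * b : ↥R) : ↥R ⧸ (Fr q R).subgroupOf R) = ((b * a : ↥R) : _)
        rw [QuotientGroup.eq, mem_subgroupOf]
        have h1 : (((a * b)⁻¹ * (b * a) : ↥R) : G) = ⁅(b : G)⁻¹, (a : G)⁻¹⁆ := by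
          rw [commutatorElement_def]
          push_cast
          group
        rw [h1]
        exact comm_mem_fr q (inv_mem b.2) (inv_mem a.2) }
  have hexp : ∀ a : ↥R ⧸ (Fr q R).subgroupOf R, a ^ q = 1 := by
    intro a
    induction a using QuotientGroup.induction_on with | _ a
    change (((a ^ q : ↥R) : ↥R ⧸ (Fr q R).subgroupOf R)) = 1
    rw [QuotientGroup.eq_one_iff, mem_subgroupOf]
    exact pow_mem_fr q a.2
  let f : ↥Q →* ↥R ⧸ (Fr q R).subgroupOf R :=
    (QuotientGroup.mk' ((Fr q R).subgroupOf R)).comp (inclusion hQ)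
  have hker : f.ker = (Fr q R).subgroupOf Q := by
    ext x
    rw [MonoidHom.mem_ker, mem_subgroupOf]
    change ((inclusion hQ x : ↥R) : ↥R ⧸ (Fr q R).subgroupOf R) = 1 ↔ _
    rw [QuotientGroup.eq_one_iff, mem_subgroupOf]
    rfl
  have h1 : (Fr q R).relIndex Q = Nat.card f.range := by
    rw [← index_ker, hker]
    rfl
  rw [h1]
  have hgen : closure (Set.range fun i => (⟨X i, hX ▸ subset_closure ⟨i, rfl⟩⟩ : Q)) = ⊤ := by
    subst hX
    have h2 := closure_closure_coe_preimage (k := Set.range X)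
    rw [← h2]
    congr 1
    ext x
    simp only [Set.mem_range, Set.mem_preimage]
    exact exists_congr fun i => Subtype.ext_iff
  exact @card_range_le Q _ _ C q _ hexp f N _ hgen

theorem idx_same {G : Type} [Group G] [Finite G] (q : ℕ) (R Q Q0 : Subgroup G) (hQ : Q ≤ Q0)
    (hQ0 : Q0 ≤ R) (h1 : Q ⊓ Fr q R ≤ Fr q Q) (h2 : Q0 ≤ Q ⊔ Fr q R) :
    (Fr q Q).relIndex Q = (Fr q R).relIndex Q0 := by
  have hn := fr_normal q R
  have e1 : Fr q Q = Fr q R ⊓ Q :=
    le_antisymm (le_inf (fr_mono q (hQ.trans hQ0)) (fr_le q Q)) (by rwa [inf_comm])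
  rw [e1, inf_relIndex_right]
  have e2 : Q0.subgroupOf R ⊔ (Fr q R).subgroupOf R = Q.subgroupOf R ⊔ (Fr q R).subgroupOf R := by
    rw [← subgroupOf_sup hQ0 (fr_le q R), ← subgroupOf_sup (hQ.trans hQ0) (fr_le q R)]
    congr 1
    exact le_antisymm (sup_le h2 le_sup_right) (sup_le_sup_right hQ _)
  have e3 : ((Fr q R).subgroupOf R).relIndex (Q.subgroupOf R) = (Fr q R).relIndex Q :=
    relIndex_subgroupOf (hQ.trans hQ0)
  have e4 : ((Fr q R).subgroupOf R).relIndex (Q0.subgroupOf R) = (Fr q R).relIndex Q0 :=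
    relIndex_subgroupOf hQ0
  rw [← e3, ← e4, ← relIndex_sup_right, ← e2, relIndex_sup_right]

end Pool.Agent.Work.MP_b44cb1_al
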