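import Pool.Agent.Work.MP_b44cb1_al.Maschke
import Pool.Agent.Work.MP_b44cb1_al.Full.Defs

/-!
# MP_b44cb1_al, block EXT, module ExMin (M) : a minimal invariant subgroup with the same image

PROOF. Among all `Q ≤ Q0` with `Nz B Q` and `Q0 ≤ Q ⊔ Fr q R` (`Q0` is one) choose one of minimal
order (finite). `Q` is a `q`-group. Let `F := Fr q Q` (characteristic: `Nz B F`, `Nz Q F`; `F ≤ Q`) and
`X := (Q ⊓ Fr q R) ⊔ F`; `Nz B X` (`Fr q R` is normalised by `B` as `R` is), `F ≤ X ≤ Q`. CLAIM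
(Maschke): there is `Y`, `F ≤ Y ≤ Q`, `Nz B Y`, `X ⊔ Y = Q`, `X ⊓ Y = F`. Let `L := B ⊔ Q`, `F` is normal
in `L`; in the quotient group `H := ↥L ⧸ F.subgroupOf L` apply `maschke` (file Maschke) to the image of
`Q`, which is elementary abelian, its subgroup the image of `X`, and the image of `B` (no element of `q`-power
order in the image of `B` acts nontrivially: as `q` does not divide `card B`, an element of the image of
`B` of `q`-power order is `1`), and pull back. Then `Q0 ≤ Q ⊔ Fr q R = X ⊔ Y ⊔ Fr q R = Y ⊔ Fr q R`, because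
`X ≤ Fr q R ⊔ F` and `F = Fr q Q ≤ Fr q R` (`Q ≤ R`, monotonicity of `Fr`). By minimality `Y = Q`, so
`X = X ⊓ Y = F`, i.e. `Q ⊓ Fr q R ≤ Fr q Q`.
(`sup` computations: `Fr q R` is normal in `R`, all subgroups involved are in `R`.)
-/

set_option autoImplicit false

namespace Pool.Agent.Work.MP_b44cb1_al

open Subgroup
open scoped commutatorElement

section aux

variable {G : Type*} [Group G]

private theorem fr_le (q : ℕ) (R : Subgroup G) : Fr q R ≤ R := by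
  refine sup_le ?_ ?_
  · rw [commutator_le]
    intro a ha b hb
    exact mul_mem (mul_mem (mul_mem ha hb) (inv_mem ha)) (inv_mem hb)
  · rw [closure_le]
    rintro _ ⟨x, hx, rfl⟩
    exact pow_mem hx q

private theorem fr_mono (q : ℕ) {Q R : Subgroup G} (h : Q ≤ R) : Fr q Q ≤ Fr q R :=
  sup_le_sup (commutator_mono h h) (closure_mono (Set.image_mono h))

private theorem comm_mem_fr (q : ℕ) {R : Subgroup G} {a b : G} (ha : a ∈ R) (hb : b ∈ R) :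
    ⁅a, b⁆ ∈ Fr q R := (le_sup_left : ⁅R, R⁆ ≤ Fr q R) (commutator_mem_commutator ha hb)

private theorem pow_mem_fr (q : ℕ) {R : Subgroup G} {a : G} (ha : a ∈ R) : a ^ q ∈ Fr q R :=
  (le_sup_right : closure ((fun x : G => x ^ q) '' (R : Set G)) ≤ Fr q R)
    (subset_closure ⟨a, ha, rfl⟩)

private theorem nz_pow (q : ℕ) {B R : Subgroup G} (h : Nz B R) :
    Nz B (closure ((fun x : G => x ^ q) '' (R : Set G))) := by
  intro g hg d hd
  have key : closure ((fun x : G => x ^ q) '' (R : Set G)) ≤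
      (closure ((fun x : G => x ^ q) '' (R : Set G))).comap (MulAut.conj g).toMonoidHom := by
    rw [closure_le]
    rintro _ ⟨x, hx, rfl⟩
    change (MulAut.conj g) (x ^ q) ∈ closure ((fun x : G => x ^ q) '' (R : Set G))
    rw [map_pow]
    exact subset_closure ⟨g * x * g⁻¹, h g hg x hx, rfl⟩
  exact key hd

private theorem nz_fr (q : ℕ) {B R : Subgroup G} (h : Nz B R) : Nz B (Fr q R) :=
  (nz_comm h h).sup (nz_pow q h)

/-- Maschke's theorem relative to a normal subgroup `F`. -/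
private theorem maschke_rel [Finite G] {q : ℕ} (hqp : q.Prime) (B Q F X : Subgroup G)
    (hFX : F ≤ X) (hXQ : X ≤ Q) (hBQ : Nz B Q) (hBF : Nz B F) (hQF : Nz Q F) (hBX : Nz B X)
    (hab : ∀ a ∈ Q, ∀ b ∈ Q, ⁅a, b⁆ ∈ F) (hexp : ∀ a ∈ Q, a ^ q ∈ F) (hq : ¬ q ∣ Nat.card B) :
    ∃ Y : Subgroup G, Y ≤ Q ∧ Nz B Y ∧ Q ≤ X ⊔ Y ∧ X ⊓ Y ≤ F := by
  set L : Subgroup G := B ⊔ Q with hL
  have hLF : Nz L F := by
    rw [nz_iff] at *
    exact sup_le hBF hQF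
  have hn : (F.subgroupOf L).Normal := hLF.subgroupOf_normal
  have hQL : Q ≤ L := le_sup_right
  have hBL : B ≤ L := le_sup_left
  have hFQ : F ≤ Q := hFX.trans hXQ
  let f : ↥L →* ↥L ⧸ F.subgroupOf L := QuotientGroup.mk' _
  have hf1 : ∀ x : ↥L, f x = 1 ↔ (x : G) ∈ F := by
    intro x
    change (x : ↥L ⧸ F.subgroupOf L) = 1 ↔ _
    rw [QuotientGroup.eq_one_iff, mem_subgroupOf]
  have hfs : Function.Surjective f := QuotientGroup.mk'_surjective _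
  let bq : Subgroup G → Subgroup (↥L ⧸ F.subgroupOf L) := fun X => (X.subgroupOf L).map f
  have hbq : ∀ X : Subgroup G, ∀ x : ↥L, (x : G) ∈ X → f x ∈ bq X := fun X x hx =>
    ⟨x, hx, rfl⟩
  have hMM : Cz (bq Q) (bq Q) := by
    rintro _ ⟨a, ha, rfl⟩ _ ⟨b, hb, rfl⟩
    rw [← map_mul, ← map_mul, ← mul_inv_eq_one, ← map_inv, ← map_mul, hf1]
    have h1 : ((a * b * (b * a)⁻¹ : ↥L) : G) = ⁅(a : G), (b : G)⁆ := by
      rw [commutatorElement_def]
      push_cast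
      group
    rw [h1]
    exact hab _ ha _ hb
  have hMp : ∀ m ∈ bq Q, m ^ q = 1 := by
    rintro _ ⟨a, ha, rfl⟩
    rw [← map_pow, hf1]
    exact hexp _ ha
  have hM₁ : bq X ≤ bq Q := map_mono (fun x hx => hXQ hx)
  have hnz : ∀ Z : Subgroup G, Nz B Z → Nz (bq B) (bq Z) := by
    rintro Z hZ _ ⟨a, ha, rfl⟩ _ ⟨b, hb, rfl⟩
    rw [← map_inv, ← map_mul, ← map_mul]
    exact hbq Z _ (hZ _ ha _ hb)
  have hpH : ∀ x ∈ bq B, (∃ k : ℕ, x ^ q ^ k = 1) → ∀ m ∈ bq Q, x * m = m * x := by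
    rintro _ ⟨a, ha, rfl⟩ ⟨k, hk⟩ m -
    have h1 : orderOf (f a) ∣ q ^ k := orderOf_dvd_of_pow_eq_one hk
    have h2 : orderOf (f a) ∣ Nat.card B := by
      refine (orderOf_map_dvd f a).trans ?_
      have haB : (a : G) ∈ B := ha
      have h3 : orderOf (⟨(a : G), haB⟩ : B) = orderOf a := by
        rw [Subgroup.orderOf_mk, Subgroup.orderOf_coe]
      rw [← h3]
      exact orderOf_dvd_natCard _
    have h3 : Nat.Coprime (q ^ k) (Nat.card B) :=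
      Nat.Coprime.pow_left k ((Nat.Prime.coprime_iff_not_dvd hqp).2 hq)
    have h4 : orderOf (f a) = 1 := Nat.eq_one_of_dvd_coprimes h3 h1 h2
    rw [orderOf_eq_one_iff] at h4
    rw [h4, one_mul, mul_one]
  obtain ⟨M₂, hM₂, hBM₂, hinf, hsup⟩ := maschke hqp (bq B) (bq Q) (bq X) hMM hMp hM₁
    (hnz Q hBQ) (hnz X hBX) hpH
  have hpull : ∀ X : Subgroup G, X ≤ Q → ∀ x : ↥L, f x ∈ bq X → (x : G) ∈ X ⊔ F := by
    rintro X hX x ⟨y, hy, hyx⟩
    have h1 : f (y⁻¹ * x) = 1 := by rw [map_mul, map_inv, hyx, inv_mul_cancel]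
    rw [hf1] at h1
    have h2 : (x : G) = y * ((y⁻¹ * x : ↥L) : G) := by
      push_cast
      group
    rw [h2]
    exact mul_mem (le_sup_left (a := X) hy) (le_sup_right (b := F) h1)
  refine ⟨(M₂.comap f).map L.subtype, ?_, ?_, ?_, ?_⟩
  · rintro _ ⟨y, hy, rfl⟩
    have h1 := hpull Q le_rfl y (hM₂ hy)
    rwa [sup_eq_left.2 hFQ] at h1
  · rintro g hg _ ⟨y, hy, rfl⟩
    refine ⟨⟨g, hBL hg⟩ * y * ⟨g, hBL hg⟩⁻¹, ?_, rfl⟩
    change f _ ∈ M₂
    rw [map_mul, map_mul, map_inv]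
    exact hBM₂ _ (hbq B ⟨g, hBL hg⟩ hg) _ hy
  · intro x hx
    have h1 : f ⟨x, hQL hx⟩ ∈ bq X ⊔ M₂ := by
      rw [hsup]
      exact hbq Q ⟨x, hQL hx⟩ hx
    have h2 : (⟨x, hQL hx⟩ : ↥L) ∈ (bq X).comap f ⊔ M₂.comap f := by
      rw [comap_sup_eq f _ _ hfs]
      exact h1
    have h3 : x ∈ ((bq X).comap f ⊔ M₂.comap f).map L.subtype := ⟨_, h2, rfl⟩
    rw [Subgroup.map_sup] at h3
    have h5 : ((bq X).comap f).map L.subtype ≤ X := by
      rintro _ ⟨y, hy, rfl⟩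
      have h4 := hpull X hXQ y hy
      rwa [sup_eq_left.2 hFX] at h4
    exact (sup_le (h5.trans le_sup_left) le_sup_right :
      ((bq X).comap f).map L.subtype ⊔ (M₂.comap f).map L.subtype ≤
        X ⊔ (M₂.comap f).map L.subtype) h3
  · rintro x ⟨hxX, y, hy, rfl⟩
    have h1 : f y ∈ bq X ⊓ M₂ := ⟨hbq X y hxX, hy⟩
    rw [hinf, mem_bot, hf1] at h1
    exact h1

end aux

theorem min_sub {G : Type} [Group G] [Finite G] (q : ℕ) [Fact q.Prime] (R B Q0 : Subgroup G)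
    (hR : IsPGroup q R) (hQ0 : Q0 ≤ R) (hBR : Nz B R) (hBQ : Nz B Q0)
    (hq : ¬ q ∣ Nat.card B) :
    ∃ Q : Subgroup G, Q ≤ Q0 ∧ Nz B Q ∧ Q ⊓ Fr q R ≤ Fr q Q ∧ Q0 ≤ Q ⊔ Fr q R := by
  classical
  let P : Set (Subgroup G) := {Q | Q ≤ Q0 ∧ Nz B Q ∧ Q0 ≤ Q ⊔ Fr q R}
  have hP : P.Nonempty := ⟨Q0, le_rfl, hBQ, le_sup_left⟩
  obtain ⟨Q, hQ⟩ := (Set.toFinite P).exists_minimal hP
  obtain ⟨hQQ0, hBQ', hcov⟩ := hQ.prop
  have hQR : Q ≤ R := hQQ0.trans hQ0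
  have hfm : Fr q Q ≤ Fr q R := fr_mono q hQR
  obtain ⟨Y, hYQ, hBY, hXY, hinf⟩ := maschke_rel (q := q) Fact.out B Q (Fr q Q)
    ((Q ⊓ Fr q R) ⊔ Fr q Q) le_sup_right (sup_le inf_le_left (fr_le q Q)) hBQ' (nz_fr q hBQ')
    (nz_fr q (nz_self Q)) ((hBQ'.inf (nz_fr q hBR)).sup (nz_fr q hBQ'))
    (fun a ha b hb => comm_mem_fr q ha hb) (fun a ha => pow_mem_fr q ha) hq
  have hYP : Y ∈ P := by
    refine ⟨hYQ.trans hQQ0, hBY, hcov.trans ?_⟩
    refine sup_le (hXY.trans (sup_le ?_ le_sup_left)) le_sup_right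
    exact (sup_le inf_le_right hfm).trans le_sup_right
  have hQY : Q ≤ Y := hQ.le_of_le hYP hYQ
  refine ⟨Q, hQQ0, hBQ', ?_, hcov⟩
  intro x hx
  exact hinf ⟨(le_sup_left : Q ⊓ Fr q R ≤ _) hx, hQY hx.1⟩

end Pool.Agent.Work.MP_b44cb1_al
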