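import Pool.Agent.Work.MP_b44cb1_al.Full.Ext.Choice
import Pool.Agent.Work.MP_b44cb1_al.Full.Ext.ChCyc
import Pool.Agent.Work.MP_b44cb1_al.Full.Ext.ExDual
import Pool.Agent.Work.MP_b44cb1_al.Full.Ext.ExMin
import Pool.Agent.Work.MP_b44cb1_al.Full.Ext.ExIdx

/-!
# MP_b44cb1_al, block EXT, module ExStep (M-L) : the new layer of the section

PROOF. `C := R ⊓ centralizer N`, `B` normalises `C` (`Nz B N`, `Nz B R`). `dual_family` gives `w i ∈ D ≤ C`
and `χ i` on `R`; let `χ^C i` be the restriction of `χ i` to `C`. Let `h := N.relIndex B` and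
`T : Fin h → B` a left transversal of `N` in `B` (every `b ∈ B` is `T g * n`, `n ∈ N`;
`Subgroup.relIndex` = `(N.subgroupOf B).index`, use `Quotient.out` and `Finite.equivFin`), `T g ∈ B`.
`σ g : ↥C →* ↥C`, `x ↦ T g x (T g)⁻¹`. Enumerate `S` as `Fin K → _`, `K = S.card` (`Finset.equivFin`), take
`(s.1).subgroupOf C` and the characters of `cyc_char` (restricted). `lcs ⊤ c0 = ⊥` in `↥C` (`lcs_map`,
`lcs_mono`), `C` is a `q`-group. `choice` (with `P := ↥C`) gives `w'`, `χ'`.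
`Q0 := (TA σ w').map C.subtype`, generated by the elements `T g w' i (T g)⁻¹`.
* `Nz B Q0`: for `b ∈ B`, `b T g = T g' n` with `n ∈ N` (`N` is normal in `B`), and `n` commutes with `w' i`,
  so `b (T g w' i (T g)⁻¹) b⁻¹ = T g' w' i (T g')⁻¹ ∈ Q0`. In particular `w' i ∈ Q0` (conjugate by
  `(T g)⁻¹`; `h ≥ 1`).
* `Q0 ≤ D`: `w' i ∈ closure (range w) ≤ D` and `Nz B D`.
`min_sub` gives `Q ≤ Q0`. By `idx_same` `(Fr q Q).relIndex Q = (Fr q R).relIndex Q0`. Lower bound
`idx_lower` for `Q0`: the `w' i ∈ Q0` and functionals on `R` which restrict to `χ' i`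
(`χ' i ∈ closure (range χ^C)` = image of `closure (range χ)` under restriction). Upper bound `idx_upper`
with `N = k * h` generators (`Fin h × Fin k ≃ Fin (k * h)`). Conditions: `x ∈ Q ⊓ s.1` is in `Q0 ≤ C`, comes
from an element of `TA σ w'` in `(s.1).subgroupOf C`, so its character value is `1`, i.e. `x ∈ s.2`.
-/

set_option autoImplicit false

namespace Pool.Agent.Work.MP_b44cb1_al

open Subgroup

private theorem nz_cent_aux {G : Type} [Group G] {L P : Subgroup G} (h : Nz L P) :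
    Nz L (centralizer (P : Set G)) := by
  intro g hg d hd
  rw [mem_centralizer_iff] at *
  intro x hx
  have h1 := h g⁻¹ (inv_mem hg) x hx
  have h2 := hd _ h1
  simp only [inv_inv] at h2
  calc x * (g * d * g⁻¹) = g * (g⁻¹ * x * g * d) * g⁻¹ := by group
    _ = g * (d * (g⁻¹ * x * g)) * g⁻¹ := by rw [h2]
    _ = g * d * g⁻¹ * x := by group

private theorem nz_closure_aux {G : Type} [Group G] {L : Subgroup G} {s : Set G}
    (h : ∀ g ∈ L, ∀ x ∈ s, g * x * g⁻¹ ∈ closure s) : Nz L (closure s) := by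
  intro g hg d hd
  induction hd using closure_induction with
  | mem x hx => exact h g hg x hx
  | one => simp
  | mul x y _ _ hx hy =>
    have : g * (x * y) * g⁻¹ = (g * x * g⁻¹) * (g * y * g⁻¹) := by group
    rw [this]; exact mul_mem hx hy
  | inv x _ hx =>
    have : g * x⁻¹ * g⁻¹ = (g * x * g⁻¹)⁻¹ := by group
    rw [this]; exact inv_mem hx

theorem ex_step (q c0 : ℕ) [Fact q.Prime] (hc : c0 < q) {G : Type} [Group G] [Finite G]
    (R B N D : Subgroup G) (hR : IsPGroup q R) (hcl : lcs R c0 = ⊥) (hNB : N ≤ B)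
    (hN : Nz B N) (hBR : Nz B R) (hq : ¬ q ∣ Nat.card B)
    (hDC : D ≤ R ⊓ centralizer (N : Set G)) (hBD : Nz B D)
    (S : Finset (Subgroup G × Subgroup G)) (hS : ∀ s ∈ S, CycP s) (k ν : ℕ)
    (hν : q ^ ν ≤ (Fr q R).relIndex D) (hnum : NCH c0 S.card (N.relIndex B) k ≤ ν) :
    ∃ Q : Subgroup G, Q ≤ D ∧ Nz B Q ∧ Q ⊓ Fr q R ≤ Fr q Q ∧
      q ^ k ≤ (Fr q Q).relIndex Q ∧ (Fr q Q).relIndex Q ≤ q ^ (k * N.relIndex B) ∧
      ∀ s ∈ S, Q ⊓ s.1 ≤ s.2 := by
  classical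
  set C : Subgroup G := R ⊓ centralizer (N : Set G) with hC
  have hBC : Nz B C := hBR.inf (nz_cent_aux hN)
  have hCR : C ≤ R := inf_le_left
  have hDR : D ≤ R := hDC.trans hCR
  obtain ⟨w, χ, hw, hdual⟩ := dual_family q R D hDR ν hν
  -- the transversal
  obtain ⟨T, hT⟩ : ∃ T : Fin (N.relIndex B) → ↥B, ∀ b : ↥B, ∃ g, ∃ n ∈ N, (b : G) = T g * n := by
    let eqv : Fin (N.relIndex B) ≃ (↥B ⧸ N.subgroupOf B) :=
      (Finite.equivFinOfCardEq (n := N.relIndex B) (α := ↥B ⧸ N.subgroupOf B) rfl).symm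
    refine ⟨fun g => (eqv g).out, fun b => ⟨eqv.symm (b : ↥B ⧸ N.subgroupOf B), ?_⟩⟩
    obtain ⟨m, hm⟩ := QuotientGroup.mk_out_eq_mul (N.subgroupOf B) b
    refine ⟨((m : ↥B) : G)⁻¹, inv_mem (mem_subgroupOf.1 m.2), ?_⟩
    show (b : G) = ((eqv (eqv.symm (b : ↥B ⧸ N.subgroupOf B))).out : ↥B) * ((m : ↥B) : G)⁻¹
    rw [Equiv.apply_symm_apply, hm]
    simp
  have hT0 : ∃ g : Fin (N.relIndex B), True := by
    obtain ⟨g, -⟩ := hT 1
    exact ⟨g, trivial⟩
  let σ : Fin (N.relIndex B) → ↥C →* ↥C := fun g =>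
    { toFun := fun x => ⟨(T g : G) * x * (T g : G)⁻¹, hBC _ (T g).2 x x.2⟩
      map_one' := by
        apply Subtype.ext
        simp
      map_mul' := by
        intro x y
        apply Subtype.ext
        simp }
  have hσ : ∀ g x, ((σ g x : ↥C) : G) = (T g : G) * x * (T g : G)⁻¹ := fun g x => rfl
  -- the characters
  choose lamG hlamG using fun s : Fin S.card =>
    cyc_char (S.equivFin.symm s).1 (hS _ (S.equivFin.symm s).2)
  let SS : Fin S.card → Subgroup ↥C := fun s => ((S.equivFin.symm s).1.1).subgroupOf C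
  let lamC : ∀ s, ↥(SS s) →* Multiplicative (AddCircle (1 : ℚ)) := fun s =>
    (lamG s).comp
      { toFun := fun x => ⟨((x : ↥C) : G), mem_subgroupOf.1 x.2⟩
        map_one' := rfl
        map_mul' := fun _ _ => rfl }
  -- vectors and functionals on `C`
  let wC : Fin ν → ↥C := fun i => ⟨(w i : G), hDC (hw i)⟩
  let res : (↥R →* Multiplicative (ZMod q)) →* (↥C →* Multiplicative (ZMod q)) :=
    MonoidHom.compHom' (Subgroup.inclusion hCR)
  have hres : ∀ f x, res f x = f (Subgroup.inclusion hCR x) := fun f x => rfl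
  let χC : Fin ν → ↥C →* Multiplicative (ZMod q) := fun i => res (χ i)
  have hdualC : ∀ i j, χC i (wC j) = Multiplicative.ofAdd (if i = j then 1 else 0) := by
    intro i j
    exact hdual i j
  have hclC : lcs (⊤ : Subgroup ↥C) c0 = ⊥ := by
    rw [← Subgroup.map_eq_bot_iff_of_injective _ C.subtype_injective, ← lcs_map]
    have h1 : (⊤ : Subgroup ↥C).map C.subtype = C := by
      rw [← MonoidHom.range_eq_map, Subgroup.range_subtype]
    rw [h1, eq_bot_iff, ← hcl]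
    exact lcs_mono hCR c0
  have hPC : IsPGroup q ↥C := hR.to_le hCR
  obtain ⟨w', χ', hw', hχ', hdual', htriv'⟩ := choice q hPC c0 hc hclC (N.relIndex B) S.card k ν σ
    SS lamC wC χC hdualC hnum
  -- the subgroup `Q0`
  let gen : Fin (N.relIndex B) × Fin k → G := fun x => (T x.1 : G) * (w' x.2 : G) * (T x.1 : G)⁻¹
  have hQ0 : (TA σ w').map C.subtype = closure (Set.range gen) := by
    rw [TA, MonoidHom.map_closure, ← Set.range_comp]
    rfl
  set Q0 : Subgroup G := (TA σ w').map C.subtype with hQ0def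
  have hgenQ : ∀ x, gen x ∈ Q0 := fun x => by
    rw [hQ0]
    exact Subgroup.subset_closure (Set.mem_range_self x)
  have hBQ0 : Nz B Q0 := by
    rw [hQ0]
    apply nz_closure_aux
    rintro b hb _ ⟨⟨g, i⟩, rfl⟩
    obtain ⟨g', n, hn, hbn⟩ := hT (⟨b, hb⟩ * T g)
    have hbn' : b * (T g : G) = T g' * n := hbn
    have hcm : n * (w' i : G) = (w' i : G) * n := (mem_centralizer_iff.1 (w' i).2.2) n hn
    have e : b * gen (g, i) * b⁻¹ = gen (g', i) := by
      show b * ((T g : G) * (w' i : G) * (T g : G)⁻¹) * b⁻¹ = (T g' : G) * (w' i : G) *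
        (T g' : G)⁻¹
      calc b * ((T g : G) * (w' i : G) * (T g : G)⁻¹) * b⁻¹
          = (b * (T g : G)) * (w' i : G) * (b * (T g : G))⁻¹ := by group
        _ = (T g' * n) * (w' i : G) * (T g' * n)⁻¹ := by rw [hbn']
        _ = T g' * (n * (w' i : G)) * n⁻¹ * (T g' : G)⁻¹ := by group
        _ = T g' * ((w' i : G) * n) * n⁻¹ * (T g' : G)⁻¹ := by rw [hcm]
        _ = (T g' : G) * (w' i : G) * (T g' : G)⁻¹ := by group
    rw [e]
    exact Subgroup.subset_closure (Set.mem_range_self _)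
  have hw'Q : ∀ i, (w' i : G) ∈ Q0 := by
    intro i
    obtain ⟨g, -⟩ := hT0
    have h1 := hBQ0 _ (inv_mem (T g).2) _ (hgenQ (g, i))
    have e : (T g : G)⁻¹ * gen (g, i) * ((T g : G)⁻¹)⁻¹ = (w' i : G) := by
      show (T g : G)⁻¹ * ((T g : G) * (w' i : G) * (T g : G)⁻¹) * ((T g : G)⁻¹)⁻¹ = _
      group
    rwa [e] at h1
  have hw'D : ∀ i, (w' i : G) ∈ D := by
    intro i
    have h1 : closure (Set.range wC) ≤ D.subgroupOf C := by
      rw [closure_le]
      rintro _ ⟨x, rfl⟩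
      exact mem_subgroupOf.2 (hw x)
    exact mem_subgroupOf.1 (h1 (hw' i))
  have hQ0D : Q0 ≤ D := by
    rw [hQ0, closure_le]
    rintro _ ⟨x, rfl⟩
    exact hBD _ (T x.1).2 _ (hw'D x.2)
  have hQ0R : Q0 ≤ R := hQ0D.trans hDR
  obtain ⟨Q, hQQ0, hBQ, hQF, hQ0Q⟩ := min_sub q R B Q0 hR hQ0R hBR hBQ0 hq
  have hidx := idx_same q R Q Q0 hQQ0 hQ0R hQF hQ0Q
  refine ⟨Q, hQQ0.trans hQ0D, hBQ, hQF, ?_, ?_, ?_⟩
  · rw [hidx]
    have hrange : closure (Set.range χC) ≤ res.range := by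
      rw [closure_le]
      rintro _ ⟨i, rfl⟩
      exact ⟨χ i, rfl⟩
    choose χR hχR using fun i => hrange (hχ' i)
    refine idx_lower q R Q0 hQ0R (fun i => ⟨(w' i : G), hCR (w' i).2⟩) χR hw'Q ?_
    intro i j
    rw [← hdual' i j, ← hχR i]
    rfl
  · rw [hidx]
    let ee : Fin (k * N.relIndex B) ≃ Fin (N.relIndex B) × Fin k :=
      (finCongr (mul_comm k (N.relIndex B))).trans finProdFinEquiv.symm
    refine idx_upper q R Q0 hQ0R (fun i => gen (ee i)) ?_
    rw [hQ0]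
    congr 1
    exact (ee.surjective.range_comp gen).symm
  · rintro s hs x ⟨hxQ, hxs⟩
    obtain ⟨y, hy, hyx⟩ := hQQ0 hxQ
    have hyx' : (y : G) = x := hyx
    have hst : (S.equivFin.symm (S.equivFin ⟨s, hs⟩)).1 = s := by
      rw [Equiv.symm_apply_apply]
    have hyS : y ∈ SS (S.equivFin ⟨s, hs⟩) := by
      rw [mem_subgroupOf, hst, hyx']
      exact hxs
    have h1 := htriv' (S.equivFin ⟨s, hs⟩) ⟨y, hyS⟩ hy
    have h2 : lamG (S.equivFin ⟨s, hs⟩) ⟨(y : G), mem_subgroupOf.1 hyS⟩ = 1 := h1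
    have h3 : (y : G) ∈ (S.equivFin.symm (S.equivFin ⟨s, hs⟩)).1.2 := (hlamG _ _).1 h2
    rw [hst] at h3
    rw [← hyx']
    exact h3

end Pool.Agent.Work.MP_b44cb1_al
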