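import Pool.Agent.Work.MP_b44cb1_al.Full.Ext.BrDefs

/-!
# MP_b44cb1_al, block EXT, module NumMono (S, Mathlib only) : monotonicity

PROOF. `NB c R` is monotone in `R` (induction on `c`; `R ↦ D ^ R`, `R ↦ R * (D ^ R) ^ (c+1)` are
monotone, `D ≥ 1`), so `NI c R k` is monotone in `R` and `k`, so `NCH n K h k` is monotone in all three
arguments (induction on `n`).
-/

set_option autoImplicit false

namespace Pool.Agent.Work.MP_b44cb1_al

theorem nb_mono (c : ℕ) {R R' : ℕ} (h : R ≤ R') : NB c R ≤ NB c R' := by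
  induction c generalizing R R' with
  | zero => exact le_rfl
  | succ c ih =>
    show NB c (R * (((c + 1) ^ 2 + 1) ^ R) ^ (c + 1)) + ((c + 1) ^ 2 + 1) ^ R ≤
      NB c (R' * (((c + 1) ^ 2 + 1) ^ R') ^ (c + 1)) + ((c + 1) ^ 2 + 1) ^ R'
    have h1 : ((c + 1) ^ 2 + 1) ^ R ≤ ((c + 1) ^ 2 + 1) ^ R' :=
      Nat.pow_le_pow_right (by positivity) h
    exact Nat.add_le_add (ih (Nat.mul_le_mul h (Nat.pow_le_pow_left h1 _))) h1

theorem nch_mono (n : ℕ) {K K' h h' k k' : ℕ} (hK : K ≤ K') (hh : h ≤ h') (hk : k ≤ k') :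
    NCH n K h k ≤ NCH n K' h' k' := by
  induction n with
  | zero => exact hk
  | succ n ih =>
    show NB (n + 1) (K * h ^ (n + 1) * (NCH n K h k) ^ (n + 1)) + NCH n K h k ≤
      NB (n + 1) (K' * h' ^ (n + 1) * (NCH n K' h' k') ^ (n + 1)) + NCH n K' h' k'
    refine Nat.add_le_add (nb_mono _ ?_) ih
    exact Nat.mul_le_mul (Nat.mul_le_mul hK (Nat.pow_le_pow_left hh _)) (Nat.pow_le_pow_left ih _)

end Pool.Agent.Work.MP_b44cb1_al
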