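import Pool.Agent.Work.MP_b44cb1_al.Full.Defs
import Pool.Agent.Work.MP_b44cb1_al.Full.Ext.NumMono

/-!
# MP_b44cb1_al, block EXT, module NumBound (M, arithmetic) : iterated exponentials

PROOF. Facts on `tow`: monotone in `x`; `tow (a + b) x = tow a (tow b x)`; `x + d ≤ tow d x`
(`y + 1 ≤ 2 ^ y`), so `tow d x ≤ tow d' x` for `d ≤ d'`. Calculus: if `A, B ≤ tow d z` then
`A + B ≤ tow (d+1) z` (`2 u ≤ 2 ^ u` for `u ≥ 1`, and `u = 0` is trivial), `A * B ≤ tow (d+2) z`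
(`u * u ≤ 2 ^ (2 u) ≤ 2 ^ (2 ^ u)` for `u ≥ 1`), `A ^ B ≤ tow (d+3) z` (`u ^ u ≤ 2 ^ (u * u)`); a constant
`C` is `≤ tow C z`; and if `A ≤ tow d z`, then `tow e A ≤ tow (e+d) z`.
(1) for every `c` there is `d` with `NB c R ≤ tow d R` for all `R`: induction on `c` with the calculus
(`NB (c+1) R = NB c (R * (D ^ R) ^ (c+1)) + D ^ R`, `D` a constant).
(2) for every `c` there is `d` with `NI c R k ≤ tow d (R + k)`.
(3) for every `n` there is `d` with `NCH n K h k ≤ tow d (K + h + k)`: induction on `n`.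
(4) Let `d` be the number of (3) for `n = c0`. For `t = d + e`:
`NCH c0 (m * (t+6)) (a^2) (a^2) ≤ tow d (m * (d+e+6) + 2 a^2)`, and this is `≤ tow (d+e) a` as soon as
`m * (d+e+6) + 2 a^2 ≤ tow e a`. For `e ≥ 1`: `tow e a = 2 ^ tow (e-1) a ≥ 2 ^ (a + e - 1)
= 2 ^ a * 2 ^ (e-1)`; `2 a^2 ≤ 4 * 2 ^ a` and `m * (d+e+6) ≤ 2 ^ (e-2)`, `4 ≤ 2 ^ (e-2)` for large `e`. Also
`2 a^4 < tow t a` for `t ≥ 4`, `a ≥ 1` (`a ≤ 2 ^ (a-1)`, so `2 a^4 ≤ 2 ^ (4 a - 3)`).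
-/

set_option autoImplicit false

namespace Pool.Agent.Work.MP_b44cb1_al

private theorem nb_tow_mono (d : ℕ) {x y : ℕ} (h : x ≤ y) : tow d x ≤ tow d y := by
  induction d with
  | zero => exact h
  | succ d ih => exact Nat.pow_le_pow_right (by norm_num) ih

private theorem nb_tow_add (a b x : ℕ) : tow (a + b) x = tow a (tow b x) := by
  induction a with
  | zero => rw [Nat.zero_add]; rfl
  | succ a ih =>
    rw [Nat.succ_add]
    show 2 ^ tow (a + b) x = 2 ^ tow a (tow b x)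
    rw [ih]

private theorem nb_add_le (d x : ℕ) : x + d ≤ tow d x := by
  induction d with
  | zero => exact le_rfl
  | succ d ih =>
    show x + (d + 1) ≤ 2 ^ tow d x
    have h1 : tow d x < 2 ^ tow d x := Nat.lt_two_pow_self
    omega

private theorem nb_tow_le {d d' : ℕ} (h : d ≤ d') (x : ℕ) : tow d x ≤ tow d' x := by
  obtain ⟨e, rfl⟩ := Nat.exists_eq_add_of_le h
  rw [Nat.add_comm, nb_tow_add]
  exact (Nat.le_add_right _ _).trans (nb_add_le e _)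

/-- `f` is bounded by an iterated exponential of `z` -/
private def Dm {α : Type} (z f : α → ℕ) : Prop := ∃ d, ∀ x, f x ≤ tow d (z x)

private theorem Dm.self {α : Type} (z : α → ℕ) : Dm z z := ⟨0, fun _ => le_rfl⟩

private theorem Dm.of_le {α : Type} {z f g : α → ℕ} (h : Dm z g) (hf : ∀ x, f x ≤ g x) : Dm z f := by
  obtain ⟨d, hd⟩ := h
  exact ⟨d, fun x => (hf x).trans (hd x)⟩

private theorem Dm.const {α : Type} (z : α → ℕ) (C : ℕ) : Dm z (fun _ => C) :=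
  ⟨C, fun x => (Nat.le_add_left C (z x)).trans (nb_add_le C (z x))⟩

private theorem Dm.comp {α : Type} {z f : α → ℕ} (h : Dm z f) {g : ℕ → ℕ} (hg : Dm id g) :
    Dm z (fun x => g (f x)) := by
  obtain ⟨d, hd⟩ := h
  obtain ⟨e, he⟩ := hg
  refine ⟨e + d, fun x => ?_⟩
  rw [nb_tow_add]
  exact (he (f x)).trans (nb_tow_mono e (hd x))

private theorem Dm.common {α : Type} {z f g : α → ℕ} (hf : Dm z f) (hg : Dm z g) :
    ∃ d, ∀ x, f x ≤ tow d (z x) ∧ g x ≤ tow d (z x) := by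
  obtain ⟨d, hd⟩ := hf
  obtain ⟨e, he⟩ := hg
  exact ⟨max d e, fun x => ⟨(hd x).trans (nb_tow_le (le_max_left _ _) _),
    (he x).trans (nb_tow_le (le_max_right _ _) _)⟩⟩

private theorem nb_two_mul (u : ℕ) : 2 * u ≤ 2 ^ u := by
  induction u with
  | zero => norm_num
  | succ u ih =>
    rw [pow_succ]
    rcases Nat.eq_zero_or_pos u with rfl | hu
    · norm_num
    · have : 2 ≤ 2 ^ u := by
        calc 2 = 2 ^ 1 := rfl
          _ ≤ 2 ^ u := Nat.pow_le_pow_right (by norm_num) hu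
      omega

private theorem Dm.add {α : Type} {z f g : α → ℕ} (hf : Dm z f) (hg : Dm z g) :
    Dm z (fun x => f x + g x) := by
  obtain ⟨d, hd⟩ := hf.common hg
  refine ⟨d + 1, fun x => ?_⟩
  show f x + g x ≤ 2 ^ tow d (z x)
  have h1 := hd x
  have h2 := nb_two_mul (tow d (z x))
  omega

private theorem Dm.mul {α : Type} {z f g : α → ℕ} (hf : Dm z f) (hg : Dm z g) :
    Dm z (fun x => f x * g x) := by
  obtain ⟨d, hd⟩ := hf.common hg
  refine ⟨d + 2, fun x => ?_⟩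
  show f x * g x ≤ 2 ^ 2 ^ tow d (z x)
  obtain ⟨h1, h2⟩ := hd x
  generalize tow d (z x) = u at h1 h2
  calc f x * g x ≤ u * u := Nat.mul_le_mul h1 h2
    _ ≤ 2 ^ u * 2 ^ u := Nat.mul_le_mul Nat.lt_two_pow_self.le Nat.lt_two_pow_self.le
    _ = 2 ^ (2 * u) := by rw [two_mul, pow_add]
    _ ≤ 2 ^ 2 ^ u := Nat.pow_le_pow_right (by norm_num) (nb_two_mul u)

private theorem Dm.pow {α : Type} {z f g : α → ℕ} (hf : Dm z f) (hg : Dm z g) :
    Dm z (fun x => f x ^ g x) := by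
  obtain ⟨d, hd⟩ := hf.mul hg
  refine ⟨d + 1, fun x => ?_⟩
  show f x ^ g x ≤ 2 ^ tow d (z x)
  have h1 : f x ≤ 2 ^ f x := Nat.lt_two_pow_self.le
  calc f x ^ g x ≤ (2 ^ f x) ^ g x := Nat.pow_le_pow_left h1 _
    _ = 2 ^ (f x * g x) := by rw [← pow_mul]
    _ ≤ 2 ^ tow d (z x) := Nat.pow_le_pow_right (by norm_num) (hd x)

private theorem nb_NB (c : ℕ) : Dm id (NB c) := by
  induction c with
  | zero => exact Dm.const _ 1
  | succ c ih =>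
    have h1 : Dm id (fun R : ℕ => ((c + 1) ^ 2 + 1) ^ R) := (Dm.const _ _).pow (Dm.self _)
    have h2 : Dm id (fun R : ℕ => R * (((c + 1) ^ 2 + 1) ^ R) ^ (c + 1)) :=
      (Dm.self _).mul (h1.pow (Dm.const _ _))
    exact (h2.comp ih).add h1

private theorem nb_NCH (n : ℕ) : Dm (fun x : ℕ × ℕ × ℕ => x.1 + x.2.1 + x.2.2)
    (fun x => NCH n x.1 x.2.1 x.2.2) := by
  have hK : Dm (fun x : ℕ × ℕ × ℕ => x.1 + x.2.1 + x.2.2) (fun x => x.1) :=
    (Dm.self _).of_le (fun x => by omega)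
  have hh : Dm (fun x : ℕ × ℕ × ℕ => x.1 + x.2.1 + x.2.2) (fun x => x.2.1) :=
    (Dm.self _).of_le (fun x => by omega)
  have hk : Dm (fun x : ℕ × ℕ × ℕ => x.1 + x.2.1 + x.2.2) (fun x => x.2.2) :=
    (Dm.self _).of_le (fun x => by omega)
  induction n with
  | zero => exact hk
  | succ n ih =>
    have h1 : Dm (fun x : ℕ × ℕ × ℕ => x.1 + x.2.1 + x.2.2)
        (fun x => x.1 * x.2.1 ^ (n + 1) * (NCH n x.1 x.2.1 x.2.2) ^ (n + 1)) :=
      (hK.mul (hh.pow (Dm.const _ _))).mul (ih.pow (Dm.const _ _))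
    exact (h1.comp (nb_NB (n + 1))).add ih

private theorem nb_sq (a : ℕ) : 2 * a ^ 2 ≤ 4 * 2 ^ a := by
  have h : ∀ a : ℕ, a ^ 2 ≤ 2 * 2 ^ a ∧ 2 * a + 1 ≤ 2 * 2 ^ a := by
    intro a
    induction a with
    | zero => norm_num
    | succ a ih =>
      obtain ⟨h1, h2⟩ := ih
      rw [pow_succ 2 a]
      have h3 : (a + 1) ^ 2 = a ^ 2 + (2 * a + 1) := by ring
      have h4 : 1 ≤ 2 ^ a := Nat.one_le_two_pow
      constructor
      · rw [h3]
        omega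
      · omega
  have := (h a).1
  omega

private theorem nb_choose (m d : ℕ) : ∃ q, 2 ≤ q ∧ m * (d + q + 8) ≤ 2 ^ q := by
  obtain ⟨x, hx⟩ : ∃ x, x = m + d + 8 := ⟨_, rfl⟩
  refine ⟨3 * x, by omega, ?_⟩
  have h1 : x + 1 ≤ 2 ^ x := Nat.lt_two_pow_self
  have h2 : (x + 1) ^ 3 ≤ 2 ^ (3 * x) := by
    calc (x + 1) ^ 3 ≤ (2 ^ x) ^ 3 := Nat.pow_le_pow_left h1 3
      _ = 2 ^ (3 * x) := by rw [← pow_mul, mul_comm]
  refine le_trans ?_ h2
  have h3 : m * (d + 3 * x + 8) ≤ x * (4 * x) := Nat.mul_le_mul (by omega) (by omega)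
  refine h3.trans ?_
  have h4 : x ≤ x * x := Nat.le_mul_self x
  have h5 : x * x ≤ x * (x * x) := Nat.mul_le_mul_left x h4
  have h6 : (x + 1) ^ 3 = x * (x * x) + 3 * (x * x) + 3 * x + 1 := by ring
  have h7 : x * (4 * x) = 4 * (x * x) := by ring
  linarith

private theorem nb_four {t a : ℕ} (ht : 4 ≤ t) (ha : 1 ≤ a) : 2 * a ^ 4 < tow t a := by
  refine lt_of_lt_of_le ?_ (nb_tow_le ht a)
  show 2 * a ^ 4 < 2 ^ 2 ^ 2 ^ 2 ^ a
  have hy : a < 2 ^ a := Nat.lt_two_pow_self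
  have hy2 : 2 ≤ 2 ^ a := by omega
  generalize 2 ^ a = y at hy hy2
  have h1 : a ^ 4 < y ^ 4 := Nat.pow_lt_pow_left hy (by norm_num)
  have h2 : y ≤ 2 ^ y := Nat.lt_two_pow_self.le
  have h3 : 2 * y ^ 4 ≤ 2 ^ (4 * y + 1) := by
    calc 2 * y ^ 4 ≤ 2 * (2 ^ y) ^ 4 := Nat.mul_le_mul_left _ (Nat.pow_le_pow_left h2 4)
      _ = 2 ^ (4 * y + 1) := by rw [← pow_mul, pow_succ, mul_comm y 4, mul_comm]
  have h4 : y + 2 ≤ 2 ^ y := by
    obtain ⟨z, rfl⟩ := Nat.exists_eq_add_of_le hy2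
    have h5 : z < 2 ^ z := Nat.lt_two_pow_self
    rw [pow_add]
    omega
  have h5 : 4 * y + 1 ≤ 2 ^ 2 ^ y := by
    calc 4 * y + 1 ≤ 4 * 2 ^ y := by
          have : y < 2 ^ y := Nat.lt_two_pow_self
          omega
      _ = 2 ^ (y + 2) := by rw [pow_add]; ring
      _ ≤ 2 ^ 2 ^ y := Nat.pow_le_pow_right (by norm_num) h4
  have h6 : 2 ^ (4 * y + 1) ≤ 2 ^ 2 ^ 2 ^ y := Nat.pow_le_pow_right (by norm_num) h5
  omega

theorem ext_numbers (c0 m : ℕ) : ∃ t : ℕ, ∀ a : ℕ, 1 ≤ a →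
    NCH c0 (m * (t + 6)) (a ^ 2) (a ^ 2) ≤ tow t a ∧ 2 * a ^ 4 < tow t a := by
  obtain ⟨d, hd⟩ := nb_NCH c0
  obtain ⟨q, hq2, hq⟩ := nb_choose m d
  refine ⟨d + (q + 2), ?_⟩
  intro a ha
  refine ⟨?_, nb_four (by omega) ha⟩
  refine (hd (m * (d + (q + 2) + 6), a ^ 2, a ^ 2)).trans ?_
  rw [nb_tow_add]
  apply nb_tow_mono
  show m * (d + (q + 2) + 6) + a ^ 2 + a ^ 2 ≤ 2 ^ tow (q + 1) a
  have h1 : a + (q + 1) ≤ tow (q + 1) a := nb_add_le _ _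
  refine le_trans ?_ (Nat.pow_le_pow_right (by norm_num) h1)
  have h2 := nb_sq a
  have h3 : d + (q + 2) + 6 = d + q + 8 := by omega
  rw [h3]
  have h4 : (4 : ℕ) ≤ 2 ^ q := by
    calc (4 : ℕ) = 2 ^ 2 := rfl
      _ ≤ 2 ^ q := Nat.pow_le_pow_right (by norm_num) hq2
  have h5 : 2 ^ (a + (q + 1)) = 2 * (2 ^ q * 2 ^ a) := by
    rw [pow_add, pow_succ]
    ring
  have h6 : 4 * 2 ^ a ≤ 2 ^ q * 2 ^ a := Nat.mul_le_mul_right _ h4
  have h7 : 2 ^ q ≤ 2 ^ q * 2 ^ a := Nat.le_mul_of_pos_right _ (by positivity)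
  rw [h5]
  omega

end Pool.Agent.Work.MP_b44cb1_al
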