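import Pool.Agent.Work.MP_b44cb1_al.Full.Ext.ExSnoc
import Pool.Agent.Work.MP_b44cb1_al.Full.Ext.ExStep
import Pool.Agent.Work.MP_b44cb1_al.Full.Ext.NumBound

/-!
# MP_b44cb1_al, block EXT, module ExOne (S-M) : the first layer

PROOF. Let `q = p (c 0)`, `R = P (c 0)`, `S' = (Finset.range m).biUnion S`, `S'.card ≤ m * (t + 6)`. Apply
`ex_step` with `B = N = ⊥`, `D = R`, `k = 1`, `ν = tow t 1`: `N.relIndex B = 1`,
`NCH c0 S'.card 1 1 ≤ NCH c0 (m * (t+6)) 1 1 ≤ tow t 1` (`nch_mono`, `hnum 1`). It gives `R0 ≤ R` with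
`q ≤ a ≤ q`, `a = (Fr q R0).relIndex R0`. Start from any `Q` (e.g. `fun _ => ⊥`): `XSt P p c m S Q 0` is
trivial, and use `xst_snoc` with `j = 0`: `Gs Q 0 = ⊥`, `Gs (FQ Q _) 0 = ⊥`, `1 ≤ a`, and
`a ^ 2 ≤ q ^ 2 < q ^ tow t 1 ≤ (Fr q R).relIndex R` (`2 < tow t 1` by `hnum 1`), `centralizer ⊥ = ⊤`.
-/

set_option autoImplicit false

namespace Pool.Agent.Work.MP_b44cb1_al

open Subgroup

theorem xst_one {G : Type} [Group G] [Finite G] {P : ℕ → Subgroup G} {p : ℕ → ℕ} {n : ℕ}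
    (T : WTow P p n) (c0 t m : ℕ)
    (hnum : ∀ a : ℕ, 1 ≤ a →
      NCH c0 (m * (t + 6)) (a ^ 2) (a ^ 2) ≤ tow t a ∧ 2 * a ^ 4 < tow t a)
    (hc0 : ∀ i < n, c0 < p i) (hcl : ∀ i < n, lcs (P i) c0 = ⊥) (c : ℕ → ℕ) (hc : c 0 < n)
    (S : ℕ → Finset (Subgroup G × Subgroup G)) (hS : ∀ j < m, (S j).card ≤ t + 6)
    (hcyc : ∀ j < m, ∀ s ∈ S j, CycP s)
    (hbig : (p (c 0)) ^ (tow t 1) ≤ (Fr (p (c 0)) (P (c 0))).relIndex (P (c 0))) :
    ∃ Q : ℕ → Subgroup G, XSt P p c m S Q 1 := by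
  classical
  have hpr : (p (c 0)).Prime := T.prime _ hc
  have hF : Fact (p (c 0)).Prime := ⟨hpr⟩
  have hnz : ∀ D : Subgroup G, Nz (⊥ : Subgroup G) D := by
    intro D g hg d hd
    rw [mem_bot] at hg
    rw [hg]
    simpa using hd
  have hcen : P (c 0) ⊓ centralizer ((⊥ : Subgroup G) : Set G) = P (c 0) := by
    rw [inf_eq_left]
    intro x _
    rw [mem_centralizer_iff]
    intro y hy
    have hy' : y = 1 := mem_bot.1 hy
    rw [hy', one_mul, mul_one]
  have hcop : ¬ p (c 0) ∣ Nat.card (⊥ : Subgroup G) := by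
    rw [Subgroup.card_bot, Nat.dvd_one]
    exact hpr.ne_one
  have hS' : ((Finset.range m).biUnion S).card ≤ m * (t + 6) := by
    have h1 := Finset.card_biUnion_le_card_mul (Finset.range m) S (t + 6)
      (fun j hj => hS j (Finset.mem_range.1 hj))
    rwa [Finset.card_range] at h1
  have hnum1 := hnum 1 le_rfl
  obtain ⟨R0, h1, h2, h3, h4, h5, h6⟩ := ex_step (p (c 0)) c0 (hc0 _ hc) (P (c 0)) ⊥ ⊥ (P (c 0))
    (T.pgrp _ hc) (hcl _ hc) le_rfl (hnz _) (hnz _) hcop (le_of_eq hcen.symm) (hnz _)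
    ((Finset.range m).biUnion S) (by
      intro s hs
      rw [Finset.mem_biUnion] at hs
      obtain ⟨j, hj, hs⟩ := hs
      exact hcyc j (Finset.mem_range.1 hj) s hs) 1 (tow t 1) hbig (by
      rw [relIndex_self]
      refine (nch_mono c0 hS' le_rfl le_rfl).trans ?_
      simpa using hnum1.1)
  rw [relIndex_self, mul_one, pow_one] at h5
  rw [pow_one] at h4
  have hp2 := hpr.two_le
  have X : XSt P p c m S (fun _ => (⊥ : Subgroup G)) 0 :=
    { tow :=
        { prime := fun i hi => absurd hi (Nat.not_lt_zero i)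
          pgrp := fun i hi => absurd hi (Nat.not_lt_zero i)
          nz := fun i hi => absurd hi (Nat.not_lt_zero i)
          cz := fun i hi => absurd hi (Nat.not_lt_zero i)
          cop := fun i hi => absurd hi (Nat.not_lt_zero i) }
      le := fun i hi => absurd hi (Nat.not_lt_zero i)
      fr := fun i hi => absurd hi (Nat.not_lt_zero i)
      cond := fun i hi => absurd hi (Nat.not_lt_zero i)
      full := fun i hi => absurd hi (Nat.not_lt_zero _)
      nt := fun i hi => absurd hi (Nat.not_lt_zero i)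
      card := fun i hi => absurd hi (Nat.not_lt_zero i)
      big := fun i hi => absurd hi (Nat.not_lt_zero i) }
  refine ⟨_, xst_snoc X hpr (T.pgrp _ hc) R0 h1 (hnz _) ?_ hcop h3 ?_ ?_ ?_ ?_ ?_⟩
  · intro a ha b _
    have ha' : a = 1 := mem_bot.1 ha
    rw [ha', one_mul, mul_one]
  · intro l hl s hs
    exact h6 s (Finset.mem_biUnion.2 ⟨l, Finset.mem_range.2 hl, hs⟩)
  · intro i hi
    exact absurd hi (Nat.succ_ne_zero i)
  · omega
  · show (⊥ : Subgroup G).relIndex ⊥ ≤ _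
    rw [relIndex_self]
    omega
  · show _ < (Fr (p (c 0)) (P (c 0))).relIndex
      (P (c 0) ⊓ centralizer ((⊥ : Subgroup G) : Set G))
    rw [hcen]
    refine lt_of_le_of_lt (Nat.pow_le_pow_left h5 2) (lt_of_lt_of_le ?_ hbig)
    refine Nat.pow_lt_pow_right hpr.one_lt ?_
    have := hnum1.2
    omega

end Pool.Agent.Work.MP_b44cb1_al
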