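import Pool.Agent.Work.MP_b44cb1_al.CommCop
import Pool.Agent.Work.MP_b44cb1_al.Full.Defs

/-!
# MP_b44cb1_al, block EXT, module ExComm (M) : the new layer is a commutator

PROOF. `F := Fr q R` is normalised by `R` and `Y`. In `L := R ⊔ Y` it is normal; let `f` be the quotient map
`↥L → ↥L ⧸ F.subgroupOf L`, and denote images by bars. `R̄` is abelian (`⁅R, R⁆ ≤ F`), a `q`-group, `Ȳ` has
order prime to `q`, so `cop_decomp` and `comm_cop_inf` (file CommCop) apply to `R̄` and to its subgroup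
`Q̄` (`Nz Y Q`). Let `v ∈ Q̄`: `v = c * w`, `c ∈ Q̄` commuting with `Ȳ`, `w ∈ ⁅Q̄, Ȳ⁆`. As
`Q ≤ ⁅C, Y⁆ ≤ ⁅R, Y⁆`, `c ∈ ⁅R̄, Ȳ⁆` commutes with `Ȳ`, so `c = 1` (`comm_cop_inf`). Hence
`Q̄ ≤ ⁅Q̄, Ȳ⁆`, i.e. every `x ∈ Q` is `u * f`, `u ∈ ⁅Q, Y⁆`, `f ∈ F`; `⁅Q, Y⁆ ≤ Q` (`comm_le_left`), so
`f ∈ Q ⊓ Fr q R ≤ Fr q Q`.
-/

set_option autoImplicit false

namespace Pool.Agent.Work.MP_b44cb1_al

open Subgroup
open scoped commutatorElement

section aux

variable {G : Type*} [Group G]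

private theorem fr_le (q : ℕ) (R : Subgroup G) : Fr q R ≤ R := by
  refine sup_le ?_ ?_
  · rw [commutator_le]
    intro a ha b hb
    exact mul_mem (mul_mem (mul_mem ha hb) (inv_mem ha)) (inv_mem hb)
  · rw [closure_le]
    rintro _ ⟨x, hx, rfl⟩
    exact pow_mem hx q

private theorem fr_mono (q : ℕ) {Q R : Subgroup G} (h : Q ≤ R) : Fr q Q ≤ Fr q R :=
  sup_le_sup (commutator_mono h h) (closure_mono (Set.image_mono h))

private theorem comm_mem_fr (q : ℕ) {R : Subgroup G} {a b : G} (ha : a ∈ R) (hb : b ∈ R) :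
    ⁅a, b⁆ ∈ Fr q R := (le_sup_left : ⁅R, R⁆ ≤ Fr q R) (commutator_mem_commutator ha hb)

private theorem pow_mem_fr (q : ℕ) {R : Subgroup G} {a : G} (ha : a ∈ R) : a ^ q ∈ Fr q R :=
  (le_sup_right : closure ((fun x : G => x ^ q) '' (R : Set G)) ≤ Fr q R)
    (subset_closure ⟨a, ha, rfl⟩)

private theorem nz_pow (q : ℕ) {B R : Subgroup G} (h : Nz B R) :
    Nz B (closure ((fun x : G => x ^ q) '' (R : Set G))) := by
  intro g hg d hd
  have key : closure ((fun x : G => x ^ q) '' (R : Set G)) ≤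
      (closure ((fun x : G => x ^ q) '' (R : Set G))).comap (MulAut.conj g).toMonoidHom := by
    rw [closure_le]
    rintro _ ⟨x, hx, rfl⟩
    change (MulAut.conj g) (x ^ q) ∈ closure ((fun x : G => x ^ q) '' (R : Set G))
    rw [map_pow]
    exact subset_closure ⟨g * x * g⁻¹, h g hg x hx, rfl⟩
  exact key hd

private theorem nz_fr (q : ℕ) {B R : Subgroup G} (h : Nz B R) : Nz B (Fr q R) :=
  (nz_comm h h).sup (nz_pow q h)

end aux

theorem comm_full {G : Type} [Group G] [Finite G] (q : ℕ) [Fact q.Prime]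
    (R C Y Q : Subgroup G) (hR : IsPGroup q R) (hCR : C ≤ R) (hYR : Nz Y R) (hYC : Nz Y C)
    (hYQ : Nz Y Q) (hQ : Q ≤ ⁅C, Y⁆) (hfr : Q ⊓ Fr q R ≤ Fr q Q) (hq : ¬ q ∣ Nat.card Y) :
    Q ≤ ⁅Q, Y⁆ ⊔ Fr q Q := by
  have hqp : q.Prime := Fact.out
  set L : Subgroup G := R ⊔ Y with hL
  set F : Subgroup G := Fr q R with hF
  have hLF : Nz L F := by
    have h1 := nz_fr q (nz_self R)
    have h2 := nz_fr q hYR
    rw [nz_iff] at *
    exact sup_le h1 h2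
  have hn : (F.subgroupOf L).Normal := hLF.subgroupOf_normal
  have hRL : R ≤ L := le_sup_left
  have hYL : Y ≤ L := le_sup_right
  have hQR : Q ≤ R := hQ.trans ((comm_le_left hYC).trans hCR)
  have hQL : Q ≤ L := hQR.trans hRL
  let f : ↥L →* ↥L ⧸ F.subgroupOf L := QuotientGroup.mk' _
  have hf1 : ∀ x : ↥L, f x = 1 ↔ (x : G) ∈ F := by
    intro x
    change (x : ↥L ⧸ F.subgroupOf L) = 1 ↔ _
    rw [QuotientGroup.eq_one_iff, mem_subgroupOf]
  let bq : Subgroup G → Subgroup (↥L ⧸ F.subgroupOf L) := fun X => (X.subgroupOf L).map f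
  have hbq : ∀ X : Subgroup G, ∀ x : ↥L, (x : G) ∈ X → f x ∈ bq X := fun X x hx =>
    ⟨x, hx, rfl⟩
  have hbm : ∀ {X Z : Subgroup G}, X ≤ Z → bq X ≤ bq Z := fun h => map_mono (fun x hx => h hx)
  have hCz : Cz (bq R) (bq R) := by
    rintro _ ⟨a, ha, rfl⟩ _ ⟨b, hb, rfl⟩
    rw [← map_mul, ← map_mul, ← mul_inv_eq_one, ← map_inv, ← map_mul, hf1]
    have h1 : ((a * b * (b * a)⁻¹ : ↥L) : G) = ⁅(a : G), (b : G)⁆ := by
      rw [commutatorElement_def]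
      push_cast
      group
    rw [h1]
    exact comm_mem_fr q ha hb
  have hnz : ∀ Z : Subgroup G, Nz Y Z → Nz (bq Y) (bq Z) := by
    rintro Z hZ _ ⟨a, ha, rfl⟩ _ ⟨b, hb, rfl⟩
    rw [← map_inv, ← map_mul, ← map_mul]
    exact hbq Z _ (hZ _ ha _ hb)
  -- coprime orders
  have hcardR : ∃ k, Nat.card (bq R) = q ^ k := by
    have h1 : IsPGroup q (R.subgroupOf L) := by
      intro x
      obtain ⟨k, hk⟩ := hR ⟨((x : L) : G), x.2⟩
      have h0 : (((x : L) : G)) ^ (q ^ k) = 1 := congrArg Subtype.val hk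
      refine ⟨k, Subtype.ext (Subtype.ext ?_)⟩
      change (((x : L) : G)) ^ (q ^ k) = 1
      exact h0
    exact IsPGroup.iff_card.1 (h1.map f)
  have hcardY : ¬ q ∣ Nat.card (bq Y) := by
    intro h
    apply hq
    have h1 : Nat.card (bq Y) ∣ Nat.card (Y.subgroupOf L) := card_map_dvd _ f
    have h2 : Nat.card (Y.subgroupOf L) = Nat.card Y :=
      Nat.card_congr (subgroupOfEquivOfLe hYL).toEquiv
    rw [h2] at h1
    exact h.trans h1
  have hcop : (Nat.card (bq R)).Coprime (Nat.card (bq Y)) := by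
    obtain ⟨k, hk⟩ := hcardR
    rw [hk]
    exact Nat.Coprime.pow_left k ((Nat.Prime.coprime_iff_not_dvd hqp).2 hcardY)
  have hcopQ : (Nat.card (bq Q)).Coprime (Nat.card (bq Y)) :=
    Nat.Coprime.coprime_dvd_left (card_dvd_of_le (hbm hQR)) hcop
  have hCzQ : Cz (bq Q) (bq Q) := fun a ha b hb => hCz a (hbm hQR ha) b (hbm hQR hb)
  -- images of commutators
  have hcomm : ∀ X : Subgroup G, X ≤ L → bq ⁅X, Y⁆ = ⁅bq X, bq Y⁆ := by
    intro X hX
    change (⁅X, Y⁆.subgroupOf L).map f = ⁅(X.subgroupOf L).map f, (Y.subgroupOf L).map f⁆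
    rw [← map_commutator]
    congr 1
    apply map_injective L.subtype_injective
    rw [map_commutator, map_subgroupOf_eq_of_le hX, map_subgroupOf_eq_of_le hYL,
      map_subgroupOf_eq_of_le]
    rw [commutator_le]
    intro a ha b hb
    exact mul_mem (mul_mem (mul_mem (hX ha) (hYL hb)) (inv_mem (hX ha))) (inv_mem (hYL hb))
  intro x hx
  have hv : f ⟨x, hQL hx⟩ ∈ bq Q := hbq Q ⟨x, hQL hx⟩ hx
  obtain ⟨c, hc, w, hw, hcomm1, hcw⟩ := cop_decomp (bq Q) (bq Y) hCzQ (hnz Q hYQ) hcopQ _ hv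
  have hle1 : ⁅bq Q, bq Y⁆ ≤ ⁅bq R, bq Y⁆ := commutator_mono (hbm hQR) le_rfl
  have hv2 : f ⟨x, hQL hx⟩ ∈ ⁅bq R, bq Y⁆ := by
    have h1 : f ⟨x, hQL hx⟩ ∈ bq ⁅C, Y⁆ := hbq _ ⟨x, hQL hx⟩ (hQ hx)
    rw [hcomm C (hCR.trans hRL)] at h1
    exact commutator_mono (hbm hCR) le_rfl h1
  have hc2 : c ∈ ⁅bq R, bq Y⁆ := by
    have h1 : c = f ⟨x, hQL hx⟩ * w⁻¹ := by rw [hcw, mul_inv_cancel_right]
    rw [h1]
    exact mul_mem hv2 (inv_mem (hle1 hw))
  have hc1 : c = 1 := comm_cop_inf (bq R) (bq Y) hCz (hnz R hYR) hcop c hc2 hcomm1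
  rw [hc1, one_mul] at hcw
  rw [← hcomm Q hQL] at hw
  obtain ⟨u, hu, huw⟩ := hw
  have hux : f (u⁻¹ * ⟨x, hQL hx⟩) = 1 := by
    rw [map_mul, map_inv, huw, hcw, inv_mul_cancel]
  rw [hf1] at hux
  have huQ : (u : G) ∈ Q := comm_le_left hYQ hu
  have h2 : (u : G)⁻¹ * x ∈ Fr q Q := hfr ⟨Q.mul_mem (Q.inv_mem huQ) hx, hux⟩
  have h3 : x = (u : G) * ((u : G)⁻¹ * x) := by group
  rw [h3]
  exact mul_mem (le_sup_left (a := ⁅Q, Y⁆) hu) (le_sup_right (b := Fr q Q) h2)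

end Pool.Agent.Work.MP_b44cb1_al
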