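import Pool.Agent.Work.MP_b44cb1_al.Full.Ext.ExSnoc
import Pool.Agent.Work.MP_b44cb1_al.Full.Ext.ExStep
import Pool.Agent.Work.MP_b44cb1_al.Full.Ext.ExComm
import Pool.Agent.Work.MP_b44cb1_al.Full.Ext.ExNF
import Pool.Agent.Work.MP_b44cb1_al.Full.Ext.NumBound

/-!
# MP_b44cb1_al, block EXT, module ExSucc (M) : the next layer

PROOF. `q = p (c (i+1))`, `R = P (c (i+1))`, `B = Gs Q (i+1)`, `N₀ = Gs (FQ Q _) i`,
`N = Gs (FQ Q _) (i+1) = N₀ ⊔ Fr (Q i)`, `a = (Fr (p (c i)) (Q i)).relIndex (Q i) ≥ 2`.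
`B ≤ Gs P (c (i+1))` as `Q l ≤ P (c l)` and `c l < c (i+1)` for `l ≤ i` (`c` is increasing on `0..m`), so `B`
normalises `R` and `q` does not divide `card B`.
LINK with `N₀` and `Q i`: `N₀ ≤ Gs P (c i)`; nilpotent (`etow_nil` for the truncated tower); `Q i ≤ P (c i)`;
`Cz` is `X.tow.cz`; `X.fr i`; `¬ Q i ≤ Fr (P (c i))` (otherwise `Q i ≤ Fr (Q i)` by `X.fr`, index `1`); `X.big i`;
the conditions: `etow_cond` for the tower with `i + 1` layers (`Fr (Q l) ⊓ s.1 ≤ Q l ⊓ s.1 ≤ s.2`). So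
`q ^ tow t a ≤ (Fr q R).relIndex D`, `D := ⁅R ⊓ centralizer N, Q i⁆`.
`ex_step` with `S' = (Finset.range m).biUnion S`, `h = N.relIndex B ≤ a ^ 2` (`X.card i`), `k = h`,
`ν = tow t a`: `NCH c0 S'.card h h ≤ NCH c0 (m * (t+6)) (a^2) (a^2) ≤ tow t a`. (`N ≤ B`: `gs_fq_le`; `Nz B N`:
`etow_nz`; `D ≤ R ⊓ centralizer N`: `Q i` normalises it, `comm_le_left`; `Nz B D`: `nz_comm`, `B` normalises
`R`, `N` (`nz_cent`) and `Q i`.) It gives `R0`. Apply `xst_snoc` with `j = i + 1`: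
`R0 ≤ D ≤ R ⊓ centralizer N` (`hle`, `hcz`); `hfull`: `comm_full` with `C = R ⊓ centralizer N`, `Y = Q i`
(`q` does not divide `card (Q i)`, `Q i ≤ B`); `1 ≤ h`, so with `b = (Fr q R0).relIndex R0`:
`b ≥ q ^ h ≥ 2 ^ h > h ≥ 1` (`hnt`, `hcard`); `b ≤ q ^ (h * h)`, `b ^ 2 ≤ q ^ (2 * h * h) ≤ q ^ (2 * a ^ 4)
< q ^ tow t a ≤ (Fr q R).relIndex D ≤ (Fr q R).relIndex (R ⊓ centralizer N)` (`hbig`; monotonicity of
`relIndex` in the second argument: `Subgroup.relIndex_mono_right`-like, finite group).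
-/

set_option autoImplicit false

namespace Pool.Agent.Work.MP_b44cb1_al

open Subgroup

theorem xst_succ {G : Type} [Group G] [Finite G] {P : ℕ → Subgroup G} {p : ℕ → ℕ} {n : ℕ}
    (T : WTow P p n) (c0 t m : ℕ)
    (hnum : ∀ a : ℕ, 1 ≤ a →
      NCH c0 (m * (t + 6)) (a ^ 2) (a ^ 2) ≤ tow t a ∧ 2 * a ^ 4 < tow t a)
    (hc0 : ∀ i < n, c0 < p i) (hcl : ∀ i < n, lcs (P i) c0 = ⊥) (c : ℕ → ℕ)
    (hc : ∀ j < m, c j < c (j + 1)) (hcn : c m < n)
    (S : ℕ → Finset (Subgroup G × Subgroup G)) (hS : ∀ j < m, (S j).card ≤ t + 6)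
    (hcyc : ∀ j < m, ∀ s ∈ S j, CycP s) (i : ℕ) (hi : i < m) (Q : ℕ → Subgroup G)
    (X : XSt P p c m S Q (i + 1)) (hlink : LINK P p (c i) (c (i + 1)) (S i) t) :
    ∃ Q' : ℕ → Subgroup G, XSt P p c m S Q' (i + 2) := by
  classical
  have hmono : ∀ d l, l + d ≤ m → c l + d ≤ c (l + d) := by
    intro d
    induction d with
    | zero => intro l _; exact le_rfl
    | succ d ih =>
      intro l hl
      have h1 := ih l (by omega)
      have h2 := hc (l + d) (by omega)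
      show c l + (d + 1) ≤ c (l + d + 1)
      omega
  have hlt : ∀ l, l < i + 1 → c l < c (i + 1) := by
    intro l hl
    have h1 := hmono (i + 1 - l) l (by omega)
    rw [show l + (i + 1 - l) = i + 1 by omega] at h1
    omega
  have hcin : c (i + 1) < n := by
    have h1 := hmono (m - (i + 1)) (i + 1) (by omega)
    rw [show i + 1 + (m - (i + 1)) = m by omega] at h1
    omega
  have hle_ci : ∀ l, l < i → c l < c i := by
    intro l hl
    have h1 := hmono (i - l) l (by omega)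
    rw [show l + (i - l) = i by omega] at h1
    omega
  have hBP : Gs Q (i + 1) ≤ Gs P (c (i + 1)) := by
    rw [gs_le_iff]
    exact fun l hl => (X.le l hl).trans (le_gs' P (hlt l hl))
  have hQB : Q i ≤ Gs Q (i + 1) := le_gs' Q (Nat.lt_succ_self i)
  have hBR : Nz (Gs Q (i + 1)) (P (c (i + 1))) := (T.norm _ hcin).mono hBP
  have hqB : ¬ p (c (i + 1)) ∣ Nat.card (Gs Q (i + 1)) := T.cop_le hcin hBP
  have hqQ : ¬ p (c (i + 1)) ∣ Nat.card (Q i) := T.cop_le hcin (hQB.trans hBP)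
  have ha1 := X.nt i (Nat.lt_succ_self i)
  have hlink' := hlink (Gs (FQ Q (fun i => p (c i))) i) (Q i)
    (by
      refine (gs_fq_le _ _ _).trans ?_
      rw [gs_le_iff]
      exact fun l hl => (X.le l (by omega)).trans (le_gs' P (hle_ci l hl)))
    (etow_nil (X.tow.trunc (Nat.le_succ i))) (X.le i (Nat.lt_succ_self i))
    (X.tow.cz i (Nat.lt_succ_self i)) (X.fr i (Nat.lt_succ_self i))
    (by
      intro h
      have h2 : Q i ≤ Fr (p (c i)) (Q i) := (le_inf le_rfl h).trans (X.fr i (Nat.lt_succ_self i))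
      have h3 := relIndex_eq_one.2 h2
      omega)
    (X.big i (Nat.lt_succ_self i))
    (by
      intro s hs
      exact etow_cond X.tow s.1 s.2 (fun l hl =>
        (inf_le_inf_right _ (fr_le _ _)).trans (X.cond l hl i hi s hs)))
  have hNe : Gs (FQ Q (fun i => p (c i))) i ⊔ Fr (p (c i)) (Q i) =
      Gs (FQ Q (fun i => p (c i))) (i + 1) := rfl
  rw [hNe] at hlink'
  have hcard := X.card i (Nat.lt_succ_self i)
  generalize hN : Gs (FQ Q (fun i => p (c i))) (i + 1) = N at hlink' hcard hNe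
  generalize (Fr (p (c i)) (Q i)).relIndex (Q i) = a at hlink' hcard ha1
  obtain ⟨num1, num2⟩ := hnum a (by omega)
  have hNB : N ≤ Gs Q (i + 1) := by rw [← hN]; exact gs_fq_le _ _ _
  have hNzN : Nz (Gs Q (i + 1)) N := by rw [← hN]; exact etow_nz X.tow
  have hprime : (p (c (i + 1))).Prime := T.prime _ hcin
  haveI : Fact (p (c (i + 1))).Prime := ⟨hprime⟩
  have hNzC : Nz (Gs Q (i + 1)) (P (c (i + 1)) ⊓ centralizer (N : Set G)) :=
    hBR.inf (nz_cent hNzN)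
  have hNzQ : Nz (Gs Q (i + 1)) (Q i) := by
    rw [nz_iff, gs_succ]
    exact sup_le (nz_iff.1 (X.tow.nz i (Nat.lt_succ_self i))) (nz_iff.1 (nz_self (Q i)))
  have hNzD : Nz (Gs Q (i + 1)) ⁅P (c (i + 1)) ⊓ centralizer (N : Set G), Q i⁆ :=
    nz_comm hNzC hNzQ
  have hDC : ⁅P (c (i + 1)) ⊓ centralizer (N : Set G), Q i⁆ ≤
      P (c (i + 1)) ⊓ centralizer (N : Set G) := comm_le_left (hNzC.mono hQB)
  have hS' : ((Finset.range m).biUnion S).card ≤ m * (t + 6) := by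
    have h1 := Finset.card_biUnion_le_card_mul (Finset.range m) S (t + 6)
      (fun j hj => hS j (Finset.mem_range.1 hj))
    rwa [Finset.card_range] at h1
  have hcyc' : ∀ s ∈ (Finset.range m).biUnion S, CycP s := by
    intro s hs
    obtain ⟨j, hj, hs⟩ := Finset.mem_biUnion.1 hs
    exact hcyc j (Finset.mem_range.1 hj) s hs
  have hh1 : 1 ≤ N.relIndex (Gs Q (i + 1)) := Nat.one_le_iff_ne_zero.2 Subgroup.index_ne_zero_of_finite
  generalize hh : N.relIndex (Gs Q (i + 1)) = h at hcard hh1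
  have hnch : NCH c0 ((Finset.range m).biUnion S).card h h ≤ tow t a :=
    (nch_mono c0 hS' hcard hcard).trans num1
  obtain ⟨R0, hR0D, hNzR, hfrR, hbl, hbu, hcondR⟩ :=
    ex_step (p (c (i + 1))) c0 (hc0 _ hcin) (P (c (i + 1))) (Gs Q (i + 1)) N
      ⁅P (c (i + 1)) ⊓ centralizer (N : Set G), Q i⁆ (T.pgrp _ hcin) (hcl _ hcin) hNB hNzN hBR hqB
      hDC hNzD ((Finset.range m).biUnion S) hcyc' h (tow t a) hlink' (by rw [hh]; exact hnch)
  rw [hh] at hbu
  have hRC := hR0D.trans hDC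
  have hq2 : 2 ≤ p (c (i + 1)) := hprime.two_le
  have hbh : h < (Fr (p (c (i + 1))) R0).relIndex R0 := by
    calc h < 2 ^ h := Nat.lt_two_pow_self
      _ ≤ p (c (i + 1)) ^ h := Nat.pow_le_pow_left hq2 h
      _ ≤ _ := hbl
  refine ⟨_, xst_snoc X hprime (T.pgrp _ hcin) R0 (hRC.trans inf_le_left) hNzR ?_ hqB hfrR ?_ ?_
    (by omega) ?_ ?_⟩
  · rw [hN]
    intro x hx y hy
    exact (mem_centralizer_iff.1 (hRC hy).2) x hx
  · intro l hl s hs
    exact hcondR s (Finset.mem_biUnion.2 ⟨l, Finset.mem_range.2 hl, hs⟩)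
  · intro i' hi'
    obtain rfl : i' = i := by omega
    exact comm_full (p (c (i' + 1))) (P (c (i' + 1)))
      (P (c (i' + 1)) ⊓ centralizer (N : Set G)) (Q i') R0 (T.pgrp _ hcin) inf_le_left
      (hBR.mono hQB) (hNzC.mono hQB) (hNzR.mono hQB) hR0D hfrR hqQ
  · rw [hN, hh]
    exact hbh.le
  · rw [hN]
    have h1 : (Fr (p (c (i + 1))) (P (c (i + 1)))).relIndex
        ⁅P (c (i + 1)) ⊓ centralizer (N : Set G), Q i⁆ ≤
        (Fr (p (c (i + 1))) (P (c (i + 1)))).relIndex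
          (P (c (i + 1)) ⊓ centralizer (N : Set G)) :=
      relIndex_le_of_le_right hDC Subgroup.index_ne_zero_of_finite
    refine lt_of_lt_of_le ?_ h1
    refine lt_of_lt_of_le ?_ hlink'
    refine lt_of_le_of_lt (Nat.pow_le_pow_left hbu 2) ?_
    rw [← pow_mul]
    refine Nat.pow_lt_pow_right (by omega) ?_
    refine lt_of_le_of_lt ?_ num2
    have h2 : h * h ≤ a ^ 2 * a ^ 2 := Nat.mul_le_mul hcard hcard
    have h3 : a ^ 2 * a ^ 2 = a ^ 4 := by ring
    omega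

end Pool.Agent.Work.MP_b44cb1_al
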