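import Pool.Agent.Work.MP_b44cb1_al.Main
import Pool.Agent.Work.MP_b44cb1_al.Full.Ext.ExOne
import Pool.Agent.Work.MP_b44cb1_al.Full.Ext.ExSucc
import Pool.Agent.Work.MP_b44cb1_al.Full.Ext.ExFin

/-!
# MP_b44cb1_al, block EXT : main theorem of the block (assembly)
-/

set_option autoImplicit false

namespace Pool.Agent.Work.MP_b44cb1_al

open Subgroup

theorem ext_main (r c0 : ℕ) : ∃ t m : ℕ, ∀ (G : Type) [Group G] [Finite G],
    Group.IsSolvable G → (∃ s, r < s ∧ Law r s G) →
    ∀ (P : ℕ → Subgroup G) (p : ℕ → ℕ) (n : ℕ), WTow P p n →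
    (∀ i < n, c0 < p i) → (∀ i < n, lcs (P i) c0 = ⊥) →
    ∀ c : ℕ → ℕ, (∀ j < m, c j < c (j + 1)) → c m < n →
    ∀ S : ℕ → Finset (Subgroup G × Subgroup G), (∀ j < m, (S j).card ≤ t + 6) →
    (∀ j < m, ∀ s ∈ S j, CycP s) →
    (∀ j < m, LINK P p (c j) (c (j + 1)) (S j) t) →
    (p (c 0)) ^ (tow t 1) ≤ (Fr (p (c 0)) (P (c 0))).relIndex (P (c 0)) → False := by
  obtain ⟨t, hnum⟩ := ext_numbers c0 (hh r)
  refine ⟨t, hh r, ?_⟩
  intro G _ _ hs ⟨s, hrs, hlaw⟩ P p n T hc0 hcl c hc hcn S hS hcyc hlink hbig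
  set m := hh r with hm
  have hmono : ∀ i, i ≤ m → c i ≤ c m := by
    intro i hi
    have h1 : ∀ d, i + d ≤ m → c i ≤ c (i + d) := by
      intro d
      induction d with
      | zero => intro _; exact le_rfl
      | succ d ih =>
        intro h
        have h2 := hc (i + d) (by omega)
        have h3 := ih (by omega)
        have h4 : i + (d + 1) = i + d + 1 := rfl
        rw [h4]
        omega
    have h5 := h1 (m - i) (by omega)
    rwa [Nat.add_sub_cancel' hi] at h5
  have hall : ∀ j, j ≤ m → ∃ Q : ℕ → Subgroup G, XSt P p c m S Q (j + 1) := by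
    intro j
    induction j with
    | zero =>
      intro _
      exact xst_one T c0 t m hnum hc0 hcl c ((hmono 0 (Nat.zero_le _)).trans_lt hcn) S hS hcyc hbig
    | succ j ih =>
      intro hj
      obtain ⟨Q, X⟩ := ih (by omega)
      exact xst_succ T c0 t m hnum hc0 hcl c hc hcn S hS hcyc j (by omega) Q X
        (hlink j (by omega))
  obtain ⟨Q, X⟩ := hall m le_rfl
  refine etow_final r s m hs hrs hlaw (st_all r) X.tow (fun i hi => X.full i (by omega)) ?_
  intro i hi hle
  have h1 := X.nt i (by omega)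
  rw [Subgroup.relIndex_eq_one.2 hle] at h1
  exact lt_irrefl _ h1

end Pool.Agent.Work.MP_b44cb1_al
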