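import Pool.Agent.Work.MP_b44cb1_al.Full.Ext.BrDefs

/-!
# MP_b44cb1_al, block EXT : the statement of Brauer's theorem (definition, fixed)
-/

set_option autoImplicit false

namespace Pool.Agent.Work.MP_b44cb1_al

/-- Brauer's theorem over `K` for systems of at most `R` forms of degrees in `[1,c]`, given by
multilinear maps: they have a common nontrivial zero in every space of dimension at least `NB c R`. -/
def BrZ (K : Type) [Field K] (c : ℕ) : Prop :=
  ∀ (R : ℕ) (V : Type) [AddCommGroup V] [Module K V] [FiniteDimensional K V],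
    NB c R ≤ Module.finrank K V →
    ∀ (J : Type) [Fintype J], Fintype.card J ≤ R →
    ∀ (ι : J → Type) [∀ j, Fintype (ι j)],
      (∀ j, 1 ≤ Fintype.card (ι j) ∧ Fintype.card (ι j) ≤ c) →
    ∀ F : ∀ j, MultilinearMap K (fun _ : ι j => V) K,
      ∃ v : V, v ≠ 0 ∧ ∀ j, F j (fun _ => v) = 0

end Pool.Agent.Work.MP_b44cb1_al
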