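import Mathlib

/-!
# MP_b44cb1_al, block EXT, module BrCW (S, Mathlib only)

A diagonal form of degree `d ≥ 1` over `ZMod p` in more than `d` variables has a nontrivial zero.

PROOF. The polynomial `∑ i, C (a i) * X i ^ d` in `MvPolynomial ι (ZMod p)` has total degree
`≤ d < card ι`, so by Chevalley-Warning (`char_dvd_card_solutions_of_...` in
`Mathlib.FieldTheory.ChevalleyWarning`) the number of its zeros is divisible by `p`; `0` is a zero
(`d ≥ 1`), so there are at least `p ≥ 2` zeros, hence a nonzero one.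
-/

set_option autoImplicit false

namespace Pool.Agent.Work.MP_b44cb1_al

theorem cw_diag (p : ℕ) [Fact p.Prime] (d : ℕ) (hd : 1 ≤ d) {ι : Type} [Fintype ι]
    (hn : d < Fintype.card ι) (a : ι → ZMod p) :
    ∃ x : ι → ZMod p, x ≠ 0 ∧ ∑ i, a i * x i ^ d = 0 := by
  classical
  set f : MvPolynomial ι (ZMod p) := ∑ i, MvPolynomial.C (a i) * MvPolynomial.X i ^ d with hf
  have hdeg : f.totalDegree < Fintype.card ι := by
    refine lt_of_le_of_lt ?_ hn
    apply MvPolynomial.totalDegree_finsetSum_le
    intro i _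
    refine (MvPolynomial.totalDegree_mul _ _).trans ?_
    rw [MvPolynomial.totalDegree_C, zero_add]
    exact (MvPolynomial.totalDegree_X_pow i d).le
  have hdvd := char_dvd_card_solutions p hdeg
  have heval : ∀ x : ι → ZMod p, MvPolynomial.eval x f = ∑ i, a i * x i ^ d := by
    intro x
    rw [hf, map_sum]
    apply Finset.sum_congr rfl
    intro i _
    simp
  have h0 : MvPolynomial.eval (0 : ι → ZMod p) f = 0 := by
    rw [heval]
    apply Finset.sum_eq_zero
    intro i _
    rw [Pi.zero_apply, zero_pow (by omega), mul_zero]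
  have hcard : 1 < Fintype.card { x : ι → ZMod p // MvPolynomial.eval x f = 0 } := by
    have hp := (Fact.out : p.Prime).two_le
    have hpos : 0 < Fintype.card { x : ι → ZMod p // MvPolynomial.eval x f = 0 } :=
      Fintype.card_pos_iff.mpr ⟨⟨0, h0⟩⟩
    have := Nat.le_of_dvd hpos hdvd
    omega
  obtain ⟨x, hx⟩ := Fintype.exists_ne_of_one_lt_card hcard ⟨0, h0⟩
  refine ⟨x.1, ?_, ?_⟩
  · intro h
    exact hx (Subtype.ext h)
  · rw [← heval]
    exact x.2

end Pool.Agent.Work.MP_b44cb1_al
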