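import Mathlib

/-!
# MP_b44cb1_al, block EXT : numbers and the diagonal property (definitions, fixed)

`NB c R` = number of variables in Brauer's theorem for `R` forms of degrees in `[1,c]`,
`NI c R k` = number of variables for an isotropic family of `k` vectors,
`NCH n K h k` = number of vectors in the choice lemma.
-/

set_option autoImplicit false

namespace Pool.Agent.Work.MP_b44cb1_al

/-- Every diagonal form of degree `d` in `D` variables over `K` has a nontrivial zero. -/
def DiagZ (K : Type) [Field K] (d D : ℕ) : Prop :=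
  ∀ a : Fin D → K, ∃ x : Fin D → K, x ≠ 0 ∧ ∑ i, a i * x i ^ d = 0

/-- Brauer's number. -/
def NB : ℕ → ℕ → ℕ
  | 0, _ => 1
  | (c + 1), R =>
      NB c (R * (((c + 1) ^ 2 + 1) ^ R) ^ (c + 1)) + ((c + 1) ^ 2 + 1) ^ R

/-- Number of variables for an isotropic family of `k` vectors. -/
def NI (c R k : ℕ) : ℕ := NB c (R * k ^ c) + k

/-- Number of vectors needed in the choice lemma: `n` = class, `K` = number of characters,
`h` = number of automorphisms, `k` = number of vectors wanted. -/
def NCH : ℕ → ℕ → ℕ → ℕ → ℕ
  | 0, _, _, k => k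
  | (n + 1), K, h, k => NI (n + 1) (K * h ^ (n + 1)) (NCH n K h k)

end Pool.Agent.Work.MP_b44cb1_al
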