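import Pool.Agent.Work.MP_b44cb1_al.Full.Ext.BrNext

/-!
# MP_b44cb1_al, block EXT, module BrFam (M, Mathlib only)

A linearly independent family on which all mixed values vanish.

PROOF. Show by induction on `k ≤ m`: there is a linearly independent `e : Fin k → V` with
`F j (e ∘ φ) = 0` for all `j` and all `φ : ι j → Fin k` with `card (ι j) ≤ c` or `φ` not constant.
`k = 0`: `ι j` is nonempty, so there is no `φ`. Step, `k < m`: let `W` be a complement of
`span (range e)` (`Submodule.exists_isCompl`), `finrank W = finrank V - k ≥ NB c (R * m ^ (c+1))`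
(`finrank_span_eq_card`). Apply `br_next` with
`Φ j φ := (∃ i, φ i = Fin.last k) ∧ (card (ι j) ≤ c ∨ ∃ a b, φ a ≠ φ b)`,
`M := m ^ (c+1)`, `R := R * m ^ (c+1)`: the number of `i` with `φ i = last` is at most `c` (if
`card (ι j) ≤ c` trivially; otherwise `card (ι j) = c + 1` and one of `φ a ≠ φ b` is not `last`), and
`(k+1) ^ card (ι j) ≤ m ^ (c+1)` as `k + 1 ≤ m`. Put `e' = Fin.snoc e v`. It is linearly independent
(`linearIndependent_finSnoc` or similar: `v ∈ W`, `v ≠ 0`, so `v ∉ span (range e)`). For `φ : ι j → Fin (k+1)`:
if it hits `last` use `br_next`, otherwise `φ = Fin.castSucc ∘ φ'` and the induction hypothesis.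
-/

set_option autoImplicit false

namespace Pool.Agent.Work.MP_b44cb1_al

theorem br_family (K : Type) [Field K] (c : ℕ) (hB : BrZ K c) (R : ℕ) {V : Type}
    [AddCommGroup V] [Module K V] [FiniteDimensional K V] (m : ℕ)
    (hV : NB c (R * m ^ (c + 1)) + m ≤ Module.finrank K V)
    {J : Type} [Fintype J] (hJ : Fintype.card J ≤ R) {ι : J → Type} [∀ j, Fintype (ι j)]
    (hι : ∀ j, 1 ≤ Fintype.card (ι j) ∧ Fintype.card (ι j) ≤ c + 1)
    (F : ∀ j, MultilinearMap K (fun _ : ι j => V) K) :
    ∃ e : Fin m → V, LinearIndependent K e ∧ ∀ j (φ : ι j → Fin m),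
      (Fintype.card (ι j) ≤ c ∨ ∃ a b, φ a ≠ φ b) → F j (fun i => e (φ i)) = 0 := by
  classical
  have main : ∀ k, k ≤ m → ∃ e : Fin k → V, LinearIndependent K e ∧ ∀ j (φ : ι j → Fin k),
      (Fintype.card (ι j) ≤ c ∨ ∃ a b, φ a ≠ φ b) → F j (fun i => e (φ i)) = 0 := by
    intro k
    induction k with
    | zero =>
      intro _
      refine ⟨Fin.elim0, linearIndependent_empty_type, ?_⟩
      intro j φ _
      have h1 : Nonempty (ι j) := Fintype.card_pos_iff.1 (hι j).1
      obtain ⟨i⟩ := h1
      exact (φ i).elim0
    | succ k ih =>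
      intro hk
      obtain ⟨e, he, hF⟩ := ih (by omega)
      obtain ⟨W, hW⟩ := Submodule.exists_isCompl (Submodule.span K (Set.range e))
      have hdim : Module.finrank K W + k = Module.finrank K V := by
        have h1 := Submodule.finrank_add_eq_of_isCompl hW
        rw [finrank_span_eq_card he, Fintype.card_fin] at h1
        omega
      obtain ⟨v, hvW, hv0, hv⟩ := br_next K c hB e W F
        (fun j φ => (∃ i, φ i = Fin.last k) ∧ (Fintype.card (ι j) ≤ c ∨ ∃ a b, φ a ≠ φ b))
        (by
          rintro j φ ⟨⟨i, hi⟩, h⟩
          refine ⟨⟨i, hi⟩, ?_⟩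
          rcases h with h | ⟨a, b, hab⟩
          · exact (Fintype.card_subtype_le _).trans h
          · have h3 : ∃ x, φ x ≠ Fin.last k := by
              by_contra hcon
              push Not at hcon
              exact hab ((hcon a).trans (hcon b).symm)
            obtain ⟨x, hx⟩ := h3
            have h4 : Fintype.card {i // φ i = Fin.last k} < Fintype.card (ι j) :=
              Fintype.card_subtype_lt hx
            have h5 := (hι j).2
            omega)
        (m ^ (c + 1)) (R * m ^ (c + 1))
        (by
          intro j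
          refine (Nat.pow_le_pow_left hk _).trans ?_
          exact Nat.pow_le_pow_right (by omega) (hι j).2)
        (Nat.mul_le_mul_right _ hJ) (by omega)
      refine ⟨Fin.snoc e v, ?_, ?_⟩
      · rw [linearIndependent_finSnoc]
        refine ⟨he, ?_⟩
        intro hmem
        apply hv0
        exact (Submodule.disjoint_def.1 hW.disjoint) v hmem hvW
      · intro j φ h
        by_cases hl : ∃ i, φ i = Fin.last k
        · exact hv j φ ⟨hl, h⟩
        · push Not at hl
          choose φ' hφ' using fun i => Fin.exists_castSucc_eq.2 (hl i)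
          have h1 := hF j φ' (by
            rcases h with h | ⟨a, b, hab⟩
            · exact Or.inl h
            · refine Or.inr ⟨a, b, ?_⟩
              intro h2
              apply hab
              rw [← hφ' a, ← hφ' b, h2])
          rw [← h1]
          congr 1
          funext i
          rw [← hφ' i, Fin.snoc_castSucc]
  exact main m le_rfl

end Pool.Agent.Work.MP_b44cb1_al
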