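import Pool.Agent.Work.MP_b44cb1_al.Full.Ext.BrCW

/-!
# MP_b44cb1_al, block EXT, module BrHens (M, Mathlib only)

A diagonal form of degree `d`, `1 ≤ d < p`, with unit coefficients in `ℤ_[p]`, in more than `d`
variables, has a nontrivial zero in `ℤ_[p]`.

PROOF. Reduce modulo `p` (`PadicInt.toZMod`): by `cw_diag` there is `y : ι → ZMod p`, `y ≠ 0`, with
`∑ toZMod (u i) * y i ^ d = 0`. Let `y i₀ ≠ 0`. Choose lifts `x i : ℤ_[p]` of all `y i`
(`toZMod` is surjective). Consider the polynomial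
`f = C (u i₀) * X ^ d + C (∑ i ≠ i₀, u i * x i ^ d)` over `ℤ_[p]`. Then `f (x i₀)` has image `0` in
`ZMod p`, so `‖f (x i₀)‖ < 1` (kernel of `toZMod` = maximal ideal = elements of norm `< 1`), and
`f' (x i₀) = d * u i₀ * x i₀ ^ (d-1)` has nonzero image (`d < p`, `d ≥ 1`), so it is a unit, of norm
`1`. `hensels_lemma` gives `z` with `f z = 0` and `‖z - x i₀‖ < ‖f' (x i₀)‖ = 1`, so
`toZMod z = y i₀ ≠ 0`, in particular `z ≠ 0`. The vector `x` with `x i₀` replaced by `z`
(`Function.update`) is the wanted zero.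
-/

set_option autoImplicit false

namespace Pool.Agent.Work.MP_b44cb1_al

private theorem toZMod_zero_iff {p : ℕ} [Fact p.Prime] (x : ℤ_[p]) :
    PadicInt.toZMod x = 0 ↔ ‖x‖ < 1 := by
  rw [← RingHom.mem_ker, PadicInt.ker_toZMod, IsLocalRing.mem_maximalIdeal, PadicInt.mem_nonunits]

theorem hensel_diag (p : ℕ) [Fact p.Prime] (d : ℕ) (hd : 1 ≤ d) (hdp : d < p) {ι : Type}
    [Fintype ι] (hn : d < Fintype.card ι) (u : ι → ℤ_[p]) (hu : ∀ i, IsUnit (u i)) :
    ∃ x : ι → ℤ_[p], x ≠ 0 ∧ ∑ i, u i * x i ^ d = 0 := by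
  classical
  obtain ⟨y, hy0, hy⟩ := cw_diag p d hd hn (fun i => PadicInt.toZMod (u i))
  obtain ⟨i₀, hi₀⟩ := Function.ne_iff.mp hy0
  have hsurj : ∀ z : ZMod p, ∃ x : ℤ_[p], PadicInt.toZMod x = z := fun z =>
    ZMod.ringHom_surjective PadicInt.toZMod z
  choose x hx using fun i => hsurj (y i)
  set b : ℤ_[p] := ∑ i ∈ Finset.univ.erase i₀, u i * x i ^ d with hb
  set f : Polynomial ℤ_[p] := Polynomial.C (u i₀) * Polynomial.X ^ d + Polynomial.C b with hf
  have hfe : ∀ z : ℤ_[p], f.aeval z = u i₀ * z ^ d + b := by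
    intro z
    rw [hf]
    simp
  have hfd : ∀ z : ℤ_[p], f.derivative.aeval z = u i₀ * (d * z ^ (d - 1)) := by
    intro z
    rw [hf]
    simp [Polynomial.derivative_X_pow]
  have h1 : ‖f.aeval (x i₀)‖ < 1 := by
    rw [← toZMod_zero_iff, hfe]
    have h2 : u i₀ * x i₀ ^ d + b = ∑ i, u i * x i ^ d := by
      rw [hb, ← Finset.add_sum_erase Finset.univ (fun i => u i * x i ^ d) (Finset.mem_univ i₀)]
    rw [h2, map_sum, ← hy]
    apply Finset.sum_congr rfl
    intro i _
    rw [map_mul, map_pow, hx]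
  have h2 : ‖f.derivative.aeval (x i₀)‖ = 1 := by
    have h3 : ¬ ‖f.derivative.aeval (x i₀)‖ < 1 := by
      rw [← toZMod_zero_iff, hfd, map_mul, map_mul, map_pow, hx, map_natCast]
      apply mul_ne_zero
      · intro h4
        have h5 := (toZMod_zero_iff _).mp h4
        rw [PadicInt.isUnit_iff.mp (hu i₀)] at h5
        exact lt_irrefl _ h5
      · apply mul_ne_zero
        · intro h4
          rw [ZMod.natCast_eq_zero_iff] at h4
          have := Nat.le_of_dvd (by omega) h4
          omega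
        · exact pow_ne_zero _ hi₀
    exact le_antisymm (PadicInt.norm_le_one _) (not_lt.mp h3)
  obtain ⟨z, hz, hza, _, _⟩ := hensels_lemma (F := f) (a := x i₀) (by
    rw [h2, one_pow]
    exact h1)
  rw [h2] at hza
  have hzy : PadicInt.toZMod z = y i₀ := by
    have h3 := (toZMod_zero_iff _).mpr hza
    rw [map_sub, hx, sub_eq_zero] at h3
    exact h3
  have hz0 : z ≠ 0 := by
    intro h
    rw [h, map_zero] at hzy
    exact hi₀ hzy.symm
  refine ⟨Function.update x i₀ z, ?_, ?_⟩
  · intro h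
    have := congrFun h i₀
    rw [Function.update_self] at this
    exact hz0 this
  · rw [← Finset.add_sum_erase Finset.univ _ (Finset.mem_univ i₀), Function.update_self]
    rw [hfe] at hz
    have h4 : ∑ i ∈ Finset.univ.erase i₀, u i * Function.update x i₀ z i ^ d = b := by
      rw [hb]
      apply Finset.sum_congr rfl
      intro i hi
      rw [Function.update_of_ne (Finset.ne_of_mem_erase hi)]
    rw [h4]
    exact hz

end Pool.Agent.Work.MP_b44cb1_al
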