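import Pool.Agent.Work.MP_b44cb1_al.Full.Ext.BrIso

/-!
# MP_b44cb1_al, block EXT, module BrInt (M, Mathlib only) : integer version

PROOF. Let `F j` be the multilinear map
`v ↦ ∑ ψ : Fin c → Fin n, (a j ψ : ℚ_[p]) * ∏ i, v i (ψ i)`
(a sum of scalar multiples of `MultilinearMap.mkPiAlgebra` composed with the coordinate maps,
`compLinearMap (fun i => LinearMap.proj (ψ i))`). `iso_padic` gives `Y : Fin k → Fin n → ℤ_[p]`,
`t : Fin k → Fin n`. Choose integers `y i x` with `Y i x - y i x ∈ p ^ (e+1) ℤ_[p]` (for instance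
`PadicInt.appr`, or surjectivity of `PadicInt.toZModPow (e+1)` composed with `ℤ → ZMod (p^(e+1))`).
(1) `∑ ψ, a j ψ * ∏ i, y (φ i) (ψ i)`, as an element of `ℤ_[p]`, is congruent modulo `p ^ e` to the same
expression with `Y` (apply the ring homomorphism `PadicInt.toZModPow e`), which is `0` (the coercion
`ℤ_[p] → ℚ_[p]` is injective); so it is divisible by `p ^ e` in `ℤ` (`toZModPow e` of an integer is its
class in `ZMod (p ^ e)`, `ZMod.intCast_zmod_eq_zero_iff_dvd` / `ZMod.intCast_eq_zero_iff...`).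
(2) Let `M i l := (y i (t l) : ZMod p)`, a `k × k` matrix over `ZMod p` with `M i i = 1`, `M i l = 0` for
`l < i`. It is upper triangular, `det M = ∏ 1 = 1` (`Matrix.det_of_upperTriangular`), so `M⁻¹` exists.
`z i x := ∑ l, if t l = x then (an integer lift of (M⁻¹) l i) else 0`. Then
`∑ x, z i x * y j x = ∑ l, (M⁻¹) l i * M j l = (M * M⁻¹) j i = if i = j then 1 else 0` in `ZMod p`.
-/

set_option autoImplicit false

namespace Pool.Agent.Work.MP_b44cb1_al

theorem iso_int (p : ℕ) [Fact p.Prime] (c R k e : ℕ) (hc : 1 ≤ c) (hcp : c < p) {n : ℕ}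
    (hn : NI c R k ≤ n) {J : Type} [Fintype J] (hJ : Fintype.card J ≤ R)
    (a : J → (Fin c → Fin n) → ℤ) :
    ∃ y z : Fin k → Fin n → ℤ,
      (∀ i j, ((∑ x, z i x * y j x : ℤ) : ZMod p) = if i = j then 1 else 0) ∧
      ∀ j (φ : Fin c → Fin k),
        (p : ℤ) ^ e ∣ ∑ ψ : Fin c → Fin n, a j ψ * ∏ i, y (φ i) (ψ i) := by
  classical
  set F : J → MultilinearMap ℚ_[p] (fun _ : Fin c => (Fin n → ℚ_[p])) ℚ_[p] := fun j =>
    ∑ ψ : Fin c → Fin n, (a j ψ : ℚ_[p]) • (MultilinearMap.mkPiAlgebra ℚ_[p] (Fin c)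
      ℚ_[p]).compLinearMap (fun i => LinearMap.proj (ψ i)) with hF
  have hFv : ∀ j (v : Fin c → Fin n → ℚ_[p]), F j v =
      ∑ ψ : Fin c → Fin n, (a j ψ : ℚ_[p]) * ∏ i, v i (ψ i) := by
    intro j v
    simp only [hF]
    rw [sum_apply]
    apply Finset.sum_congr rfl
    intro ψ _
    rw [MultilinearMap.smul_apply, MultilinearMap.compLinearMap_apply,
      MultilinearMap.mkPiAlgebra_apply, smul_eq_mul]
    rfl
  obtain ⟨Y, t, hY1, hY2, hY3⟩ := iso_padic p c R k hc hcp hn hJ F
  have hZ : ∀ j (φ : Fin c → Fin k),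
      ∑ ψ : Fin c → Fin n, (a j ψ : ℤ_[p]) * ∏ i, Y (φ i) (ψ i) = 0 := by
    intro j φ
    have h1 := hY3 j φ
    rw [hFv] at h1
    have h2 : PadicInt.Coe.ringHom (∑ ψ : Fin c → Fin n, (a j ψ : ℤ_[p]) *
        ∏ i, Y (φ i) (ψ i)) = 0 := by
      rw [map_sum, ← h1]
      apply Finset.sum_congr rfl
      intro ψ _
      rw [map_mul, map_intCast, map_prod]
      rfl
    exact PadicInt.ext h2
  have hsurj : ∀ x : ℤ_[p], ∃ m : ℤ, (m : ZMod (p ^ (e + 1))) = PadicInt.toZModPow (e + 1) x :=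
    fun x => ZMod.intCast_surjective _
  choose y hy using fun i x => hsurj (Y i x)
  have hyp : ∀ i x, ((y i x : ℤ) : ZMod p) = PadicInt.toZMod (Y i x) := by
    intro i x
    have h1 : Y i x - (y i x : ℤ_[p]) ∈ RingHom.ker (PadicInt.toZModPow (p := p) (e + 1)) := by
      rw [RingHom.mem_ker, map_sub, map_intCast, hy, sub_self]
    rw [PadicInt.ker_toZModPow, Ideal.mem_span_singleton] at h1
    obtain ⟨w, hw⟩ := h1
    have h2 := congrArg (PadicInt.toZMod (p := p)) hw
    rw [map_sub, map_intCast, map_mul, map_pow, map_natCast, ZMod.natCast_self, zero_pow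
      (Nat.succ_ne_zero e), zero_mul, sub_eq_zero] at h2
    exact h2.symm
  set M : Matrix (Fin k) (Fin k) (ZMod p) := fun i l => ((y i (t l) : ℤ) : ZMod p) with hM
  have hM1 : ∀ i, M i i = 1 := by
    intro i
    simp only [hM]
    rw [hyp, hY1, map_one]
  have hM2 : ∀ i l, l < i → M i l = 0 := by
    intro i l hl
    simp only [hM]
    rw [hyp, hY2 i l hl, map_zero]
  have hdet : M.det = 1 := by
    rw [Matrix.det_of_upperTriangular (fun i l hl => hM2 i l hl)]
    exact Finset.prod_eq_one (fun i _ => hM1 i)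
  have hinv : M * M⁻¹ = 1 := Matrix.mul_nonsing_inv M (by rw [hdet]; exact isUnit_one)
  choose N hN using fun l i => ZMod.intCast_surjective (n := p) (M⁻¹ l i)
  refine ⟨y, fun i x => ∑ l, if t l = x then N l i else 0, ?_, ?_⟩
  · intro i j
    have h1 : ((∑ x, (∑ l, if t l = x then N l i else 0) * y j x : ℤ) : ZMod p) =
        ∑ l, M j l * M⁻¹ l i := by
      push_cast
      have h2 : ∀ x, (∑ l, (if t l = x then ((N l i : ℤ) : ZMod p) else 0)) *
          ((y j x : ℤ) : ZMod p) = ∑ l, if t l = x then M⁻¹ l i * ((y j x : ℤ) : ZMod p) else 0 := by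
        intro x
        rw [Finset.sum_mul]
        apply Finset.sum_congr rfl
        intro l _
        split_ifs
        · rw [hN]
        · rw [zero_mul]
      have h3 : ∑ x, (∑ l, (if t l = x then ((N l i : ℤ) : ZMod p) else 0)) *
          ((y j x : ℤ) : ZMod p) = ∑ l, M j l * M⁻¹ l i := by
        rw [Finset.sum_congr rfl (fun x _ => h2 x), Finset.sum_comm]
        apply Finset.sum_congr rfl
        intro l _
        rw [Finset.sum_ite_eq Finset.univ (t l), if_pos (Finset.mem_univ _), mul_comm]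
      exact h3
    rw [h1]
    have h4 := congrFun (congrFun hinv j) i
    rw [Matrix.mul_apply, Matrix.one_apply] at h4
    rw [h4]
    by_cases hij : i = j
    · rw [if_pos hij, if_pos hij.symm]
    · rw [if_neg hij, if_neg (fun h => hij h.symm)]
  · intro j φ
    have h1 : ((∑ ψ : Fin c → Fin n, a j ψ * ∏ i, y (φ i) (ψ i) : ℤ) :
        ZMod (p ^ (e + 1))) = 0 := by
      have h2 := congrArg (PadicInt.toZModPow (p := p) (e + 1)) (hZ j φ)
      rw [map_sum, map_zero] at h2
      rw [← h2]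
      push_cast
      apply Finset.sum_congr rfl
      intro ψ _
      rw [map_mul, map_intCast, map_prod]
      congr 1
      apply Finset.prod_congr rfl
      intro i _
      exact hy _ _
    rw [ZMod.intCast_zmod_eq_zero_iff_dvd] at h1
    refine dvd_trans ?_ h1
    push_cast
    exact pow_dvd_pow _ (Nat.le_succ e)

end Pool.Agent.Work.MP_b44cb1_al
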