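import Pool.Agent.Work.MP_b44cb1_al.Full.Ext.BrSys
import Pool.Agent.Work.MP_b44cb1_al.Full.Ext.BrFam

/-!
# MP_b44cb1_al, block EXT, module BrZero (M, Mathlib only) : Brauer's theorem

PROOF. Induction on `c`. `c = 0`: `J` is empty (`1 ≤ card (ι j) ≤ 0` is impossible) and
`finrank V ≥ 1` gives `v ≠ 0`. Step `c → c + 1`: let `D = (c+1)^2+1`, `m = D ^ R`. By `br_family` (the
numbers are those of `NB (c+1) R`) there is a linearly independent `e : Fin m → V` with
`F j (e ∘ φ) = 0` whenever `card (ι j) ≤ c` or `φ` is not constant. Apply `diag_sys` with `d = c + 1`,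
`D`, `J' = {j // card (ι j) = c + 1}` (at most `R` elements), index type `Fin m` (`D ^ R ≤ m`) and
`a j i = F j (fun _ => e i)`: there is `x : Fin m → K`, `x ≠ 0`, with `∑ i, a j i * x i ^ (c+1) = 0` for all
`j : J'`. Put `v = ∑ i, x i • e i`; `v ≠ 0` by linear independence. For every `j`,
`F j (fun _ => v) = ∑ φ : ι j → Fin m, (∏ l, x (φ l)) * F j (fun l => e (φ l))`
(`MultilinearMap.map_sum` and `MultilinearMap.map_smul_univ`). If `card (ι j) ≤ c` all terms vanish. If
`card (ι j) = c + 1` only the constant `φ` remain (`ι j` is nonempty; the constant functions are in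
bijection with `Fin m`) and the sum is `∑ i, x i ^ (c+1) * a j i = 0`.
-/

set_option autoImplicit false

namespace Pool.Agent.Work.MP_b44cb1_al

theorem brauer (K : Type) [Field K] (c : ℕ)
    (hK : ∀ d, 1 ≤ d → d ≤ c → DiagZ K d (d ^ 2 + 1)) : BrZ K c := by
  classical
  induction c with
  | zero =>
    intro R V _ _ _ hV J _ hJ ι _ hι F
    have h1 : 0 < Module.finrank K V := lt_of_lt_of_le Nat.zero_lt_one hV
    obtain ⟨v, hv⟩ := Module.finrank_pos_iff_exists_ne_zero.1 h1
    refine ⟨v, hv, fun j => ?_⟩
    have := hι j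
    omega
  | succ c ih =>
    intro R V _ _ _ hV J _ hJ ι _ hι F
    have hB := ih (fun d h1 h2 => hK d h1 (by omega))
    set m : ℕ := ((c + 1) ^ 2 + 1) ^ R with hm
    have hV' : NB c (R * m ^ (c + 1)) + m ≤ Module.finrank K V := hV
    obtain ⟨e, he, hF⟩ := br_family K c hB R m hV' hJ hι F
    obtain ⟨x, hx, hxx⟩ := diag_sys K (c + 1) ((c + 1) ^ 2 + 1) (by omega)
      (hK (c + 1) (by omega) le_rfl) R (J := {j // Fintype.card (ι j) = c + 1})
      ((Fintype.card_subtype_le _).trans hJ) (ι := Fin m) (by rw [Fintype.card_fin])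
      (fun j i => F j.1 (fun _ => e i))
    refine ⟨∑ i, x i • e i, ?_, fun j => ?_⟩
    · intro h0
      apply hx
      funext i
      exact Fintype.linearIndependent_iff.1 he x h0 i
    · have h1 : F j (fun _ => ∑ i, x i • e i) =
          ∑ φ : ι j → Fin m, (∏ l, x (φ l)) • F j (fun l => e (φ l)) := by
        rw [(F j).map_sum (fun _ i => x i • e i)]
        refine Finset.sum_congr rfl fun φ _ => ?_
        exact (F j).map_smul_univ (fun l => x (φ l)) (fun l => e (φ l))
      rw [h1]
      by_cases hc : Fintype.card (ι j) = c + 1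
      · have hne : Nonempty (ι j) := Fintype.card_pos_iff.1 (by omega)
        have h2 := hxx ⟨j, hc⟩
        rw [← h2]
        symm
        refine Fintype.sum_of_injective (fun (i : Fin m) (_ : ι j) => i) ?_ _ _ ?_ ?_
        · intro i i' h
          obtain ⟨l⟩ := hne
          exact congrFun h l
        · intro φ hφ
          rw [hF j φ (Or.inr ?_), smul_zero]
          by_contra hcon
          push Not at hcon
          obtain ⟨l⟩ := hne
          exact hφ ⟨φ l, funext fun l' => hcon l l'⟩
        · intro i
          rw [Finset.prod_const, Finset.card_univ, hc, smul_eq_mul, mul_comm]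
      · refine Finset.sum_eq_zero fun φ _ => ?_
        rw [hF j φ (Or.inl (by have := hι j; omega)), smul_zero]

end Pool.Agent.Work.MP_b44cb1_al
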