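import Pool.Agent.Work.MP_b44cb1_al.Full.Ext.BrPad
import Pool.Agent.Work.MP_b44cb1_al.Full.Ext.BrZero

/-!
# MP_b44cb1_al, block EXT, module BrIso (M-L, Mathlib only)

An isotropic family of `k` vectors with `ℤ_[p]` coordinates in triangular form.

PROOF. `BrZ ℚ_[p] c` holds by `brauer` and `diag_padic` (`d ≤ c < p`). Show by induction on `k' ≤ k`: there
are `y : Fin k' → Fin n → ℤ_[p]`, `t : Fin k' → Fin n` with the three properties. `k' = 0`: trivial, since
`Fin c → Fin 0` is empty (`c ≥ 1`). Step, `k' < k`: `W := {v | ∀ l, v (t l) = 0}`, a subspace of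
`Fin n → ℚ_[p]` of dimension `≥ n - k'` (e.g. it is the kernel of `v ↦ (v (t l))_l`), and
`n - k' ≥ NB c (R * k ^ c)`. Apply `br_next` with `e l = y l` (coerced), `ι j = Fin c`,
`Φ j φ := ∃ i, φ i = Fin.last k'` (the number of such `i` is at most `c`), `M = k ^ c`, `R := R * k ^ c`:
`0 ≠ v ∈ W`. Let `t'` be a coordinate with `‖v t'‖` maximal (`Finite.exists_max`); `v t' ≠ 0`. Then
`v' = (v t')⁻¹ • v` has all coordinates of norm `≤ 1`, i.e. in `ℤ_[p]`, `v' t' = 1` and `v' (t l) = 0`; and
`F j (Fin.snoc e v' ∘ φ) = 0` still holds: it is `(v t')⁻¹ ^ #{i | φ i = last}` times the old value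
(`MultilinearMap.map_smul_univ` with the scalars `if φ i = last then (v t')⁻¹ else 1`). New family:
`Fin.snoc y v'`, `Fin.snoc t t'`. For `φ` not hitting `last` use the induction hypothesis.
-/

set_option autoImplicit false

namespace Pool.Agent.Work.MP_b44cb1_al

theorem iso_padic (p : ℕ) [Fact p.Prime] (c R k : ℕ) (hc : 1 ≤ c) (hcp : c < p) {n : ℕ}
    (hn : NI c R k ≤ n) {J : Type} [Fintype J] (hJ : Fintype.card J ≤ R)
    (F : J → MultilinearMap ℚ_[p] (fun _ : Fin c => (Fin n → ℚ_[p])) ℚ_[p]) :
    ∃ (y : Fin k → Fin n → ℤ_[p]) (t : Fin k → Fin n),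
      (∀ i, y i (t i) = 1) ∧ (∀ i l, l < i → y i (t l) = 0) ∧
      ∀ j (φ : Fin c → Fin k), F j (fun i x => (y (φ i) x : ℚ_[p])) = 0 := by
  classical
  have hB : BrZ ℚ_[p] c := brauer ℚ_[p] c (fun d hd hdc => diag_padic p d hd (by omega))
  have key : ∀ k' : ℕ, k' ≤ k → ∃ (y : Fin k' → Fin n → ℤ_[p]) (t : Fin k' → Fin n),
      (∀ i, y i (t i) = 1) ∧ (∀ i l, l < i → y i (t l) = 0) ∧
      ∀ j (φ : Fin c → Fin k'), F j (fun i x => (y (φ i) x : ℚ_[p])) = 0 := by
    intro k'
    induction k' with
    | zero =>
      intro _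
      refine ⟨fun i => i.elim0, fun i => i.elim0, fun i => i.elim0, fun i => i.elim0, ?_⟩
      intro j φ
      exact (φ ⟨0, hc⟩).elim0
    | succ k' ih =>
      intro hk'
      obtain ⟨y, t, h1, h2, h3⟩ := ih (by omega)
      set T : (Fin n → ℚ_[p]) →ₗ[ℚ_[p]] (Fin k' → ℚ_[p]) := LinearMap.funLeft ℚ_[p] ℚ_[p] t
        with hT
      have hW : NB c (R * k ^ c) ≤ Module.finrank ℚ_[p] (LinearMap.ker T) := by
        have e1 := LinearMap.finrank_range_add_finrank_ker T
        have e2 : Module.finrank ℚ_[p] (LinearMap.range T) ≤ k' := by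
          have := Submodule.finrank_le (LinearMap.range T)
          rwa [Module.finrank_fin_fun] at this
        rw [Module.finrank_fin_fun] at e1
        unfold NI at hn
        omega
      obtain ⟨v, hvW, hv0, hv⟩ := br_next ℚ_[p] c hB (V := Fin n → ℚ_[p]) (k := k')
        (fun l x => (y l x : ℚ_[p])) (LinearMap.ker T) (J := J) (ι := fun _ => Fin c) F
        (fun _ φ => ∃ i, φ i = Fin.last k') (fun _ φ hφ => ⟨hφ, by
          have := Fintype.card_subtype_le (fun i : Fin c => φ i = Fin.last k')
          rwa [Fintype.card_fin] at this⟩) (k ^ c) (R * k ^ c) (fun _ => by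
          rw [Fintype.card_fin]
          exact Nat.pow_le_pow_left hk' c) (Nat.mul_le_mul_right _ hJ) hW
      obtain ⟨x0, hx0⟩ := Function.ne_iff.mp hv0
      have hne : Nonempty (Fin n) := ⟨x0⟩
      obtain ⟨t', ht'⟩ := Finite.exists_max (fun x => ‖v x‖)
      have hvt' : v t' ≠ 0 := by
        intro h
        have h4 := ht' x0
        rw [h, norm_zero] at h4
        exact hx0 (norm_le_zero_iff.mp h4)
      have hvt : ∀ l, v (t l) = 0 := by
        intro l
        have h4 := congrFun (LinearMap.mem_ker.mp hvW) l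
        exact h4
      have hnorm : ∀ x, ‖(v t')⁻¹ * v x‖ ≤ 1 := by
        intro x
        rw [norm_mul, norm_inv, inv_mul_le_iff₀ (norm_pos_iff.mpr hvt'), mul_one]
        exact ht' x
      set y' : Fin n → ℤ_[p] := fun x => ⟨(v t')⁻¹ * v x, hnorm x⟩ with hy'
      have hy'v : ∀ x, (y' x : ℚ_[p]) = (v t')⁻¹ * v x := fun x => rfl
      refine ⟨Fin.snoc y y', Fin.snoc t t', ?_, ?_, ?_⟩
      · intro i
        induction i using Fin.lastCases with
        | last =>
          rw [Fin.snoc_last, Fin.snoc_last]
          apply PadicInt.ext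
          rw [hy'v, inv_mul_cancel₀ hvt']
          rfl
        | cast i =>
          rw [Fin.snoc_castSucc, Fin.snoc_castSucc]
          exact h1 i
      · intro i l hl
        induction l using Fin.lastCases with
        | last => exact absurd hl (not_lt.mpr (Fin.le_last i))
        | cast l =>
          rw [Fin.snoc_castSucc]
          induction i using Fin.lastCases with
          | last =>
            rw [Fin.snoc_last]
            apply PadicInt.ext
            rw [hy'v, hvt, mul_zero]
            rfl
          | cast i =>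
            rw [Fin.snoc_castSucc]
            exact h2 i l (Fin.castSucc_lt_castSucc_iff.mp hl)
      · intro j φ
        by_cases hφ : ∃ i, φ i = Fin.last k'
        · have h4 := hv j φ hφ
          have h5 : (fun i x => (((Fin.snoc y y' : Fin (k' + 1) → Fin n → ℤ_[p]) (φ i) x : ℤ_[p])
              : ℚ_[p])) = fun i => (if φ i = Fin.last k' then (v t')⁻¹ else (1 : ℚ_[p])) •
              (Fin.snoc (fun l x => (y l x : ℚ_[p])) v : Fin (k' + 1) → (Fin n → ℚ_[p])) (φ i) := by
            funext i
            generalize φ i = q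
            induction q using Fin.lastCases with
            | last =>
              rw [if_pos rfl, Fin.snoc_last, Fin.snoc_last]
              funext x
              rfl
            | cast q =>
              rw [if_neg (Fin.castSucc_lt_last q).ne, Fin.snoc_castSucc, Fin.snoc_castSucc,
                one_smul]
          rw [h5, MultilinearMap.map_smul_univ, h4, smul_zero]
        · push Not at hφ
          have h6 : ∀ i, ∃ q : Fin k', φ i = Fin.castSucc q := by
            intro i
            exact ⟨(φ i).castPred (hφ i), by rw [Fin.castSucc_castPred]⟩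
          choose φ' hφ' using h6
          have h7 := h3 j φ'
          have h8 : (fun i x => (((Fin.snoc y y' : Fin (k' + 1) → Fin n → ℤ_[p]) (φ i) x : ℤ_[p])
              : ℚ_[p])) = fun i x => (y (φ' i) x : ℚ_[p]) := by
            funext i x
            rw [hφ' i, Fin.snoc_castSucc]
          rw [h8]
          exact h7
  exact key k le_rfl

end Pool.Agent.Work.MP_b44cb1_al
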