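import Pool.Agent.Work.MP_b44cb1_al.Full.Ext.BrBase

/-!
# MP_b44cb1_al, block EXT, module BrNext (M, Mathlib only)

The next vector: given `e : Fin k → V` and a subspace `W` of large dimension, there is `0 ≠ v ∈ W` such
that `F j (e' ∘ φ) = 0`, `e' = Fin.snoc e v`, for all `φ` in a set `Φ j` of maps hitting the last index
between `1` and `c` times.

PROOF. New index type of forms `J' := Σ j, {φ : ι j → Fin (k+1) // Φ j φ}` (a finite type, use
`Fintype.ofFinite` or classical decidability); `card J' ≤ ∑ j, (k+1) ^ card (ι j) ≤ card J * M ≤ R`.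
New variable types `ι' ⟨j, φ⟩ := {i : ι j // φ i = Fin.last k}`, of cardinality between `1` and `c` by
`hΦ`. New forms: `F' ⟨j, φ⟩ := ((F j).domDomRestrict (fun i => φ i = Fin.last k) z).compLinearMap
(fun _ => W.subtype)` on `W`, where `z i = Fin.snoc e 0 (φ i)` for `φ i ≠ last` (the value of `e` at the
index `φ i < k`). (`MultilinearMap.domDomRestrict`; its value at `w` is `F j` of the function which is
`w i` where `φ i = last` and `z i` elsewhere; any other way to freeze variables is fine.) Apply `hB` to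
`W`, `J'`, `ι'`, `F'`: there is `w : W`, `w ≠ 0`, with `F' ⟨j, φ⟩ (fun _ => w) = 0`, which is the claim for
`v = w`, since `Fin.snoc e v (φ i)` is `v` if `φ i = last` and `e (φ i)` otherwise.
-/

set_option autoImplicit false

namespace Pool.Agent.Work.MP_b44cb1_al

theorem br_next (K : Type) [Field K] (c : ℕ) (hB : BrZ K c) {V : Type} [AddCommGroup V]
    [Module K V] [FiniteDimensional K V] {k : ℕ} (e : Fin k → V) (W : Submodule K V)
    {J : Type} [Fintype J] {ι : J → Type} [∀ j, Fintype (ι j)]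
    (F : ∀ j, MultilinearMap K (fun _ : ι j => V) K)
    (Φ : ∀ j, (ι j → Fin (k + 1)) → Prop)
    (hΦ : ∀ j φ, Φ j φ → (∃ i, φ i = Fin.last k) ∧
      Fintype.card {i // φ i = Fin.last k} ≤ c)
    (M R : ℕ) (hM : ∀ j, (k + 1) ^ Fintype.card (ι j) ≤ M) (hR : Fintype.card J * M ≤ R)
    (hW : NB c R ≤ Module.finrank K W) :
    ∃ v ∈ W, v ≠ 0 ∧ ∀ j φ, Φ j φ →
      F j (fun i => (Fin.snoc e v : Fin (k + 1) → V) (φ i)) = 0 := by
  classical
  have hcard : Fintype.card (Σ j, {φ : ι j → Fin (k + 1) // Φ j φ}) ≤ R := by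
    refine le_trans ?_ hR
    rw [Fintype.card_sigma]
    have h1 : ∀ j ∈ (Finset.univ : Finset J),
        Fintype.card {φ : ι j → Fin (k + 1) // Φ j φ} ≤ M := by
      intro j _
      refine (Fintype.card_subtype_le _).trans ?_
      rw [Fintype.card_fun, Fintype.card_fin]
      exact hM j
    have h2 := Finset.sum_le_card_nsmul _ _ _ h1
    rwa [smul_eq_mul, Finset.card_univ] at h2
  obtain ⟨w, hw0, hw⟩ := hB R W hW (Σ j, {φ : ι j → Fin (k + 1) // Φ j φ}) hcard
    (fun t => {i : ι t.1 // t.2.1 i = Fin.last k}) (by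
      rintro ⟨j, φ, hφ⟩
      obtain ⟨⟨i, hi⟩, h2⟩ := hΦ j φ hφ
      refine ⟨?_, ?_⟩
      · have : Nonempty {i : ι j // φ i = Fin.last k} := ⟨⟨i, hi⟩⟩
        exact Fintype.card_pos
      · convert h2)
    (fun t => ((F t.1).domDomRestrict (fun i => t.2.1 i = Fin.last k)
      (fun i => (Fin.snoc e 0 : Fin (k + 1) → V) (t.2.1 i.1))).compLinearMap
        (fun _ => W.subtype))
  refine ⟨w, w.2, ?_, ?_⟩
  · intro h
    exact hw0 (Subtype.ext h)
  · intro j φ hφ
    have h1 := hw ⟨j, φ, hφ⟩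
    rw [MultilinearMap.compLinearMap_apply, MultilinearMap.domDomRestrict_apply] at h1
    rw [← h1]
    congr 1
    funext i
    by_cases h : φ i = Fin.last k
    · rw [dif_pos h, h, Fin.snoc_last]
      rfl
    · rw [dif_neg h]
      show (Fin.snoc e (w : V) : Fin (k + 1) → V) (φ i) = (Fin.snoc e 0 : Fin (k + 1) → V) (φ i)
      obtain ⟨q, hq⟩ := Fin.exists_castSucc_eq.2 h
      rw [← hq, Fin.snoc_castSucc, Fin.snoc_castSucc]

end Pool.Agent.Work.MP_b44cb1_al
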