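import Pool.Agent.Work.MP_b44cb1_al.Full.Ext.BrDefs
import Pool.Agent.Work.MP_b44cb1_al.Full.Ext.BrHens

/-!
# MP_b44cb1_al, block EXT, module BrPad (M, Mathlib only)

Over `ℚ_[p]` every diagonal form of degree `d`, `1 ≤ d < p`, in `d ^ 2 + 1` variables has a
nontrivial zero.

PROOF. If `a i₀ = 0` take `x = Pi.single i₀ 1` (all terms vanish: `0 ^ d = 0` as `d ≥ 1`). Otherwise
every `a i ≠ 0`, write `a i = (p : ℚ_[p]) ^ (v i) * u i` with `v i : ℤ` the valuation and `u i` of norm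
`1`, i.e. a unit of `ℤ_[p]`. The map `i ↦ v i mod d` (values in `Fin d` or `ZMod d`) on a set with
`d ^ 2 + 1 > d * d` elements has a fibre `I` with more than `d` elements
(`Fintype.exists_lt_card_fiber_of_mul_lt_card` or the `Finset` version). Let `v₀` be the common
residue, `v i = v₀ + d * t i`, `t i : ℤ`, for `i ∈ I`. By `hensel_diag` applied to the subtype `I` there
is `z : I → ℤ_[p]`, `z ≠ 0`, with `∑ u i * z i ^ d = 0`. Put `x i = p ^ (- t i) * z i` for `i ∈ I`, `x i = 0`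
for `i ∉ I`. Then `a i * x i ^ d = p ^ v₀ * (u i * z i ^ d)` for `i ∈ I`, and the sum is `0`.
-/

set_option autoImplicit false

namespace Pool.Agent.Work.MP_b44cb1_al

theorem diag_padic (p : ℕ) [Fact p.Prime] (d : ℕ) (hd : 1 ≤ d) (hdp : d < p) :
    DiagZ ℚ_[p] d (d ^ 2 + 1) := by
  classical
  intro a
  have hp0 : (p : ℚ_[p]) ≠ 0 := by
    have := (Fact.out : p.Prime).ne_zero
    exact_mod_cast this
  by_cases h0 : ∃ i, a i = 0
  · obtain ⟨i₀, hi₀⟩ := h0
    refine ⟨Pi.single i₀ 1, ?_, ?_⟩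
    · intro h
      have := congrFun h i₀
      rw [Pi.single_eq_same] at this
      exact one_ne_zero this
    · apply Finset.sum_eq_zero
      intro i _
      by_cases hi : i = i₀
      · subst hi
        rw [hi₀, zero_mul]
      · rw [Pi.single_eq_of_ne hi, zero_pow (by omega), mul_zero]
  · push Not at h0
    set v : Fin (d ^ 2 + 1) → ℤ := fun i => (a i).valuation with hv
    have hfac : ∀ i, ∃ u : ℤ_[p], IsUnit u ∧ a i = (p : ℚ_[p]) ^ (v i) * (u : ℚ_[p]) := by
      intro i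
      have hn : ‖a i * (p : ℚ_[p]) ^ (-(v i))‖ = 1 := by
        rw [norm_mul, Padic.norm_eq_zpow_neg_valuation (h0 i), Padic.norm_p_zpow]
        rw [← zpow_add₀ (by exact_mod_cast (Fact.out : p.Prime).ne_zero)]
        simp [hv]
      refine ⟨⟨a i * (p : ℚ_[p]) ^ (-(v i)), hn.le⟩, ?_, ?_⟩
      · exact PadicInt.isUnit_iff.mpr hn
      · show a i = (p : ℚ_[p]) ^ (v i) * (a i * (p : ℚ_[p]) ^ (-(v i)))
        rw [mul_comm (a i), ← mul_assoc, ← zpow_add₀ hp0]
        simp
    choose u hu hau using hfac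
    -- pigeonhole
    have hpig : ∃ c : Fin d, d < (Finset.univ.filter (fun i : Fin (d ^ 2 + 1) =>
        (⟨(v i % (d : ℤ)).toNat, by
          have h1 : 0 ≤ v i % (d : ℤ) := Int.emod_nonneg _ (by omega)
          have h2 : v i % (d : ℤ) < d := Int.emod_lt_of_pos _ (by omega)
          omega⟩ : Fin d) = c)).card := by
      have := Fintype.exists_lt_card_fiber_of_mul_lt_card (n := d) (fun i : Fin (d ^ 2 + 1) =>
        (⟨(v i % (d : ℤ)).toNat, by
          have h1 : 0 ≤ v i % (d : ℤ) := Int.emod_nonneg _ (by omega)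
          have h2 : v i % (d : ℤ) < d := Int.emod_lt_of_pos _ (by omega)
          omega⟩ : Fin d)) (by
        rw [Fintype.card_fin, Fintype.card_fin]
        have : d ^ 2 = d * d := pow_two d
        omega)
      exact this
    obtain ⟨c, hc⟩ := hpig
    set I := Finset.univ.filter (fun i : Fin (d ^ 2 + 1) =>
        (⟨(v i % (d : ℤ)).toNat, by
          have h1 : 0 ≤ v i % (d : ℤ) := Int.emod_nonneg _ (by omega)
          have h2 : v i % (d : ℤ) < d := Int.emod_lt_of_pos _ (by omega)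
          omega⟩ : Fin d) = c) with hI
    have hIv : ∀ i ∈ I, v i = (c : ℤ) + d * (v i / d) := by
      intro i hi
      have h1 := (Finset.mem_filter.mp hi).2
      have h2 := congrArg Fin.val h1
      simp only at h2
      have h3 : 0 ≤ v i % (d : ℤ) := Int.emod_nonneg _ (by omega)
      have h4 := Int.emod_add_mul_ediv (v i) d
      have h5 : v i % (d : ℤ) = (c : ℤ) := by
        rw [← h2, Int.toNat_of_nonneg h3]
      rw [h5] at h4
      exact h4.symm
    obtain ⟨z, hz0, hz⟩ := hensel_diag p d hd hdp (ι := {i // i ∈ I}) (by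
      rw [Fintype.card_coe]
      exact hc) (fun i => u i.1) (fun i => hu i.1)
    refine ⟨fun i => if h : i ∈ I then (p : ℚ_[p]) ^ (-(v i / d)) * (z ⟨i, h⟩ : ℚ_[p]) else 0,
      ?_, ?_⟩
    · intro h
      obtain ⟨⟨i, hi⟩, hzi⟩ := Function.ne_iff.mp hz0
      have h1 := congrFun h i
      simp only [Pi.zero_apply] at h1
      rw [dif_pos hi] at h1
      rcases mul_eq_zero.mp h1 with h2 | h2
      · exact zpow_ne_zero _ hp0 h2
      · apply hzi
        exact PadicInt.ext h2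
    · have h1 : ∀ i : Fin (d ^ 2 + 1), a i * (if h : i ∈ I then (p : ℚ_[p]) ^ (-(v i / d)) *
          (z ⟨i, h⟩ : ℚ_[p]) else 0) ^ d = if h : i ∈ I then
          (p : ℚ_[p]) ^ (c : ℤ) * ((u i : ℚ_[p]) * (z ⟨i, h⟩ : ℚ_[p]) ^ d) else 0 := by
        intro i
        by_cases hi : i ∈ I
        · rw [dif_pos hi, dif_pos hi, hau i, mul_pow]
          have h2 : (p : ℚ_[p]) ^ v i = (p : ℚ_[p]) ^ (c : ℤ) * ((p : ℚ_[p]) ^ (v i / d)) ^ d := by
            conv_lhs => rw [hIv i hi]
            rw [zpow_add₀ hp0, mul_comm (d : ℤ), zpow_mul,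
              zpow_natCast ((p : ℚ_[p]) ^ (v i / (d : ℤ))) d]
          rw [h2, zpow_neg, inv_pow]
          have h3 : ((p : ℚ_[p]) ^ (v i / d)) ^ d ≠ 0 := pow_ne_zero _ (zpow_ne_zero _ hp0)
          field_simp
        · rw [dif_neg hi, dif_neg hi, zero_pow (by omega), mul_zero]
      rw [Finset.sum_congr rfl (fun i _ => h1 i)]
      have h2 : ∑ i : Fin (d ^ 2 + 1), (if h : i ∈ I then
          (p : ℚ_[p]) ^ (c : ℤ) * ((u i : ℚ_[p]) * (z ⟨i, h⟩ : ℚ_[p]) ^ d) else 0) =
          ∑ i : {i // i ∈ I}, (p : ℚ_[p]) ^ (c : ℤ) * ((u i.1 : ℚ_[p]) * (z i : ℚ_[p]) ^ d) := by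
        rw [Finset.univ_eq_attach, Finset.sum_attach_eq_sum_dite I
          (fun i : {i // i ∈ I} => (p : ℚ_[p]) ^ (c : ℤ) * ((u i.1 : ℚ_[p]) *
            (z i : ℚ_[p]) ^ d))]
      rw [h2, ← Finset.mul_sum]
      have h3 : ∑ i : {i // i ∈ I}, ((u i.1 : ℚ_[p]) * (z i : ℚ_[p]) ^ d) =
          PadicInt.Coe.ringHom (∑ i : {i // i ∈ I}, u i.1 * z i ^ d) := by
        rw [map_sum]
        apply Finset.sum_congr rfl
        intro i _
        rw [map_mul, map_pow]
        rfl
      rw [h3, hz]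
      simp

end Pool.Agent.Work.MP_b44cb1_al
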