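import Pool.Agent.Work.MP_b44cb1_al.Full.Ext.BrDefs

/-!
# MP_b44cb1_al, block EXT, module BrSys (M, Mathlib only)

Systems of diagonal equations of the same degree: blocks.

PROOF. Induction on `R` (for all `J`, `ι`, `a`). `DiagZ K d D` forces `D ≥ 1` (there is no nonzero
function on `Fin 0`), so `1 ≤ D ^ R ≤ card ι` and `ι` is nonempty. If `J` is empty take `x = 1`
(constant). This covers `R = 0`. Let `R = R' + 1` and `j₀ : J`. `J' := {j // j ≠ j₀}` has at most `R'`
elements. As `card (Fin (D ^ R') × Fin D) = D ^ (R' + 1) ≤ card ι` there is an embedding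
`e : Fin (D ^ R') × Fin D ↪ ι`. For every block `β : Fin (D ^ R')` the hypothesis `DiagZ` gives
`z β : Fin D → K`, `z β ≠ 0`, `∑ δ, a j₀ (e (β, δ)) * z β δ ^ d = 0`. For `j : J'` put
`b j β := ∑ δ, a j (e (β, δ)) * z β δ ^ d`. By induction there is `y : Fin (D ^ R') → K`, `y ≠ 0`, with
`∑ β, b j β * y β ^ d = 0` for all `j : J'`. Put `x i = y β * z β δ` if `i = e (β, δ)` and `x i = 0` if `i` is
not in the range of `e`. Then `∑ i, a j i * x i ^ d = ∑ β, y β ^ d * ∑ δ, a j (e (β,δ)) * z β δ ^ d`,
which is `0` for `j = j₀` and for `j ≠ j₀`; `x ≠ 0` because `y β ≠ 0` and `z β δ ≠ 0` for some `β`, `δ`.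
-/

set_option autoImplicit false

namespace Pool.Agent.Work.MP_b44cb1_al

theorem diag_sys (K : Type) [Field K] (d D : ℕ) (hd : 1 ≤ d) (h : DiagZ K d D) (R : ℕ)
    {J : Type} [Fintype J] (hJ : Fintype.card J ≤ R) {ι : Type} [Fintype ι]
    (hι : D ^ R ≤ Fintype.card ι) (a : J → ι → K) :
    ∃ x : ι → K, x ≠ 0 ∧ ∀ j, ∑ i, a j i * x i ^ d = 0 := by
  classical
  have hD : 1 ≤ D := by
    by_contra hcon
    have hD0 : D = 0 := by omega
    subst hD0
    obtain ⟨x, hx, _⟩ := h (fun _ => 0)
    exact hx (Subsingleton.elim _ _)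
  induction R generalizing J ι with
  | zero =>
    have hne : Nonempty ι := by
      apply Fintype.card_pos_iff.mp
      have : D ^ 0 = 1 := pow_zero _
      omega
    have hJe : IsEmpty J := Fintype.card_eq_zero_iff.mp (by omega)
    refine ⟨fun _ => 1, ?_, fun j => (hJe.false j).elim⟩
    intro h0
    obtain ⟨i⟩ := hne
    exact one_ne_zero (congrFun h0 i)
  | succ R ih =>
    by_cases hJn : IsEmpty J
    · have hne : Nonempty ι := by
        apply Fintype.card_pos_iff.mp
        have : 0 < D ^ (R + 1) := pow_pos (by omega) _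
        omega
      refine ⟨fun _ => 1, ?_, fun j => (hJn.false j).elim⟩
      intro h0
      obtain ⟨i⟩ := hne
      exact one_ne_zero (congrFun h0 i)
    · rw [not_isEmpty_iff] at hJn
      obtain ⟨j₀⟩ := hJn
      have hcard : Fintype.card (Fin (D ^ R) × Fin D) ≤ Fintype.card ι := by
        rw [Fintype.card_prod, Fintype.card_fin, Fintype.card_fin, ← pow_succ]
        exact hι
      obtain ⟨e⟩ := Function.Embedding.nonempty_of_card_le hcard
      choose z hz0 hz using fun β : Fin (D ^ R) => h (fun δ => a j₀ (e (β, δ)))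
      have hJ' : Fintype.card {j : J // j ≠ j₀} ≤ R := by
        have h1 := Fintype.card_subtype_compl (fun j : J => j = j₀)
        have h2 : Fintype.card {j : J // j = j₀} = 1 := Fintype.card_subtype_eq j₀
        rw [h2] at h1
        have h3 : Fintype.card {j : J // j ≠ j₀} = Fintype.card J - 1 := h1
        omega
      obtain ⟨y, hy0, hy⟩ := ih hJ' (ι := Fin (D ^ R)) (by rw [Fintype.card_fin])
        (fun j β => ∑ δ, a j.1 (e (β, δ)) * z β δ ^ d)
      set w : Fin (D ^ R) × Fin D → K := fun q => y q.1 * z q.1 q.2 with hw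
      set x : ι → K := fun i => if hi : ∃ q, e q = i then w hi.choose else 0 with hx
      have hxe : ∀ q, x (e q) = w q := by
        intro q
        have hq : ∃ q', e q' = e q := ⟨q, rfl⟩
        simp only [hx]
        rw [dif_pos hq]
        congr 1
        exact e.injective hq.choose_spec
      have hx0 : ∀ i, (¬ ∃ q, e q = i) → x i = 0 := by
        intro i hi
        simp only [hx]
        rw [dif_neg hi]
      have hsum : ∀ j, ∑ i, a j i * x i ^ d =
          ∑ β, (∑ δ, a j (e (β, δ)) * z β δ ^ d) * y β ^ d := by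
        intro j
        have h1 : ∑ i, a j i * x i ^ d = ∑ q : Fin (D ^ R) × Fin D, a j (e q) * x (e q) ^ d := by
          rw [← Finset.sum_map Finset.univ e (fun i => a j i * x i ^ d)]
          symm
          apply Finset.sum_subset (Finset.subset_univ _)
          intro i _ hi
          rw [hx0 i ?_, zero_pow (by omega), mul_zero]
          rintro ⟨q, hq⟩
          exact hi (Finset.mem_map.mpr ⟨q, Finset.mem_univ _, hq⟩)
        rw [h1, Fintype.sum_prod_type]
        apply Finset.sum_congr rfl
        intro β _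
        rw [Finset.sum_mul]
        apply Finset.sum_congr rfl
        intro δ _
        rw [hxe]
        simp only [hw]
        ring
      refine ⟨x, ?_, ?_⟩
      · intro h0
        obtain ⟨β, hβ⟩ := Function.ne_iff.mp hy0
        obtain ⟨δ, hδ⟩ := Function.ne_iff.mp (hz0 β)
        have h1 := congrFun h0 (e (β, δ))
        rw [hxe] at h1
        exact mul_ne_zero hβ hδ h1
      · intro j
        rw [hsum]
        by_cases hj : j = j₀
        · subst hj
          apply Finset.sum_eq_zero
          intro β _
          rw [hz, zero_mul]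
        · exact hy ⟨j, hj⟩

end Pool.Agent.Work.MP_b44cb1_al
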