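import Pool.Agent.Work.MP_b44cb1_al.ResA

/-!
# MP_b44cb1_al, block EXT, module ChExt (M) : extension of characters

PROOF. `D` is normal in `E`: for `e ∈ E`, `d ∈ D`, `e d e⁻¹ = ⁅e, d⁆ d` with `⁅e, d⁆ ∈ ⁅E, E⁆ ≤ D`.
`Q := ↥E ⧸ D.subgroupOf E` is commutative (`⁅E, E⁆ ≤ D`). Let `S' := S.subgroupOf E`, and
`lam' : ↥S' →* Multiplicative (AddCircle 1)`, `s ↦ lam s`. Let `U` be the image of `S'` in `Q`
(`S'.map (QuotientGroup.mk' _)`). `lam'` is trivial on the kernel of `S' → U` (elements of `S ⊓ D`,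
`hlam`), so there is `μ : ↥U →* Multiplicative (AddCircle 1)` with `μ (class of s) = lam' s` (e.g. via
`QuotientGroup.lift` and `QuotientGroup.quotientKerEquivOfSurjective`, or
`MonoidHom.liftOfSurjective`-like tools). `AddCircle (1 : ℚ)` is an injective abelian group: Mathlib has
`CharacterModule.dual_surjective_of_injective` (`CharacterModule A = (A →+ AddCircle (1 : ℚ))`), applied
to the ℤ-linear inclusion of `Additive ↥U` into `Additive Q` (give `Q` its `CommGroup` structure with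
`letI`), so `μ` extends to `Q`. Compose with `E → Q`.
-/

set_option autoImplicit false

namespace Pool.Agent.Work.MP_b44cb1_al

open Subgroup
open scoped commutatorElement

private theorem ext_comm {Q : Type} [CommGroup Q] (U : Subgroup Q)
    (μ : ↥U →* Multiplicative (AddCircle (1 : ℚ))) :
    ∃ ν : Q →* Multiplicative (AddCircle (1 : ℚ)), ∀ u : ↥U, ν u = μ u := by
  let i : Additive ↥U →ₗ[ℤ] Additive Q := (MonoidHom.toAdditive U.subtype).toIntLinearMap
  have hi : Function.Injective i := fun a b h => Subtype.ext h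
  obtain ⟨ν, hν⟩ := CharacterModule.dual_surjective_of_injective i hi
    (MonoidHom.toAdditiveLeft μ)
  refine ⟨MonoidHom.toAdditiveLeft.symm ν, fun u => ?_⟩
  have h1 := DFunLike.congr_fun hν (Additive.ofMul u)
  exact h1

theorem char_extend {P : Type} [Group P] (D E S : Subgroup P) (hDE : D ≤ E)
    (hcomm : ⁅E, E⁆ ≤ D) (lam : ↥S →* Multiplicative (AddCircle (1 : ℚ)))
    (hlam : ∀ s : ↥S, (s : P) ∈ D → lam s = 1) :
    ∃ θ : ↥E →* Multiplicative (AddCircle (1 : ℚ)),
      (∀ g : ↥E, (g : P) ∈ D → θ g = 1) ∧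
      ∀ (g : ↥E) (hg : (g : P) ∈ S), θ g = lam ⟨(g : P), hg⟩ := by
  have hn : (D.subgroupOf E).Normal := by
    refine ⟨fun d hd e => ?_⟩
    rw [mem_subgroupOf] at hd ⊢
    have h1 : ⁅(e : P), (d : P)⁆ ∈ D := hcomm (commutator_mem_commutator e.2 d.2)
    have h2 : ((e * d * e⁻¹ : ↥E) : P) = ⁅(e : P), (d : P)⁆ * d := by
      rw [commutatorElement_def]
      push_cast
      group
    rw [h2]
    exact D.mul_mem h1 hd
  let _ : CommGroup (↥E ⧸ D.subgroupOf E) :=
    { (inferInstance : Group (↥E ⧸ D.subgroupOf E)) with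
      mul_comm := by
        intro a b
        obtain ⟨a, rfl⟩ := QuotientGroup.mk_surjective a
        obtain ⟨b, rfl⟩ := QuotientGroup.mk_surjective b
        rw [← QuotientGroup.mk_mul, ← QuotientGroup.mk_mul, QuotientGroup.eq, mem_subgroupOf]
        have h1 : ⁅(b : P)⁻¹, (a : P)⁻¹⁆ ∈ D :=
          hcomm (commutator_mem_commutator (E.inv_mem b.2) (E.inv_mem a.2))
        have h2 : (((a * b)⁻¹ * (b * a) : ↥E) : P) = ⁅(b : P)⁻¹, (a : P)⁻¹⁆ := by
          rw [commutatorElement_def]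
          push_cast
          group
        rw [h2]
        exact h1 }
  set π : ↥E →* ↥E ⧸ D.subgroupOf E := QuotientGroup.mk' (D.subgroupOf E) with hπ
  set S' : Subgroup ↥E := S.subgroupOf E with hS'
  set f : ↥S' →* ↥E ⧸ D.subgroupOf E := π.comp S'.subtype with hf
  let lam' : ↥S' →* Multiplicative (AddCircle (1 : ℚ)) :=
    { toFun := fun s => lam ⟨((s : ↥E) : P), mem_subgroupOf.1 s.2⟩
      map_one' := by
        rw [← map_one lam]
        rfl
      map_mul' := fun a b => by
        rw [← map_mul lam]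
        rfl }
  have hker : ∀ s ∈ f.ker, lam' s = 1 := by
    intro s hs
    refine hlam _ ?_
    have h1 : π (s : ↥E) = 1 := hs
    rw [hπ, QuotientGroup.mk'_apply, QuotientGroup.eq_one_iff, mem_subgroupOf] at h1
    exact h1
  let μ : ↥f.range →* Multiplicative (AddCircle (1 : ℚ)) :=
    (QuotientGroup.lift f.ker lam' hker).comp (QuotientGroup.quotientKerEquivRange f).symm.toMonoidHom
  have hμ : ∀ s : ↥S', μ ⟨f s, s, rfl⟩ = lam' s := by
    intro s
    have h1 : (QuotientGroup.quotientKerEquivRange f).symm ⟨f s, s, rfl⟩ =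
        (QuotientGroup.mk s : ↥S' ⧸ f.ker) := by
      rw [MulEquiv.symm_apply_eq]
      rfl
    show (QuotientGroup.lift f.ker lam' hker) ((QuotientGroup.quotientKerEquivRange f).symm ⟨f s, s, rfl⟩) = _
    rw [h1]
    rfl
  obtain ⟨ν, hν⟩ := ext_comm f.range μ
  refine ⟨ν.comp π, fun g hg => ?_, fun g hg => ?_⟩
  · have h1 : π g = 1 := by
      rw [hπ, QuotientGroup.mk'_apply, QuotientGroup.eq_one_iff, mem_subgroupOf]
      exact hg
    rw [MonoidHom.comp_apply, h1, map_one]
  · have h1 := hν ⟨f ⟨g, mem_subgroupOf.2 hg⟩, ⟨g, mem_subgroupOf.2 hg⟩, rfl⟩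
    rw [hμ] at h1
    exact h1

end Pool.Agent.Work.MP_b44cb1_al
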