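import Mathlib

/-!
# MP_b44cb1_al, block EXT, module ChForm (S-M, Mathlib only) : integer coefficients of a form

`F` is a multilinear map in `c ≥ 1` variables on an abelian group `M` killed by `p ^ e`, with values in
`ℚ/ℤ`. For vectors `m i x` (slot `i`, index `x`) the values `F (m 0 (ψ 0), …)` are `a ψ / p ^ e` with
integers `a ψ`, and if `p ^ e` divides `∑ ψ, a ψ ∏ y i (ψ i)` then `F` vanishes at the combinations.

PROOF. `p ^ e • F v = F (p ^ e • v 0, v 1, …) = F (0, …) = 0` (`c ≥ 1`, `MultilinearMap.map_update_smul`).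
Every `t : AddCircle (1 : ℚ)` is the class of a rational `q` (`QuotientAddGroup.mk_surjective`), and
`p ^ e • t = 0` means `p ^ e * q = a` is an integer (`AddCircle.coe_eq_zero_iff`), so `t` is the class of
`a / p ^ e`. Choose `a ψ` with `F (fun i => m i (ψ i)) = ((a ψ / p ^ e : ℚ) : AddCircle 1)`. Then
`F (fun i => ∑ x, y i x • m i x) = ∑ ψ, (∏ i, y i (ψ i)) • F (fun i => m i (ψ i))`
(`MultilinearMap.map_sum`, `MultilinearMap.map_smul_univ`) is the class of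
`(∑ ψ, a ψ * ∏ i, y i (ψ i)) / p ^ e`, an integer.
-/

set_option autoImplicit false

namespace Pool.Agent.Work.MP_b44cb1_al

theorem form_int (p e c ν : ℕ) (hp : 0 < p) (hc : 1 ≤ c) {M : Type} [AddCommGroup M]
    (hM : ∀ m : M, (p ^ e) • m = 0)
    (F : MultilinearMap ℤ (fun _ : Fin c => M) (AddCircle (1 : ℚ))) (m : Fin c → Fin ν → M) :
    ∃ a : (Fin c → Fin ν) → ℤ, ∀ y : Fin c → Fin ν → ℤ,
      (p : ℤ) ^ e ∣ ∑ ψ : Fin c → Fin ν, a ψ * ∏ i, y i (ψ i) →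
        F (fun i => ∑ x, y i x • m i x) = 0 := by
  classical
  have hpe : ((p : ℚ) ^ e) ≠ 0 := pow_ne_zero _ (by exact_mod_cast hp.ne')
  have htor : ∀ v : Fin c → M, (((p ^ e : ℕ) : ℤ)) • F v = 0 := by
    intro v
    have h1 := F.map_update_smul v ⟨0, hc⟩ (((p ^ e : ℕ) : ℤ)) (v ⟨0, hc⟩)
    rw [Function.update_eq_self] at h1
    rw [← h1]
    have h2 : (((p ^ e : ℕ) : ℤ)) • v ⟨0, hc⟩ = 0 := by
      rw [natCast_zsmul]
      exact hM _
    rw [h2]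
    exact F.map_update_zero v ⟨0, hc⟩
  have hex : ∀ ψ : Fin c → Fin ν, ∃ a : ℤ,
      F (fun i => m i (ψ i)) = (((a : ℚ) / (p : ℚ) ^ e : ℚ) : AddCircle (1 : ℚ)) := by
    intro ψ
    obtain ⟨q, hq⟩ := QuotientAddGroup.mk_surjective (F (fun i => m i (ψ i)))
    have h1 := htor (fun i => m i (ψ i))
    rw [← hq] at h1
    have h2 : (((((p ^ e : ℕ) : ℤ)) • q : ℚ) : AddCircle (1 : ℚ)) = 0 := by
      rw [AddCircle.coe_zsmul]
      exact h1
    obtain ⟨n, hn⟩ := (AddCircle.coe_eq_zero_iff (1 : ℚ)).1 h2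
    refine ⟨n, ?_⟩
    rw [← hq]
    have h3 : q = (n : ℚ) / (p : ℚ) ^ e := by
      rw [eq_div_iff hpe]
      rw [zsmul_eq_mul, mul_one, zsmul_eq_mul] at hn
      push_cast at hn
      rw [hn, mul_comm]
    rw [← h3]
  choose a ha using hex
  refine ⟨a, ?_⟩
  rintro y ⟨N, hN⟩
  rw [F.map_sum (fun i x => y i x • m i x)]
  have h1 : ∀ ψ : Fin c → Fin ν, F (fun i => y i (ψ i) • m i (ψ i)) =
      ((((a ψ * ∏ i, y i (ψ i) : ℤ) : ℚ) / (p : ℚ) ^ e : ℚ) : AddCircle (1 : ℚ)) := by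
    intro ψ
    rw [F.map_smul_univ (fun i => y i (ψ i)) (fun i => m i (ψ i)), ha, ← AddCircle.coe_zsmul]
    congr 1
    rw [zsmul_eq_mul]
    push_cast
    ring
  rw [Finset.sum_congr rfl (fun ψ _ => h1 ψ)]
  have h2 : (∑ ψ : Fin c → Fin ν,
      ((((a ψ * ∏ i, y i (ψ i) : ℤ) : ℚ) / (p : ℚ) ^ e : ℚ) : AddCircle (1 : ℚ))) =
      (((∑ ψ : Fin c → Fin ν, ((a ψ * ∏ i, y i (ψ i) : ℤ) : ℚ) / (p : ℚ) ^ e) : ℚ) :
        AddCircle (1 : ℚ)) :=
    (map_sum (QuotientAddGroup.mk' (AddSubgroup.zmultiples (1 : ℚ))) _ _).symm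
  rw [h2, AddCircle.coe_eq_zero_iff]
  refine ⟨N, ?_⟩
  rw [← Finset.sum_div, ← Int.cast_sum, hN, eq_div_iff hpe, zsmul_eq_mul, mul_one]
  push_cast
  ring

end Pool.Agent.Work.MP_b44cb1_al
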