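import Pool.Agent.Work.MP_b44cb1_al.ResA

/-!
# MP_b44cb1_al, block EXT, module ChMult (M) : commutators are multilinear

A homomorphism `θ` on `lcs A n` killing `lcs A (n+1)` is described by a multilinear map on
`Additive (Abelianization A)`: for every `X ⊆ A` the values of `θ` on `lcs (closure X) n` are in the
subgroup generated by the values of `F` on `X`. (`F (x_0,…,x_n) = θ [[x_0,x_1],…,x_n]`.)

PROOF. Induction on `n`, for all `T`.
`n = 0`: `lcs A 0 = A` (`lcs_zero`, up to the coercion), `lcs A 1 = ⁅A, A⁆`; `θ` is a homomorphism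
`A →* Multiplicative T` into a commutative group, so it factors through `Abelianization A`
(`Abelianization.lift`); `F x = θ' (x 0)` (e.g. `LinearMap.compMultilinearMap` of the ℤ-linear map
`AddMonoidHom.toIntLinearMap` with `MultilinearMap.ofSubsingleton`, or build it by hand). For
`g ∈ closure X` use `Subgroup.closure_induction`.
`n → n + 1`: let `θ` be given on `lcs A (n+1) = ⁅lcs A n, A⁆`, killing `lcs A (n+2)`. Let
`T' := Additive (Abelianization A) →ₗ[ℤ] T`. For `g ∈ lcs A n` the map `x ↦ θ ⁅g, x⁆` (`x : A`) is a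
homomorphism: `⁅g, x y⁆ = ⁅g, x⁆ * (x ⁅g, y⁆ x⁻¹)` and `θ (x c x⁻¹) = θ c` for `c ∈ lcs A (n+1)`, since
`x c x⁻¹ c⁻¹ = ⁅x, c⁆ ∈ lcs A (n+2)`. So it induces `θ' g : T'`. `g ↦ θ' g` is a homomorphism:
`⁅g g', x⁆ = g ⁅g', x⁆ g⁻¹ * ⁅g, x⁆`; and `θ'` kills `lcs A (n+1)`, because for `g` in it
`⁅g, x⁆ ∈ lcs A (n+2)`. By induction there is `F' : MultilinearMap ℤ (fun _ : Fin (n+1) => _) T'`; let
`F := F'.uncurryRight` (`F (x_0,…,x_(n+1)) = F' (x_0,…,x_n) x_(n+1)`, `MultilinearMap.uncurryRight`). Let
`X ⊆ A`, `C = closure X`, `H` = the subgroup of `T` generated by the values of `F` on `X`. For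
`g ∈ lcs C n` and `x ∈ X`: `θ' g` is in the subgroup generated by the values `F' (x_0,…,x_n)`, `x_i ∈ X`,
so `θ ⁅g, x⁆ = θ' g (of x) ∈ H` (evaluation at `of x` is a homomorphism `T' → T`). For fixed `g` the
map `x ↦ θ ⁅g, x⁆ = θ' g (of x)` is a homomorphism on `A`, so `θ ⁅g, x⁆ ∈ H` for all `x ∈ C`. As
`lcs C (n+1) = ⁅lcs C n, C⁆` is generated by these commutators, `θ` maps it into `H`
(`lcs C n ≤ lcs A n` by `lcs_mono`).
-/

set_option autoImplicit false

namespace Pool.Agent.Work.MP_b44cb1_al

open Subgroup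
open scoped commutatorElement

private theorem exists_lin {A : Type} [Group A] {T : Type} [AddCommGroup T]
    (f : A →* Multiplicative T) : ∃ L : Additive (Abelianization A) →ₗ[ℤ] T,
      ∀ x, L (Additive.ofMul (Abelianization.of x)) = Multiplicative.toAdd (f x) :=
  ⟨(MonoidHom.toAdditiveLeft (Abelianization.lift f)).toIntLinearMap, fun x => rfl⟩

private theorem lin_ext {A : Type} [Group A] {T : Type} [AddCommGroup T]
    {L L' : Additive (Abelianization A) →ₗ[ℤ] T}
    (h : ∀ x, L (Additive.ofMul (Abelianization.of x)) =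
      L' (Additive.ofMul (Abelianization.of x))) : L = L' := by
  apply LinearMap.ext
  intro y
  have : ∀ z : Abelianization A, L (Additive.ofMul z) = L' (Additive.ofMul z) := by
    intro z
    refine QuotientGroup.induction_on z ?_
    exact h
  exact this (Additive.toMul y)

/-- if a homomorphism on `B` sends the elements of `X` to `H` it sends `closure X` to `H`. -/
private theorem closure_hom {P : Type} [Group P] {B : Subgroup P} {T : Type} [AddCommGroup T]
    (f : ↥B →* Multiplicative T) (H : AddSubgroup T) {X : Set P} (hXB : X ⊆ B)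
    (h : ∀ (x : P) (hx : x ∈ X), Multiplicative.toAdd (f ⟨x, hXB hx⟩) ∈ H) (g : ↥B)
    (hg : (g : P) ∈ closure X) : Multiplicative.toAdd (f g) ∈ H := by
  let K : Subgroup ↥B :=
    { carrier := {b | Multiplicative.toAdd (f b) ∈ H}
      one_mem' := by
        show Multiplicative.toAdd (f 1) ∈ H
        rw [map_one]
        exact H.zero_mem
      mul_mem' := by
        intro a b ha hb
        show Multiplicative.toAdd (f (a * b)) ∈ H
        rw [map_mul]
        exact H.add_mem ha hb
      inv_mem' := by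
        intro a ha
        show Multiplicative.toAdd (f a⁻¹) ∈ H
        rw [map_inv]
        exact H.neg_mem ha }
  have hle : closure X ≤ K.map B.subtype := by
    rw [closure_le]
    intro x hx
    exact ⟨⟨x, hXB hx⟩, h x hx, rfl⟩
  obtain ⟨b, hb, hbg⟩ := hle hg
  have : b = g := Subtype.ext hbg
  rw [← this]
  exact hb

theorem comm_mult {P : Type} [Group P] (A : Subgroup P) (n : ℕ) {T : Type} [AddCommGroup T]
    (θ : ↥(lcs A n) →* Multiplicative T)
    (hθ : ∀ g : ↥(lcs A n), (g : P) ∈ lcs A (n + 1) → θ g = 1) :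
    ∃ F : MultilinearMap ℤ (fun _ : Fin (n + 1) => Additive (Abelianization ↥A)) T,
      ∀ X : Set P, X ⊆ A → ∀ g : ↥(lcs A n), (g : P) ∈ lcs (closure X) n →
        Multiplicative.toAdd (θ g) ∈ AddSubgroup.closure
          {t : T | ∃ x : Fin (n + 1) → ↥A, (∀ i, (x i : P) ∈ X) ∧
            t = F (fun i => Additive.ofMul (Abelianization.of (x i)))} := by
  induction n generalizing T with
  | zero =>
    obtain ⟨L, hL⟩ := exists_lin (A := ↥A) (T := T) θ
    have hs : Subsingleton (Fin (0 + 1)) := inferInstanceAs (Subsingleton (Fin 1))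
    refine ⟨MultilinearMap.ofSubsingleton ℤ _ T (0 : Fin (0 + 1)) L, ?_⟩
    intro X hX g hg
    refine closure_hom (B := A) θ _ hX ?_ g hg
    intro x hx
    refine AddSubgroup.subset_closure ⟨fun _ => ⟨x, hX hx⟩, fun _ => hx, ?_⟩
    rw [MultilinearMap.ofSubsingleton_apply_apply]
    exact (hL ⟨x, hX hx⟩).symm
  | succ n ih =>
    have hnA : ∀ {g : P}, g ∈ lcs A n → g ∈ A := fun h => lcs_le A n h
    have hcm : ∀ {m : ℕ} {g x : P}, g ∈ lcs A m → x ∈ A → ⁅g, x⁆ ∈ lcs A (m + 1) := by
      intro m g x hg hx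
      rw [lcs_succ]
      exact commutator_mem_commutator hg hx
    -- invariance under conjugation
    have hconj : ∀ (c a : P) (hc : c ∈ lcs A (n + 1)) (_ : a ∈ A),
        ∃ h : a * c * a⁻¹ ∈ lcs A (n + 1), θ ⟨a * c * a⁻¹, h⟩ = θ ⟨c, hc⟩ := by
      intro c a hc ha
      have h1 : ⁅a, c⁆ ∈ lcs A (n + 1 + 1) := by
        rw [← commutatorElement_inv]
        exact inv_mem (hcm hc ha)
      have h2 : ⁅a, c⁆ ∈ lcs A (n + 1) := lcs_anti A (Nat.le_succ _) h1
      have e : a * c * a⁻¹ = ⁅a, c⁆ * c := by
        rw [commutatorElement_def]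
        group
      have h3 : a * c * a⁻¹ ∈ lcs A (n + 1) := by
        rw [e]
        exact mul_mem h2 hc
      refine ⟨h3, ?_⟩
      have h4 : (⟨a * c * a⁻¹, h3⟩ : ↥(lcs A (n + 1))) = ⟨⁅a, c⁆, h2⟩ * ⟨c, hc⟩ := Subtype.ext e
      rw [h4, map_mul, hθ ⟨⁅a, c⁆, h2⟩ h1, one_mul]
    -- the homomorphisms `ψ g`
    let ψ : ↥(lcs A n) → ↥A →* Multiplicative T := fun g =>
      { toFun := fun x => θ ⟨⁅(g : P), (x : P)⁆, hcm g.2 x.2⟩
        map_one' := by
          have : (⟨⁅(g : P), ((1 : ↥A) : P)⁆, hcm g.2 (1 : ↥A).2⟩ : ↥(lcs A (n + 1))) = 1 := by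
            apply Subtype.ext
            simp [commutatorElement_def]
          rw [this, map_one]
        map_mul' := by
          intro x y
          obtain ⟨h1, h2⟩ := hconj ⁅(g : P), (y : P)⁆ x (hcm g.2 y.2) x.2
          rw [← h2, ← map_mul]
          congr 1
          apply Subtype.ext
          show ⁅(g : P), ((x * y : ↥A) : P)⁆ = ⁅(g : P), (x : P)⁆ * ((x : P) * ⁅(g : P), (y : P)⁆ *
            (x : P)⁻¹)
          rw [Subgroup.coe_mul, commutatorElement_def, commutatorElement_def, commutatorElement_def]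
          group }
    have hψ : ∀ (g : ↥(lcs A n)) (x : ↥A),
        ψ g x = θ ⟨⁅(g : P), (x : P)⁆, hcm g.2 x.2⟩ := fun g x => rfl
    have hψmul : ∀ (g g' : ↥(lcs A n)) (x : ↥A), ψ (g * g') x = ψ g x * ψ g' x := by
      intro g g' x
      obtain ⟨h1, h2⟩ := hconj ⁅(g' : P), (x : P)⁆ g (hcm g'.2 x.2) (hnA g.2)
      rw [hψ, hψ, hψ, ← h2, mul_comm, ← map_mul]
      congr 1
      apply Subtype.ext
      show ⁅((g * g' : ↥(lcs A n)) : P), (x : P)⁆ = ((g : P) * ⁅(g' : P), (x : P)⁆ *
            (g : P)⁻¹) * ⁅(g : P), (x : P)⁆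
      rw [Subgroup.coe_mul, commutatorElement_def, commutatorElement_def, commutatorElement_def]
      group
    choose Lf hLf using fun g => exists_lin (ψ g)
    let Θ : ↥(lcs A n) →* Multiplicative (Additive (Abelianization ↥A) →ₗ[ℤ] T) :=
      { toFun := fun g => Multiplicative.ofAdd (Lf g)
        map_one' := by
          have : Lf 1 = 0 := by
            apply lin_ext
            intro x
            rw [hLf, LinearMap.zero_apply, hψ]
            have : (⟨⁅((1 : ↥(lcs A n)) : P), (x : P)⁆, hcm (1 : ↥(lcs A n)).2 x.2⟩ :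
                ↥(lcs A (n + 1))) = 1 := by
              apply Subtype.ext
              simp [commutatorElement_def]
            rw [this, map_one]
            rfl
          rw [this]
          rfl
        map_mul' := by
          intro g g'
          have : Lf (g * g') = Lf g + Lf g' := by
            apply lin_ext
            intro x
            rw [hLf, LinearMap.add_apply, hLf, hLf, hψmul]
            rfl
          rw [this]
          rfl }
    have hΘ : ∀ (g : ↥(lcs A n)) (x : ↥A), Multiplicative.toAdd (Θ g)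
        (Additive.ofMul (Abelianization.of x)) =
        Multiplicative.toAdd (θ ⟨⁅(g : P), (x : P)⁆, hcm g.2 x.2⟩) := fun g x => hLf g x
    obtain ⟨F', hF'⟩ := ih Θ (by
      intro g hg
      have : Lf g = 0 := by
        apply lin_ext
        intro x
        rw [hLf, LinearMap.zero_apply, hψ, hθ _ (hcm hg x.2)]
        rfl
      show Multiplicative.ofAdd (Lf g) = 1
      rw [this]
      rfl)
    refine ⟨MultilinearMap.uncurryRight (M := fun _ => Additive (Abelianization ↥A)) F', ?_⟩
    intro X hX g hg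
    set H := AddSubgroup.closure {t : T | ∃ x : Fin (n + 1 + 1) → ↥A, (∀ i, (x i : P) ∈ X) ∧
      t = MultilinearMap.uncurryRight (M := fun _ => Additive (Abelianization ↥A)) F'
        (fun i => Additive.ofMul (Abelianization.of (x i)))} with hH
    have hCA : closure X ≤ A := (closure_le A).2 hX
    -- commutators with elements of `X`
    have h1 : ∀ u : ↥(lcs A n), (u : P) ∈ lcs (closure X) n → ∀ (x : P) (hx : x ∈ X),
        Multiplicative.toAdd (ψ u ⟨x, hX hx⟩) ∈ H := by
      intro u hu x hx
      have h2 := hF' X hX u hu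
      let E : (Additive (Abelianization ↥A) →ₗ[ℤ] T) →+ T :=
        { toFun := fun L => L (Additive.ofMul (Abelianization.of ⟨x, hX hx⟩))
          map_zero' := rfl
          map_add' := fun _ _ => rfl }
      have h3 : AddSubgroup.closure {t : Additive (Abelianization ↥A) →ₗ[ℤ] T |
          ∃ x : Fin (n + 1) → ↥A, (∀ i, (x i : P) ∈ X) ∧
            t = F' (fun i => Additive.ofMul (Abelianization.of (x i)))} ≤ H.comap E := by
        rw [AddSubgroup.closure_le]
        rintro _ ⟨y, hy, rfl⟩
        refine AddSubgroup.subset_closure ⟨Fin.snoc y ⟨x, hX hx⟩, ?_, ?_⟩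
        · intro i
          refine Fin.lastCases ?_ (fun i => ?_) i
          · rw [Fin.snoc_last]
            exact hx
          · rw [Fin.snoc_castSucc]
            exact hy i
        · rw [MultilinearMap.uncurryRight_apply]
          show F' _ (Additive.ofMul (Abelianization.of ⟨x, hX hx⟩)) = _
          rw [Fin.snoc_last]
          congr 2
          funext i
          show _ = Additive.ofMul (Abelianization.of ((Fin.snoc y ⟨x, hX hx⟩ :
            Fin (n + 1 + 1) → ↥A) i.castSucc))
          rw [Fin.snoc_castSucc]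
      have h4 := h3 h2
      have h5 : E (Multiplicative.toAdd (Θ u)) ∈ H := h4
      rw [hψ, ← hΘ u ⟨x, hX hx⟩]
      exact h5
    -- commutators with elements of the closure
    have h2 : ∀ u : ↥(lcs A n), (u : P) ∈ lcs (closure X) n → ∀ x : ↥A, (x : P) ∈ closure X →
        Multiplicative.toAdd (ψ u x) ∈ H := by
      intro u hu x hx
      exact closure_hom (ψ u) H hX (h1 u hu) x hx
    let K : Subgroup ↥(lcs A (n + 1)) :=
      { carrier := {b | Multiplicative.toAdd (θ b) ∈ H}
        one_mem' := by
          show Multiplicative.toAdd (θ 1) ∈ H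
          rw [map_one]
          exact H.zero_mem
        mul_mem' := by
          intro a b ha hb
          show Multiplicative.toAdd (θ (a * b)) ∈ H
          rw [map_mul]
          exact H.add_mem ha hb
        inv_mem' := by
          intro a ha
          show Multiplicative.toAdd (θ a⁻¹) ∈ H
          rw [map_inv]
          exact H.neg_mem ha }
    have hle : lcs (closure X) (n + 1) ≤ K.map (lcs A (n + 1)).subtype := by
      rw [lcs_succ, commutator_le]
      intro u hu x hx
      have hu' : u ∈ lcs A n := lcs_mono hCA n hu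
      exact ⟨⟨⁅u, x⁆, hcm hu' (hCA hx)⟩, h2 ⟨u, hu'⟩ hu ⟨x, hCA hx⟩ hx, rfl⟩
    obtain ⟨b, hb, hbg⟩ := hle hg
    have : b = g := Subtype.ext hbg
    rw [← this]
    exact hb

end Pool.Agent.Work.MP_b44cb1_al
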