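import Pool.Agent.Work.MP_b44cb1_al.Full.Ext.ChMult
import Pool.Agent.Work.MP_b44cb1_al.Full.Ext.ChExt
import Pool.Agent.Work.MP_b44cb1_al.Full.Ext.ChForm
import Pool.Agent.Work.MP_b44cb1_al.Full.Ext.BrInt

/-!
# MP_b44cb1_al, block EXT, module ChStep (M-L) : one step of the choice lemma

`TA σ w` is the subgroup generated by all `σ g (w i)`.

PROOF. `A := TA σ w`, `E := lcs A n`, `D := lcs A (n+1) = ⁅E, A⁆`; `E ≤ A` (`lcs_le`), so
`⁅E, E⁆ ≤ D ≤ E`. By `char_extend` (with `htriv s`) there are `θ s : ↥E →* Multiplicative (AddCircle 1)`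
killing `D` and equal to `lam s` on `S s ⊓ E`. `comm_mult` gives multilinear `F s` on
`M := Additive (Abelianization A)` in `n + 1` variables. `card P = p ^ e` (`IsPGroup.iff_card`), so
`p ^ e • m = 0` on `M`. For `s : Fin K` and `g : Fin (n+1) → Fin h` apply `form_int` (`c = n + 1`) with the
vectors `m i x := ofMul (of ⟨σ (g i) (w x), _⟩)`: integers `a (s, g) ψ`. Apply `iso_int` with
`J = Fin K × (Fin (n+1) → Fin h)` (cardinality `K * h ^ (n+1)`), `c = n + 1`, `R = K * h ^ (n+1)`, this
`e`, `n := ν`: integers `y i x`, `z i x`. Put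
`w' i := (List.ofFn fun x => w x ^ (y i x)).prod` and `χ' i := ∏ x, χ x ^ (z i x)`.
* `w' i ∈ closure (range w)`, `χ' i ∈ closure (range χ)`: clear.
* dual: `χ' i (w' j)` is `ofAdd` of `∑ x, z i x * y j x` in `ZMod p` (`χ x (w' j) = ofAdd (y j x)`).
* Let `s`, `x ∈ S s`, `x ∈ lcs (TA σ w') n`. `TA σ w' ≤ A`, because `σ g (w' i)` is a product of powers of
  the `σ g (w x)`; so `x ∈ E` (`lcs_mono`) and `lam s x = θ s x`. With `X := range (fun q => σ q.1 (w' q.2))`
  (`X ⊆ A`, `TA σ w' = closure X`), `θ s x` is in the subgroup generated by the values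
  `F s (of x_0, …, of x_n)`, `x_i ∈ X`; each of them is `0`: `x_i = σ (g i) (w' (φ i))` and
  `ofMul (of (σ g (w' l))) = ∑ x, y l x • ofMul (of (σ g (w x)))` (a homomorphism into a commutative group,
  `map_list_prod`), so this is `form_int` for `(s, g)` with the vectors `y (φ i)`, whose divisibility
  hypothesis is the conclusion of `iso_int`. Hence `θ s x = 1`.
-/

set_option autoImplicit false

namespace Pool.Agent.Work.MP_b44cb1_al

open Subgroup

/-- The subgroup generated by all images `σ g (w i)`. -/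
def TA {P : Type} [Group P] {h ν : ℕ} (σ : Fin h → P →* P) (w : Fin ν → P) : Subgroup P :=
  closure (Set.range fun q : Fin h × Fin ν => σ q.1 (w q.2))

theorem ch_step (p : ℕ) [Fact p.Prime] {P : Type} [Group P] [Finite P] (hP : IsPGroup p P)
    (n h K k ν : ℕ) (hn : n + 1 < p) (σ : Fin h → P →* P) (S : Fin K → Subgroup P)
    (lam : ∀ s, ↥(S s) →* Multiplicative (AddCircle (1 : ℚ))) (w : Fin ν → P)
    (χ : Fin ν → P →* Multiplicative (ZMod p))
    (hdual : ∀ i j, χ i (w j) = Multiplicative.ofAdd (if i = j then 1 else 0))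
    (htriv : ∀ s (x : ↥(S s)), (x : P) ∈ lcs (TA σ w) (n + 1) → lam s x = 1)
    (hν : NI (n + 1) (K * h ^ (n + 1)) k ≤ ν) :
    ∃ (w' : Fin k → P) (χ' : Fin k → P →* Multiplicative (ZMod p)),
      (∀ i, w' i ∈ closure (Set.range w)) ∧
      (∀ i, χ' i ∈ closure (Set.range χ)) ∧
      (∀ i j, χ' i (w' j) = Multiplicative.ofAdd (if i = j then 1 else 0)) ∧
      ∀ s (x : ↥(S s)), (x : P) ∈ lcs (TA σ w') n → lam s x = 1 := by
  classical
  set A : Subgroup P := TA σ w with hA
  have hσw : ∀ g x, σ g (w x) ∈ A := fun g x => subset_closure ⟨(g, x), rfl⟩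
  have hEA : lcs A n ≤ A := lcs_le A n
  have hDE : lcs A (n + 1) ≤ lcs A n := lcs_anti A (Nat.le_succ n)
  have hcomm : ⁅lcs A n, lcs A n⁆ ≤ lcs A (n + 1) := by
    rw [lcs_succ]
    exact commutator_mono le_rfl hEA
  choose θ hθD hθS using fun s => char_extend (lcs A (n + 1)) (lcs A n) (S s) hDE hcomm (lam s)
    (fun x hx => htriv s x hx)
  choose F hF using fun s => comm_mult A n (θ s) (hθD s)
  obtain ⟨e, he⟩ := IsPGroup.iff_card.1 hP
  have hM : ∀ m : Additive (Abelianization ↥A), (p ^ e) • m = 0 := by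
    intro m
    have h1 : ∀ z : Abelianization ↥A, z ^ (p ^ e) = 1 := by
      intro z
      refine QuotientGroup.induction_on z ?_
      intro x
      have h2 : x ^ (p ^ e) = 1 := by
        apply Subtype.ext
        rw [Subgroup.coe_pow, ← he, pow_card_eq_one']
        rfl
      have h3 : (Abelianization.of x) ^ (p ^ e) = 1 := by rw [← map_pow, h2, map_one]
      exact h3
    exact congrArg Additive.ofMul (h1 (Additive.toMul m))
  have hp : 0 < p := (Fact.out : p.Prime).pos
  choose a ha using fun (s : Fin K) (g : Fin (n + 1) → Fin h) =>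
    form_int p e (n + 1) ν hp (by omega) hM (F s)
      (fun i x => Additive.ofMul (Abelianization.of (⟨σ (g i) (w x), hσw _ _⟩ : ↥A)))
  obtain ⟨y, z, hyz, hdiv⟩ := iso_int p (n + 1) (K * h ^ (n + 1)) k e (by omega) hn hν
    (J := Fin K × (Fin (n + 1) → Fin h)) (by simp) (fun j => a j.1 j.2)
  -- the new vectors
  let w' : Fin k → P := fun i => (List.ofFn fun x => w x ^ (y i x)).prod
  let χ' : Fin k → P →* Multiplicative (ZMod p) := fun i => ∏ x, χ x ^ (z i x)
  have hmapw : ∀ {Q : Type} [Group Q] (f : P →* Q) (i : Fin k),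
      f (w' i) = (List.ofFn fun x => f (w x) ^ (y i x)).prod := by
    intro Q _ f i
    show f (List.ofFn fun x => w x ^ (y i x)).prod = _
    rw [map_list_prod, List.map_ofFn]
    congr 2
    funext x
    exact map_zpow f _ _
  have hw'A : ∀ g i, σ g (w' i) ∈ A := by
    intro g i
    rw [hmapw]
    apply Subgroup.list_prod_mem
    intro b hb
    rw [List.mem_ofFn] at hb
    obtain ⟨x, rfl⟩ := hb
    exact zpow_mem (hσw g x) _
  refine ⟨w', χ', ?_, ?_, ?_, ?_⟩
  · intro i
    apply Subgroup.list_prod_mem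
    intro b hb
    rw [List.mem_ofFn] at hb
    obtain ⟨x, rfl⟩ := hb
    exact zpow_mem (Subgroup.subset_closure (Set.mem_range_self x)) _
  · intro i
    exact Subgroup.prod_mem _ fun x _ => zpow_mem (Subgroup.subset_closure (Set.mem_range_self x)) _
  · intro i j
    have h1 : ∀ x, χ x (w' j) = Multiplicative.ofAdd ((y j x : ZMod p)) := by
      intro x
      rw [hmapw, List.prod_ofFn, Finset.prod_eq_single x]
      · rw [hdual, if_pos rfl]
        apply Multiplicative.toAdd.injective
        rw [toAdd_zpow, toAdd_ofAdd, toAdd_ofAdd, zsmul_eq_mul, mul_one]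
      · intro x' _ hx'
        rw [hdual, if_neg (Ne.symm hx')]
        apply Multiplicative.toAdd.injective
        rw [toAdd_zpow, toAdd_ofAdd, smul_zero]
        rfl
      · intro h
        exact absurd (Finset.mem_univ x) h
    have h2 : χ' i (w' j) = ∏ x, (χ x (w' j)) ^ (z i x) := by
      show (∏ x, χ x ^ (z i x)) (w' j) = _
      rw [MonoidHom.finsetProd_apply]
      rfl
    rw [h2]
    apply Multiplicative.toAdd.injective
    rw [toAdd_prod, toAdd_ofAdd, ← hyz i j]
    push_cast
    refine Finset.sum_congr rfl fun x _ => ?_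
    rw [toAdd_zpow, h1, toAdd_ofAdd, zsmul_eq_mul]
  · intro s x hx
    have hTA : TA σ w' ≤ A := by
      refine (closure_le _).2 ?_
      rintro _ ⟨q, rfl⟩
      exact hw'A q.1 q.2
    have hxE : (x : P) ∈ lcs A n := lcs_mono hTA n hx
    have h1 : θ s ⟨(x : P), hxE⟩ = lam s x := hθS s ⟨(x : P), hxE⟩ x.2
    rw [← h1]
    have hXA : (Set.range fun q : Fin h × Fin k => σ q.1 (w' q.2)) ⊆ (A : Set P) := by
      rintro _ ⟨q, rfl⟩
      exact hw'A q.1 q.2
    have h2 := hF s _ hXA ⟨(x : P), hxE⟩ hx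
    have h3 : AddSubgroup.closure {t : AddCircle (1 : ℚ) | ∃ xx : Fin (n + 1) → ↥A,
        (∀ i, (xx i : P) ∈ Set.range fun q : Fin h × Fin k => σ q.1 (w' q.2)) ∧
          t = F s (fun i => Additive.ofMul (Abelianization.of (xx i)))} ≤ ⊥ := by
      rw [AddSubgroup.closure_le]
      rintro _ ⟨xx, hxx, rfl⟩
      choose q hq using hxx
      have h4 : ∀ i, Additive.ofMul (Abelianization.of (xx i)) =
          ∑ x, y (q i).2 x • Additive.ofMul (Abelianization.of
            (⟨σ (q i).1 (w x), hσw _ _⟩ : ↥A)) := by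
        intro i
        have h5 : xx i = (List.ofFn fun x => (⟨σ (q i).1 (w x), hσw _ _⟩ : ↥A) ^
            (y (q i).2 x)).prod := by
          apply Subtype.ext
          rw [← hq i]
          show σ (q i).1 (w' (q i).2) = A.subtype (List.ofFn fun x =>
            (⟨σ (q i).1 (w x), hσw _ _⟩ : ↥A) ^ (y (q i).2 x)).prod
          rw [hmapw, map_list_prod, List.map_ofFn]
          congr 2
        rw [h5, map_list_prod, List.map_ofFn, List.prod_ofFn, ofMul_prod]
        refine Finset.sum_congr rfl fun x _ => ?_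
        show Additive.ofMul (Abelianization.of ((⟨σ (q i).1 (w x), hσw _ _⟩ : ↥A) ^
            (y (q i).2 x))) = _
        rw [map_zpow, ofMul_zpow]
      have h6 : F s (fun i => Additive.ofMul (Abelianization.of (xx i))) = 0 := by
        simp only [h4]
        exact ha s (fun i => (q i).1) (fun i => y (q i).2)
          (hdiv (s, fun i => (q i).1) (fun i => (q i).2))
      exact h6
    have h7 := h3 h2
    rw [AddSubgroup.mem_bot] at h7
    exact Multiplicative.toAdd.injective h7

end Pool.Agent.Work.MP_b44cb1_al
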