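import Pool.Agent.Work.MP_b44cb1_al.Full.Ext.ChStep

/-!
# MP_b44cb1_al, block EXT, module Choice (S-M) : the choice lemma

PROOF. Show by induction on `m ≤ c` (for all `ν`, `w`, `χ`): if `lam s x = 1` for all
`x ∈ S s ⊓ lcs (TA σ w) m` and `NCH m K h k ≤ ν` then there are `w'`, `χ'` as wanted. `m = 0`:
`NCH 0 K h k = k ≤ ν`; take the first `k` vectors and functionals (`w ∘ Fin.castLE`, `χ ∘ Fin.castLE`);
`TA σ w' ≤ TA σ w = lcs (TA σ w) 0`. `m = n + 1`: `NI (n+1) (K * h^(n+1)) (NCH n K h k) ≤ ν`; `ch_step`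
with `k := NCH n K h k` gives `w₁`, `χ₁`; apply the induction hypothesis to them;
`closure (range w₁) ≤ closure (range w)`, the same for `χ`. Start: `m = c`, since
`lcs (TA σ w) c ≤ lcs ⊤ c = ⊥`, so `x = 1` and `lam s x = 1`.
-/

set_option autoImplicit false

namespace Pool.Agent.Work.MP_b44cb1_al

open Subgroup

theorem choice (p : ℕ) [Fact p.Prime] {P : Type} [Group P] [Finite P] (hP : IsPGroup p P)
    (c : ℕ) (hcp : c < p) (hcl : lcs (⊤ : Subgroup P) c = ⊥)
    (h K k ν : ℕ) (σ : Fin h → P →* P) (S : Fin K → Subgroup P)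
    (lam : ∀ s, ↥(S s) →* Multiplicative (AddCircle (1 : ℚ))) (w : Fin ν → P)
    (χ : Fin ν → P →* Multiplicative (ZMod p))
    (hdual : ∀ i j, χ i (w j) = Multiplicative.ofAdd (if i = j then 1 else 0))
    (hν : NCH c K h k ≤ ν) :
    ∃ (w' : Fin k → P) (χ' : Fin k → P →* Multiplicative (ZMod p)),
      (∀ i, w' i ∈ closure (Set.range w)) ∧
      (∀ i, χ' i ∈ closure (Set.range χ)) ∧
      (∀ i j, χ' i (w' j) = Multiplicative.ofAdd (if i = j then 1 else 0)) ∧
      ∀ s (x : ↥(S s)), (x : P) ∈ TA σ w' → lam s x = 1 := by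
  have main : ∀ m, m ≤ c → ∀ (ν : ℕ) (w : Fin ν → P) (χ : Fin ν → P →* Multiplicative (ZMod p)),
      (∀ i j, χ i (w j) = Multiplicative.ofAdd (if i = j then 1 else 0)) →
      (∀ s (x : ↥(S s)), (x : P) ∈ lcs (TA σ w) m → lam s x = 1) → NCH m K h k ≤ ν →
      ∃ (w' : Fin k → P) (χ' : Fin k → P →* Multiplicative (ZMod p)),
        (∀ i, w' i ∈ closure (Set.range w)) ∧
        (∀ i, χ' i ∈ closure (Set.range χ)) ∧
        (∀ i j, χ' i (w' j) = Multiplicative.ofAdd (if i = j then 1 else 0)) ∧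
        ∀ s (x : ↥(S s)), (x : P) ∈ TA σ w' → lam s x = 1 := by
    intro m
    induction m with
    | zero =>
      intro _ ν w χ hd ht hk
      have hk' : k ≤ ν := hk
      refine ⟨fun i => w (Fin.castLE hk' i), fun i => χ (Fin.castLE hk' i),
        fun i => subset_closure ⟨_, rfl⟩, fun i => subset_closure ⟨_, rfl⟩, ?_, ?_⟩
      · intro i j
        show χ (Fin.castLE hk' i) (w (Fin.castLE hk' j)) = _
        rw [hd]
        by_cases hij : i = j
        · rw [if_pos hij, if_pos (by rw [hij])]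
        · rw [if_neg hij, if_neg (fun h => hij (Fin.castLE_injective hk' h))]
      · intro s x hx
        apply ht s x
        show (x : P) ∈ TA σ w
        refine closure_mono ?_ hx
        rintro _ ⟨q, rfl⟩
        exact ⟨(q.1, Fin.castLE hk' q.2), rfl⟩
    | succ n ih =>
      intro hn ν w χ hd ht hk
      obtain ⟨w₁, χ₁, h1, h2, h3, h4⟩ := ch_step p hP n h K (NCH n K h k) ν (by omega) σ S lam w χ
        hd ht hk
      obtain ⟨w', χ', h5, h6, h7, h8⟩ := ih (by omega) (NCH n K h k) w₁ χ₁ h3 h4 le_rfl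
      refine ⟨w', χ', fun i => ?_, fun i => ?_, h7, h8⟩
      · refine (closure_le _).2 ?_ (h5 i)
        rintro _ ⟨j, rfl⟩
        exact h1 j
      · refine (closure_le _).2 ?_ (h6 i)
        rintro _ ⟨j, rfl⟩
        exact h2 j
  refine main c le_rfl ν w χ hdual ?_ hν
  intro s x hx
  have h1 : (x : P) ∈ lcs (⊤ : Subgroup P) c := lcs_mono le_top c hx
  rw [hcl, mem_bot] at h1
  have h2 : x = 1 := Subtype.ext h1
  rw [h2, map_one]

end Pool.Agent.Work.MP_b44cb1_al
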