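import Pool.Agent.Work.MP_b44cb1_al.Full.Ext.ExTow

/-!
# MP_b44cb1_al, block EXT, module ExCard (S-M) : the order of the section

PROOF. Let `N = Gs (FQ Q q) n ≤ B = Gs Q n`, `F = Fr (q n) (Q n) ≤ Q n`, `card B` is prime to `card (Q n)` (a
power of `q n`). `B ⊔ Q n = Gs Q (n+1)` is the set product `B * Q n` (`B` normalises `Q n`) and has at most
`card B * card (Q n)` elements; `N ⊔ F = Gs (FQ Q q) (n+1)` is `N * F` (they commute) and has exactly
`card N * card F` elements, because `N ⊓ F = ⊥` (coprime orders). Finally `card N * N.relIndex B = card B`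
(`Subgroup.relIndex_mul_card`, `Subgroup.card_mul_relIndex` or similar, `N ≤ B`), the same for `F ≤ Q n` and
for `N ⊔ F ≤ B ⊔ Q n`; cancel `card N * card F > 0`.
-/

set_option autoImplicit false

namespace Pool.Agent.Work.MP_b44cb1_al

open Subgroup

variable {G : Type*} [Group G]

private theorem xc_mul {G : Type*} [Group G] {X Y : Subgroup G} (h : Nz X Y) {z : G}
    (hz : z ∈ X ⊔ Y) : ∃ x ∈ X, ∃ y ∈ Y, x * y = z := by
  let S : Subgroup G :=
    { carrier := {z | ∃ x ∈ X, ∃ y ∈ Y, x * y = z}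
      mul_mem' := by
        rintro _ _ ⟨x, hx, y, hy, rfl⟩ ⟨x', hx', y', hy', rfl⟩
        refine ⟨x * x', mul_mem hx hx', (x'⁻¹ * y * x') * y', mul_mem ?_ hy', by group⟩
        have h1 := h x'⁻¹ (inv_mem hx') y hy
        rwa [inv_inv] at h1
      one_mem' := ⟨1, one_mem _, 1, one_mem _, by group⟩
      inv_mem' := by
        rintro _ ⟨x, hx, y, hy, rfl⟩
        exact ⟨x⁻¹, inv_mem hx, x * y⁻¹ * x⁻¹, h x hx _ (inv_mem hy), by group⟩ }
  have h1 : X ⊔ Y ≤ S := by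
    refine sup_le ?_ ?_
    · intro x hx
      exact ⟨x, hx, 1, one_mem _, by group⟩
    · intro y hy
      exact ⟨1, one_mem _, y, hy, by group⟩
  exact h1 hz

private theorem xc_one {G : Type*} [Group G] {p : ℕ} (hp : p.Prime) {P B : Subgroup G}
    (hP : IsPGroup p P) (hB : ¬ p ∣ Nat.card B) {y : G} (h1 : y ∈ P) (h2 : y ∈ B) : y = 1 := by
  obtain ⟨k, hk⟩ := hP ⟨y, h1⟩
  have h3 : y ^ p ^ k = 1 := congrArg Subtype.val hk
  have h4 : orderOf y ∣ p ^ k := orderOf_dvd_of_pow_eq_one h3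
  obtain ⟨j, -, hj⟩ := (Nat.dvd_prime_pow hp).1 h4
  rcases Nat.eq_zero_or_pos j with h0 | h0
  · rw [h0, pow_zero] at hj
    exact orderOf_eq_one_iff.1 hj
  · exfalso
    apply hB
    have h5 : orderOf y ∣ Nat.card B := Subgroup.orderOf_dvd_natCard B h2
    rw [hj] at h5
    exact (dvd_pow_self p h0.ne').trans h5

private theorem xc_rel {H K : Subgroup G} (h : H ≤ K) :
    Nat.card H * H.relIndex K = Nat.card K := by
  have h1 := relIndex_mul_relIndex ⊥ H K bot_le h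
  rwa [relIndex_bot_left, relIndex_bot_left] at h1

private theorem xc_le [Finite G] {X Y : Subgroup G} (h : Nz X Y) :
    Nat.card ↥(X ⊔ Y) ≤ Nat.card X * Nat.card Y := by
  rw [← Nat.card_prod]
  refine Nat.card_le_card_of_surjective
    (fun z : X × Y => (⟨z.1.1 * z.2.1, mul_mem (le_sup_left (a := X) z.1.2)
      (le_sup_right (b := Y) z.2.2)⟩ : ↥(X ⊔ Y))) ?_
  rintro ⟨z, hz⟩
  obtain ⟨x, hx, y, hy, rfl⟩ := xc_mul h hz
  exact ⟨(⟨x, hx⟩, ⟨y, hy⟩), rfl⟩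

private theorem xc_ge [Finite G] {X Y : Subgroup G} (h : ∀ z ∈ X, z ∈ Y → z = 1) :
    Nat.card X * Nat.card Y ≤ Nat.card ↥(X ⊔ Y) := by
  rw [← Nat.card_prod]
  refine Nat.card_le_card_of_injective
    (fun z : X × Y => (⟨z.1.1 * z.2.1, mul_mem (le_sup_left (a := X) z.1.2)
      (le_sup_right (b := Y) z.2.2)⟩ : ↥(X ⊔ Y))) ?_
  rintro ⟨⟨x, hx⟩, ⟨y, hy⟩⟩ ⟨⟨x', hx'⟩, ⟨y', hy'⟩⟩ he
  have he' : x * y = x' * y' := congrArg Subtype.val he
  have h1 : x'⁻¹ * x = y' * y⁻¹ := by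
    calc x'⁻¹ * x = x'⁻¹ * (x * y) * y⁻¹ := by group
      _ = x'⁻¹ * (x' * y') * y⁻¹ := by rw [he']
      _ = y' * y⁻¹ := by group
  have h2 : x'⁻¹ * x = 1 := h _ (mul_mem (inv_mem hx') hx) (by
    rw [h1]
    exact mul_mem hy' (inv_mem hy))
  have h3 : x = x' := by
    have : x = x' * (x'⁻¹ * x) := by group
    rw [this, h2, mul_one]
  have h4 : y = y' := by
    rw [h3] at he'
    exact mul_left_cancel he'
  subst h3
  subst h4
  rfl

theorem etow_card [Finite G] {Q : ℕ → Subgroup G} {q : ℕ → ℕ} {n : ℕ} (T : ETow Q q (n + 1)) :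
    (Gs (FQ Q q) (n + 1)).relIndex (Gs Q (n + 1)) ≤
      (Gs (FQ Q q) n).relIndex (Gs Q n) * (Fr (q n) (Q n)).relIndex (Q n) := by
  have h1 := xc_rel (gs_fq_le Q q (n + 1))
  have h2 := xc_rel (gs_fq_le Q q n)
  have h3 := xc_rel (fq_le Q q n)
  have hnz : Nz (Gs Q n) (Q n) := T.nz n (Nat.lt_succ_self n)
  have h4 : Nat.card ↥(Gs Q (n + 1)) ≤ Nat.card ↥(Gs Q n) * Nat.card ↥(Q n) := xc_le hnz
  have h5 : Nat.card ↥(Gs (FQ Q q) n) * Nat.card ↥(FQ Q q n) ≤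
      Nat.card ↥(Gs (FQ Q q) (n + 1)) := by
    refine xc_ge ?_
    intro z hz hz'
    exact xc_one (T.prime n (Nat.lt_succ_self n)) (T.pgrp n (Nat.lt_succ_self n))
      (T.cop n (Nat.lt_succ_self n)) (fq_le Q q n hz') (gs_fq_le Q q n hz)
  have h6 : 0 < Nat.card ↥(Gs (FQ Q q) n) * Nat.card ↥(FQ Q q n) :=
    Nat.mul_pos Nat.card_pos Nat.card_pos
  refine Nat.le_of_mul_le_mul_left ?_ h6
  calc Nat.card ↥(Gs (FQ Q q) n) * Nat.card ↥(FQ Q q n) *
        (Gs (FQ Q q) (n + 1)).relIndex (Gs Q (n + 1)) ≤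
      Nat.card ↥(Gs (FQ Q q) (n + 1)) * (Gs (FQ Q q) (n + 1)).relIndex (Gs Q (n + 1)) :=
        Nat.mul_le_mul_right _ h5
    _ = Nat.card ↥(Gs Q (n + 1)) := h1
    _ ≤ Nat.card ↥(Gs Q n) * Nat.card ↥(Q n) := h4
    _ = (Nat.card ↥(Gs (FQ Q q) n) * (Gs (FQ Q q) n).relIndex (Gs Q n)) *
        (Nat.card ↥(FQ Q q n) * (FQ Q q n).relIndex (Q n)) := by rw [h2, h3]
    _ = Nat.card ↥(Gs (FQ Q q) n) * Nat.card ↥(FQ Q q n) *
        ((Gs (FQ Q q) n).relIndex (Gs Q n) * (Fr (q n) (Q n)).relIndex (Q n)) := by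
      rw [FQ]
      ring

end Pool.Agent.Work.MP_b44cb1_al
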