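import Pool.Agent.Work.MP_b44cb1_al.Full.Ext.ExCard

/-!
# MP_b44cb1_al, block EXT, module ExSnoc (S-M) : adding a layer to the state

PROOF. Let `Q' = Function.update Q j R0`: `Q' i = Q i` for `i ≠ j`, `Q' j = R0`; `Gs Q' i = Gs Q i` and
`Gs (FQ Q' _) i = Gs (FQ Q _) i` for `i ≤ j` (`gs_congr`). All fields for `i < j` are those of `X`; for `i = j`
they are the hypotheses. `tow.pgrp`: `R0 ≤ P (c j)`. `card` for `i = j`: by `etow_card` (for `Q'`, `n = j`)
the index is at most `(Gs (FQ Q _) j).relIndex (Gs Q j) * a ≤ a * a`, `a = (Fr _ R0).relIndex R0`, by `hcard`.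
-/

set_option autoImplicit false

namespace Pool.Agent.Work.MP_b44cb1_al

open Subgroup
open scoped commutatorElement

theorem xst_snoc {G : Type*} [Group G] [Finite G] {P : ℕ → Subgroup G} {p c : ℕ → ℕ} {m : ℕ}
    {S : ℕ → Finset (Subgroup G × Subgroup G)} {Q : ℕ → Subgroup G} {j : ℕ}
    (X : XSt P p c m S Q j) (hp : (p (c j)).Prime) (hpg : IsPGroup (p (c j)) (P (c j)))
    (R0 : Subgroup G) (hle : R0 ≤ P (c j)) (hnz : Nz (Gs Q j) R0)
    (hcz : Cz (Gs (FQ Q (fun i => p (c i))) j) R0) (hcop : ¬ p (c j) ∣ Nat.card (Gs Q j))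
    (hfr : R0 ⊓ Fr (p (c j)) (P (c j)) ≤ Fr (p (c j)) R0)
    (hcond : ∀ l < m, ∀ s ∈ S l, R0 ⊓ s.1 ≤ s.2)
    (hfull : ∀ i, i + 1 = j → R0 ≤ ⁅R0, Q i⁆ ⊔ Fr (p (c j)) R0)
    (hnt : 1 < (Fr (p (c j)) R0).relIndex R0)
    (hcard : (Gs (FQ Q (fun i => p (c i))) j).relIndex (Gs Q j) ≤
      (Fr (p (c j)) R0).relIndex R0)
    (hbig : ((Fr (p (c j)) R0).relIndex R0) ^ 2 < (Fr (p (c j)) (P (c j))).relIndex
      (P (c j) ⊓ centralizer (Gs (FQ Q (fun i => p (c i))) j : Set G))) :
    XSt P p c m S (Function.update Q j R0) (j + 1) := by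
  generalize hQ'' : Function.update Q j R0 = Q'
  have hQl : ∀ i, i < j → Q' i = Q i := by
    intro i hi
    rw [← hQ'', Function.update_of_ne (by omega)]
  have hQj : Q' j = R0 := by rw [← hQ'', Function.update_self]
  have hG : ∀ i, i ≤ j → Gs Q' i = Gs Q i := fun i hi => gs_congr (fun l hl => hQl l (by omega))
  have hF : ∀ i, i ≤ j → Gs (FQ Q' (fun i => p (c i))) i = Gs (FQ Q (fun i => p (c i))) i :=
    fun i hi => gs_congr (fun l hl => by
      show Fr _ (Q' l) = Fr _ (Q l)
      rw [hQl l (by omega)])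
  have hcase : ∀ i, i < j + 1 → i < j ∨ i = j := fun i hi => by omega
  have T : ETow Q' (fun i => p (c i)) (j + 1) := by
    refine ⟨fun i hi => ?_, fun i hi => ?_, fun i hi => ?_, fun i hi => ?_, fun i hi => ?_⟩
    · rcases hcase i hi with h | rfl
      · exact X.tow.prime i h
      · exact hp
    · rcases hcase i hi with h | rfl
      · rw [hQl i h]
        exact X.tow.pgrp i h
      · rw [hQj]
        exact hpg.to_le hle
    · rcases hcase i hi with h | rfl
      · rw [hQl i h, hG i h.le]
        exact X.tow.nz i h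
      · rw [hQj, hG i le_rfl]
        exact hnz
    · rcases hcase i hi with h | rfl
      · rw [hQl i h, hF i h.le]
        exact X.tow.cz i h
      · rw [hQj, hF i le_rfl]
        exact hcz
    · rcases hcase i hi with h | rfl
      · rw [hG i h.le]
        exact X.tow.cop i h
      · rw [hG i le_rfl]
        exact hcop
  refine ⟨T, fun i hi => ?_, fun i hi => ?_, fun i hi => ?_, fun i hi => ?_, fun i hi => ?_,
    fun i hi => ?_, fun i hi => ?_⟩
  · rcases hcase i hi with h | rfl
    · rw [hQl i h]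
      exact X.le i h
    · rw [hQj]
      exact hle
  · rcases hcase i hi with h | rfl
    · rw [hQl i h]
      exact X.fr i h
    · rw [hQj]
      exact hfr
  · rcases hcase i hi with h | rfl
    · rw [hQl i h]
      exact X.cond i h
    · rw [hQj]
      exact hcond
  · rcases hcase (i + 1) hi with h | h
    · rw [hQl (i + 1) h, hQl i (by omega)]
      exact X.full i h
    · rw [hQl i (by omega), h, hQj]
      exact hfull i h
  · rcases hcase i hi with h | rfl
    · rw [hQl i h]
      exact X.nt i h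
    · rw [hQj]
      exact hnt
  · rcases hcase i hi with h | rfl
    · rw [hQl i h, hG (i + 1) h, hF (i + 1) h]
      exact X.card i h
    · refine (etow_card T).trans ?_
      rw [hG i le_rfl, hF i le_rfl, hQj, pow_two]
      exact Nat.mul_le_mul_right _ hcard
  · rcases hcase i hi with h | rfl
    · rw [hQl i h, hF i h.le]
      exact X.big i h
    · rw [hQj, hF i le_rfl]
      exact hbig

end Pool.Agent.Work.MP_b44cb1_al
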