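import Pool.Agent.Work.MP_b44cb1_al.Full.Base

/-!
# MP_b44cb1_al, block EXT : towers of the extracted section (definitions, fixed)
-/

set_option autoImplicit false

namespace Pool.Agent.Work.MP_b44cb1_al

open Subgroup

variable {G : Type*} [Group G]

/-- The Frattini subgroups of the layers. -/
def FQ (Q : ℕ → Subgroup G) (q : ℕ → ℕ) (i : ℕ) : Subgroup G := Fr (q i) (Q i)

/-- A tower whose layers commute with the Frattini subgroups of the earlier layers. -/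
structure ETow (Q : ℕ → Subgroup G) (q : ℕ → ℕ) (n : ℕ) : Prop where
  prime : ∀ i < n, (q i).Prime
  pgrp : ∀ i < n, IsPGroup (q i) (Q i)
  nz : ∀ i < n, Nz (Gs Q i) (Q i)
  cz : ∀ i < n, Cz (Gs (FQ Q q) i) (Q i)
  cop : ∀ i < n, ¬ q i ∣ Nat.card (Gs Q i)

theorem fq_le (Q : ℕ → Subgroup G) (q : ℕ → ℕ) (i : ℕ) : FQ Q q i ≤ Q i := fr_le _ _

theorem gs_fq_le (Q : ℕ → Subgroup G) (q : ℕ → ℕ) (n : ℕ) : Gs (FQ Q q) n ≤ Gs Q n := by
  rw [gs_le_iff]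
  exact fun i hi => (fq_le Q q i).trans (le_gs' Q hi)

theorem gs_congr {P Q : ℕ → Subgroup G} {n : ℕ} (h : ∀ i < n, P i = Q i) : Gs P n = Gs Q n := by
  induction n with
  | zero => rfl
  | succ n ih => rw [gs_succ, gs_succ, ih (fun i hi => h i (by omega)), h n (by omega)]

theorem ETow.trunc {Q : ℕ → Subgroup G} {q : ℕ → ℕ} {n m : ℕ} (T : ETow Q q n) (h : m ≤ n) :
    ETow Q q m :=
  ⟨fun i hi => T.prime i (by omega), fun i hi => T.pgrp i (by omega),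
    fun i hi => T.nz i (by omega), fun i hi => T.cz i (by omega),
    fun i hi => T.cop i (by omega)⟩

/-- State of the construction: the layers `Q 0, …, Q (j-1)` of the section, `Q i ≤ P (c i)`, all
conditions `S 0, …, S (m-1)` hold for them. -/
structure XSt (P : ℕ → Subgroup G) (p c : ℕ → ℕ) (m : ℕ)
    (S : ℕ → Finset (Subgroup G × Subgroup G)) (Q : ℕ → Subgroup G) (j : ℕ) : Prop where
  tow : ETow Q (fun i => p (c i)) j
  le : ∀ i < j, Q i ≤ P (c i)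
  fr : ∀ i < j, Q i ⊓ Fr (p (c i)) (P (c i)) ≤ Fr (p (c i)) (Q i)
  cond : ∀ i < j, ∀ l < m, ∀ s ∈ S l, Q i ⊓ s.1 ≤ s.2
  full : ∀ i, i + 1 < j → Q (i + 1) ≤ ⁅Q (i + 1), Q i⁆ ⊔ Fr (p (c (i + 1))) (Q (i + 1))
  nt : ∀ i < j, 1 < (Fr (p (c i)) (Q i)).relIndex (Q i)
  card : ∀ i < j, (Gs (FQ Q (fun i => p (c i))) (i + 1)).relIndex (Gs Q (i + 1)) ≤
    ((Fr (p (c i)) (Q i)).relIndex (Q i)) ^ 2
  big : ∀ i < j, ((Fr (p (c i)) (Q i)).relIndex (Q i)) ^ 2 <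
    (Fr (p (c i)) (P (c i))).relIndex
      (P (c i) ⊓ centralizer (Gs (FQ Q (fun i => p (c i))) i : Set G))

end Pool.Agent.Work.MP_b44cb1_al
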