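import Pool.Agent.Work.MP_b44cb1_al.Full.Assembly
import Pool.Agent.Work.MP_b44cb1_al.Full.Ext.ExtMain

/-!
# MP_b44cb1_al, block EXT : the interface `Extm` of the assembly
-/

set_option autoImplicit false

namespace Pool.Agent.Work.MP_b44cb1_al

theorem extm (r c0 : ℕ) : Extm r c0 := by
  obtain ⟨t, m, h⟩ := ext_main r c0
  refine ⟨t, m, ?_⟩
  intro G _ _ s hs hrs hlaw P p n T hp hcl c S hc hcn hS hcyc hlink hbig
  exact h G hs ⟨s, hrs, hlaw⟩ P p n T (fun i hi => (hp i hi).1) hcl c hc hcn S hS hcyc hlink hbig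

end Pool.Agent.Work.MP_b44cb1_al
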